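import Pool.Agent.J4.H41.KL.Defs

/-!
# Small second differences on a grid imply closeness to an affine map
-/

set_option autoImplicit false

namespace Pool.Agent.J4.H41.KL

namespace Af

/-- the grid points -/
noncomputable def pt {d : ℕ} (h : ℝ) (z₀ : Fin d → ℤ) (w : Fin d → ℕ) : Fin d → ℝ :=
  fun a => h * ((z₀ a : ℝ) + w a)

/-- the first difference -/
noncomputable def df {d : ℕ} (f : (Fin d → ℝ) → ℝ) (h : ℝ) (z₀ : Fin d → ℤ) (i : Fin d)
    (w : Fin d → ℕ) : ℝ :=
  f (pt h z₀ w + h • Pi.single i 1) - f (pt h z₀ w)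

theorem pt_succ {d : ℕ} (h : ℝ) (z₀ : Fin d → ℤ) (w : Fin d → ℕ) (a : Fin d) :
    pt h z₀ (w + Pi.single a 1) = pt h z₀ w + h • Pi.single a 1 := by
  funext b
  unfold pt
  by_cases hb : b = a
  · subst hb
    simp
    ring
  · simp [Pi.single_eq_of_ne hb]

theorem exists_pred {d : ℕ} {w : Fin d → ℕ} {n : ℕ} (h : ∑ a, w a = n + 1) :
    ∃ (a : Fin d) (v : Fin d → ℕ), w = v + Pi.single a 1 ∧ ∑ b, v b = n := by
  have h0 : ∑ a, w a ≠ 0 := by omega
  obtain ⟨a, -, ha⟩ := Finset.exists_ne_zero_of_sum_ne_zero h0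
  have e : w = Function.update w a (w a - 1) + Pi.single a 1 := by
    funext b
    by_cases hb : b = a
    · subst hb
      simp
      omega
    · simp [Pi.single_eq_of_ne hb, Function.update_of_ne hb]
  refine ⟨a, Function.update w a (w a - 1), e, ?_⟩
  have h2 : ∑ b, w b = ∑ b, (Function.update w a (w a - 1)) b + 1 := by
    conv_lhs => rw [e]
    simp [Finset.sum_add_distrib]
  omega

variable {d : ℕ} {f : (Fin d → ℝ) → ℝ} {h κ : ℝ} {z₀ : Fin d → ℤ} {M : ℕ}

theorem df_succ (f : (Fin d → ℝ) → ℝ) (h : ℝ) (z₀ : Fin d → ℤ) (i a : Fin d) (v : Fin d → ℕ) :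
    df f h z₀ i (v + Pi.single a 1) - df f h z₀ i v = mix f h a i (pt h z₀ v) := by
  unfold df mix
  rw [pt_succ]
  ring

theorem df_close (hz : ∀ v : Fin d → ℕ, (∀ a, v a < M) → ∀ i j, |mix f h i j (pt h z₀ v)| ≤ κ)
    (i : Fin d) : ∀ (n : ℕ) (w : Fin d → ℕ), ∑ a, w a = n → (∀ a, w a < M) →
      |df f h z₀ i w - df f h z₀ i 0| ≤ n * κ := by
  intro n
  induction n with
  | zero =>
    intro w hw _
    have : w = 0 := by
      funext a
      exact (Finset.sum_eq_zero_iff.1 hw) a (Finset.mem_univ a)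
    subst this
    simp
  | succ n ih =>
    intro w hw hM
    obtain ⟨a, v, rfl, hv⟩ := exists_pred hw
    have hvM : ∀ b, v b < M := fun b => lt_of_le_of_lt (by simp) (hM b)
    have h1 := ih v hv hvM
    have h2 := hz v hvM a i
    rw [← df_succ] at h2
    have h3 : df f h z₀ i (v + Pi.single a 1) - df f h z₀ i 0 =
        (df f h z₀ i (v + Pi.single a 1) - df f h z₀ i v) + (df f h z₀ i v - df f h z₀ i 0) := by
      ring
    rw [h3]
    refine (abs_add_le _ _).trans ?_
    push_cast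
    linarith

theorem val_close (hκ : 0 ≤ κ)
    (hz : ∀ v : Fin d → ℕ, (∀ a, v a < M) → ∀ i j, |mix f h i j (pt h z₀ v)| ≤ κ) :
    ∀ (n : ℕ) (w : Fin d → ℕ), ∑ a, w a = n → (∀ a, w a < M) →
      |f (pt h z₀ w) - f (pt h z₀ 0) - ∑ i, (w i : ℝ) * df f h z₀ i 0| ≤ n * (d * M * κ) := by
  intro n
  induction n with
  | zero =>
    intro w hw _
    have : w = 0 := by
      funext a
      exact (Finset.sum_eq_zero_iff.1 hw) a (Finset.mem_univ a)
    subst this
    simp
  | succ n ih =>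
    intro w hw hM
    obtain ⟨a, v, rfl, hv⟩ := exists_pred hw
    have hvM : ∀ b, v b < M := fun b => lt_of_le_of_lt (by simp) (hM b)
    have h1 := ih v hv hvM
    have h2 := df_close hz a n v hv hvM
    have hn : (n : ℝ) ≤ d * M := by
      rw [← hv]
      push_cast
      have : ∑ b, (v b : ℝ) ≤ ∑ b : Fin d, (M : ℝ) :=
        Finset.sum_le_sum fun b _ => by exact_mod_cast (hvM b).le
      simpa using this
    have h3 : (n : ℝ) * κ ≤ d * M * κ := mul_le_mul_of_nonneg_right hn hκ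
    have h4 : f (pt h z₀ (v + Pi.single a 1)) - f (pt h z₀ 0) -
        ∑ i, ((v + Pi.single a 1 : Fin d → ℕ) i : ℝ) * df f h z₀ i 0 =
        (f (pt h z₀ v) - f (pt h z₀ 0) - ∑ i, (v i : ℝ) * df f h z₀ i 0) +
          (df f h z₀ a v - df f h z₀ a 0) := by
      have h5 : ∑ i, ((v + Pi.single a 1 : Fin d → ℕ) i : ℝ) * df f h z₀ i 0 =
          ∑ i, (v i : ℝ) * df f h z₀ i 0 + df f h z₀ a 0 := by
        have : ∀ i, ((v + Pi.single a 1 : Fin d → ℕ) i : ℝ) * df f h z₀ i 0 =
            (v i : ℝ) * df f h z₀ i 0 + (if i = a then df f h z₀ i 0 else 0) := by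
          intro i
          by_cases hi : i = a
          · subst hi
            simp
            ring
          · simp [hi]
        rw [Finset.sum_congr rfl fun i _ => this i, Finset.sum_add_distrib]
        simp
      rw [h5, pt_succ]
      have h6 : df f h z₀ a v = f (pt h z₀ v + h • Pi.single a 1) - f (pt h z₀ v) := rfl
      rw [h6]
      ring
    rw [h4]
    refine (abs_add_le _ _).trans ?_
    push_cast
    linarith

end Af

open Af in
theorem affine_of_mix (d : ℕ) (L η' h : ℝ) (M : ℕ) (hL : 0 ≤ L) (hη : 0 ≤ η') (hh : 0 < h)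
    (hM : 1 ≤ M) (g : (Fin d → ℝ) → (Fin d → ℝ)) (hg : ∀ x y, ‖g x - g y‖ ≤ L * ‖x - y‖)
    (z₀ : Fin d → ℤ) (hz : ∀ z : Fin d → ℤ, (∀ a, z₀ a ≤ z a ∧ z a < z₀ a + M) → ∀ c i j,
      |mix (fun x => g x c) h i j (fun a => h * (z a : ℝ))| ≤ η' * h) :
    ∃ A : Matrix (Fin d) (Fin d) ℝ, (∀ i j, |A i j| ≤ L) ∧ ∀ x y,
      (∀ a, h * z₀ a ≤ x a ∧ x a ≤ h * (z₀ a + M)) → (∀ a, h * z₀ a ≤ y a ∧ y a ≤ h * (z₀ a + M)) →
      ‖g x - g y - A.mulVec (x - y)‖ ≤ 2 * ((d : ℝ) ^ 2 * M ^ 2 * η' + (1 + d) * L) * h := by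
  have hz' : ∀ c, ∀ v : Fin d → ℕ, (∀ a, v a < M) → ∀ i j,
      |mix (fun x => g x c) h i j (pt h z₀ v)| ≤ η' * h := by
    intro c v hv i j
    have := hz (fun a => z₀ a + v a) (fun a => ⟨by simp, by
      have := hv a
      simp
      exact_mod_cast this⟩) c i j
    have e : (fun a => h * (((fun a => z₀ a + (v a : ℤ)) a : ℤ) : ℝ)) = pt h z₀ v := by
      funext a
      unfold pt
      push_cast
      rfl
    rwa [e] at this
  set A : Matrix (Fin d) (Fin d) ℝ := fun c i => df (fun x => g x c) h z₀ i 0 / h with hA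
  have hAL : ∀ i j, |A i j| ≤ L := by
    intro c i
    rw [hA]
    simp only
    rw [abs_div, abs_of_pos hh, div_le_iff₀ hh]
    unfold df
    have h1 := hg (pt h z₀ 0 + h • Pi.single i 1) (pt h z₀ 0)
    have h2 : ‖(h • Pi.single i 1 : Fin d → ℝ)‖ ≤ h := by
      rw [norm_smul, Real.norm_eq_abs, abs_of_pos hh]
      have h3 : ‖(Pi.single i 1 : Fin d → ℝ)‖ ≤ 1 := by
        rw [pi_norm_le_iff_of_nonneg (by norm_num)]
        intro b
        by_cases hb : b = i
        · subst hb; simp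
        · simp [Pi.single_eq_of_ne hb]
      nlinarith
    rw [add_sub_cancel_left] at h1
    have h4 := norm_le_pi_norm (g (pt h z₀ 0 + h • Pi.single i 1) - g (pt h z₀ 0)) c
    rw [Real.norm_eq_abs, Pi.sub_apply] at h4
    calc _ ≤ _ := h4
      _ ≤ _ := h1
      _ ≤ L * h := mul_le_mul_of_nonneg_left h2 hL
  have hAn : ∀ v : Fin d → ℝ, ‖A.mulVec v‖ ≤ d * L * ‖v‖ := by
    intro v
    rw [pi_norm_le_iff_of_nonneg (by positivity)]
    intro c
    rw [Real.norm_eq_abs]
    unfold Matrix.mulVec dotProduct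
    refine (Finset.abs_sum_le_sum_abs _ _).trans ?_
    have : ∑ i, |A c i * v i| ≤ ∑ i : Fin d, L * ‖v‖ := by
      refine Finset.sum_le_sum fun i _ => ?_
      rw [abs_mul]
      have h5 := norm_le_pi_norm v i
      rw [Real.norm_eq_abs] at h5
      exact mul_le_mul (hAL c i) h5 (abs_nonneg _) hL
    refine this.trans ?_
    simp
    linarith
  -- one point
  have key : ∀ x : Fin d → ℝ, (∀ a, h * z₀ a ≤ x a ∧ x a ≤ h * (z₀ a + M)) →
      ‖g x - g (pt h z₀ 0) - A.mulVec (x - pt h z₀ 0)‖ ≤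
        ((d : ℝ) ^ 2 * M ^ 2 * η' + (1 + d) * L) * h := by
    intro x hx
    set w : Fin d → ℕ := fun a => min ⌊x a / h - z₀ a⌋₊ (M - 1) with hw
    have hwM : ∀ a, w a < M := by
      intro a
      rw [hw]
      have := min_le_right ⌊x a / h - z₀ a⌋₊ (M - 1)
      simp only
      omega
    have hdist : ‖x - pt h z₀ w‖ ≤ h := by
      rw [pi_norm_le_iff_of_nonneg hh.le]
      intro a
      rw [Real.norm_eq_abs, Pi.sub_apply]
      obtain ⟨h1, h2⟩ := hx a
      set t : ℝ := x a / h - z₀ a with ht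
      have hxt : x a = h * (z₀ a + t) := by
        rw [ht]
        field_simp
        ring
      have ht0 : 0 ≤ t := by
        rw [hxt] at h1
        nlinarith
      have htM : t ≤ M := by
        rw [hxt] at h2
        nlinarith
      have e1 : (w a : ℝ) ≤ t := by
        have : w a ≤ ⌊t⌋₊ := min_le_left _ _
        calc (w a : ℝ) ≤ ⌊t⌋₊ := by exact_mod_cast this
          _ ≤ t := Nat.floor_le ht0
      have e2 : t ≤ w a + 1 := by
        rcases le_total ⌊t⌋₊ (M - 1) with h3 | h3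
        · have : w a = ⌊t⌋₊ := min_eq_left h3
          rw [this]
          exact (Nat.lt_floor_add_one t).le
        · have : w a = M - 1 := min_eq_right h3
          rw [this]
          have h4 : ((M - 1 : ℕ) : ℝ) + 1 = M := by
            have : M - 1 + 1 = M := by omega
            exact_mod_cast this
          rw [h4]
          exact htM
      have e3 : x a - pt h z₀ w a = h * (t - w a) := by
        unfold pt
        rw [hxt]
        ring
      rw [e3, abs_mul, abs_of_pos hh, abs_of_nonneg (by linarith)]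
      nlinarith
    have hsum : ((∑ a, w a : ℕ) : ℝ) ≤ d * M := by
      push_cast
      have : ∑ b, (w b : ℝ) ≤ ∑ b : Fin d, (M : ℝ) :=
        Finset.sum_le_sum fun b _ => by exact_mod_cast (hwM b).le
      simpa using this
    have hgrid : ‖g (pt h z₀ w) - g (pt h z₀ 0) - A.mulVec (pt h z₀ w - pt h z₀ 0)‖ ≤
        (d : ℝ) ^ 2 * M ^ 2 * η' * h := by
      rw [pi_norm_le_iff_of_nonneg (by positivity)]
      intro c
      rw [Real.norm_eq_abs, Pi.sub_apply, Pi.sub_apply]
      have h1 := val_close (f := fun x => g x c) (κ := η' * h) (by positivity) (hz' c)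
        (∑ a, w a) w rfl hwM
      have h2 : (A.mulVec (pt h z₀ w - pt h z₀ 0)) c =
          ∑ i, (w i : ℝ) * df (fun x => g x c) h z₀ i 0 := by
        unfold Matrix.mulVec dotProduct
        refine Finset.sum_congr rfl fun i _ => ?_
        rw [hA]
        unfold pt
        simp only [Pi.sub_apply, Pi.zero_apply, Nat.cast_zero, add_zero]
        field_simp
        ring
      rw [h2]
      refine h1.trans ?_
      calc ((∑ a, w a : ℕ) : ℝ) * (d * M * (η' * h)) ≤ (d * M) * (d * M * (η' * h)) :=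
            mul_le_mul_of_nonneg_right hsum (by positivity)
        _ = (d : ℝ) ^ 2 * M ^ 2 * η' * h := by ring
    have e4 : g x - g (pt h z₀ 0) - A.mulVec (x - pt h z₀ 0) =
        (g x - g (pt h z₀ w)) +
          (g (pt h z₀ w) - g (pt h z₀ 0) - A.mulVec (pt h z₀ w - pt h z₀ 0)) -
            A.mulVec (x - pt h z₀ w) := by
      have : A.mulVec (x - pt h z₀ 0) =
          A.mulVec (x - pt h z₀ w) + A.mulVec (pt h z₀ w - pt h z₀ 0) := by
        rw [← Matrix.mulVec_add]
        congr 1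
        abel
      rw [this]
      abel
    rw [e4]
    refine (norm_sub_le _ _).trans ?_
    have h5 := norm_add_le (g x - g (pt h z₀ w))
      (g (pt h z₀ w) - g (pt h z₀ 0) - A.mulVec (pt h z₀ w - pt h z₀ 0))
    have h6 : ‖g x - g (pt h z₀ w)‖ ≤ L * h :=
      (hg _ _).trans (mul_le_mul_of_nonneg_left hdist hL)
    have h7 : ‖A.mulVec (x - pt h z₀ w)‖ ≤ d * L * h :=
      (hAn _).trans (mul_le_mul_of_nonneg_left hdist (by positivity))
    calc _ ≤ (L * h + (d : ℝ) ^ 2 * M ^ 2 * η' * h) + d * L * h := by linarith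
      _ = ((d : ℝ) ^ 2 * M ^ 2 * η' + (1 + d) * L) * h := by ring
  refine ⟨A, hAL, fun x y hx hy => ?_⟩
  have e5 : g x - g y - A.mulVec (x - y) =
      (g x - g (pt h z₀ 0) - A.mulVec (x - pt h z₀ 0)) -
        (g y - g (pt h z₀ 0) - A.mulVec (y - pt h z₀ 0)) := by
    have : A.mulVec (x - y) = A.mulVec (x - pt h z₀ 0) - A.mulVec (y - pt h z₀ 0) := by
      rw [← Matrix.mulVec_sub]
      congr 1
      abel
    rw [this]
    abel
  rw [e5]
  refine (norm_sub_le _ _).trans ?_
  have h8 := key x hx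
  have h9 := key y hy
  linarith

end Pool.Agent.J4.H41.KL
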