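import Pool.Agent.J4.H41.KL.En

/-!
# Few lattice points with a large second difference
-/

set_option autoImplicit false

namespace Pool.Agent.J4.H41.KL

open MeasureTheory Set

namespace Bp

variable {d : ℕ}

lemma norm_single (i : Fin d) : ‖(Pi.single i 1 : Fin d → ℝ)‖ ≤ 1 := by
  rw [pi_norm_le_iff_of_nonneg zero_le_one]
  intro a
  by_cases h : a = i
  · subst h
    simp
  · simp [Pi.single_eq_of_ne h]

lemma mix_lip {g : (Fin d → ℝ) → ℝ} {L : ℝ} (hg : ∀ x y, |g x - g y| ≤ L * ‖x - y‖) (h : ℝ)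
    (i j : Fin d) (x y : Fin d → ℝ) : |mix g h i j x - mix g h i j y| ≤ 4 * L * ‖x - y‖ := by
  unfold mix
  have h1 := hg (x + h • Pi.single i 1 + h • Pi.single j 1)
    (y + h • Pi.single i 1 + h • Pi.single j 1)
  have h2 := hg (x + h • Pi.single i 1) (y + h • Pi.single i 1)
  have h3 := hg (x + h • Pi.single j 1) (y + h • Pi.single j 1)
  have h4 := hg x y
  rw [show x + h • (Pi.single i 1 : Fin d → ℝ) + h • Pi.single j 1 -
    (y + h • Pi.single i 1 + h • Pi.single j 1) = x - y by abel] at h1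
  rw [show x + h • (Pi.single i 1 : Fin d → ℝ) - (y + h • Pi.single i 1) = x - y by abel] at h2
  rw [show x + h • (Pi.single j 1 : Fin d → ℝ) - (y + h • Pi.single j 1) = x - y by abel] at h3
  rw [abs_le] at *
  constructor <;> linarith [h1.1, h1.2, h2.1, h2.2, h3.1, h3.2, h4.1, h4.2]

lemma mix_cont {g : (Fin d → ℝ) → ℝ} (hg : Continuous g) (h : ℝ) (i j : Fin d) :
    Continuous (mix g h i j) := by
  unfold mix
  fun_prop

lemma mix_zero {g : (Fin d → ℝ) → ℝ} (hg : ∀ x, 3 ≤ ‖x‖ → g x = 0) {h : ℝ} (h0 : 0 ≤ h)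
    (h1 : h ≤ 1) (i j : Fin d) {x : Fin d → ℝ} (hx : 5 ≤ ‖x‖) : mix g h i j x = 0 := by
  have hs : ∀ i : Fin d, ‖h • (Pi.single i 1 : Fin d → ℝ)‖ ≤ 1 := by
    intro i
    rw [norm_smul, Real.norm_of_nonneg h0]
    calc h * ‖(Pi.single i 1 : Fin d → ℝ)‖ ≤ 1 * 1 :=
          mul_le_mul h1 (norm_single i) (norm_nonneg _) zero_le_one
      _ = 1 := one_mul 1
  have hn : ∀ u v : Fin d → ℝ, ‖u‖ - ‖v‖ ≤ ‖u + v‖ := by
    intro u v
    have := norm_sub_norm_le u (-v)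
    rwa [norm_neg, sub_neg_eq_add] at this
  have e1 := hn (x + h • Pi.single i 1) (h • Pi.single j 1)
  have e2 := hn x (h • Pi.single i 1)
  have e3 := hn x (h • Pi.single j 1)
  have si := hs i
  have sj := hs j
  unfold mix
  rw [hg _ (by linarith), hg _ (by linarith), hg _ (by linarith), hg _ (by linarith)]
  ring

lemma integrable {g : (Fin d → ℝ) → ℝ} (hc : Continuous g) (hg : ∀ x, 3 ≤ ‖x‖ → g x = 0) {h : ℝ}
    (h0 : 0 ≤ h) (h1 : h ≤ 1) (i j : Fin d) : Integrable (fun x => (mix g h i j x) ^ 2) := by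
  apply Continuous.integrable_of_hasCompactSupport
  · exact (mix_cont hc h i j).pow 2
  · refine HasCompactSupport.of_support_subset_isCompact (isCompact_closedBall (0 : Fin d → ℝ) 5) ?_
    intro x hx
    rw [mem_closedBall_zero_iff]
    by_contra h2
    rw [not_le] at h2
    apply hx
    simp only
    rw [mix_zero hg h0 h1 i j h2.le]
    norm_num

/-- the cube with the corner `h z` and the side `r` -/
def cube (h r : ℝ) (z : Fin d → ℤ) : Set (Fin d → ℝ) :=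
  Set.pi univ fun a => Ico (h * (z a : ℝ)) (h * (z a : ℝ) + r)

lemma cube_meas (h r : ℝ) (z : Fin d → ℤ) : MeasurableSet (cube h r z) :=
  MeasurableSet.univ_pi fun _ => measurableSet_Ico

lemma cube_vol {h r : ℝ} (hr : 0 ≤ r) (z : Fin d → ℤ) : volume.real (cube h r z) = r ^ d := by
  rw [Measure.real, cube, Real.volume_pi_Ico_toReal]
  · simp
  · intro a
    simp only
    linarith

lemma cube_fin (h r : ℝ) (z : Fin d → ℤ) : volume (cube h r z) ≠ ⊤ := by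
  rw [cube, Real.volume_pi_Ico]
  exact ENNReal.prod_ne_top fun _ _ => ENNReal.ofReal_ne_top

lemma cube_disj {h r : ℝ} (hh : 0 < h) (hr : r ≤ h) {z z' : Fin d → ℤ} (hz : z ≠ z') :
    Disjoint (cube h r z) (cube h r z') := by
  rw [Set.disjoint_left]
  intro x hx hx'
  apply hz
  funext a
  have h1 := hx a (mem_univ a)
  have h2 := hx' a (mem_univ a)
  simp only [mem_Ico] at h1 h2
  have key : ∀ u v : ℤ, h * (u : ℝ) ≤ x a → x a < h * (v : ℝ) + r → u < v + 1 := by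
    intro u v hu hv
    have h3 : h * (u : ℝ) < h * ((v : ℝ) + 1) := by
      calc h * (u : ℝ) ≤ x a := hu
        _ < h * (v : ℝ) + r := hv
        _ ≤ h * ((v : ℝ) + 1) := by linarith
    have h4 : (u : ℝ) < (v : ℝ) + 1 := lt_of_mul_lt_mul_left h3 hh.le
    exact_mod_cast h4
  have h3 := key _ _ h1.1 h2.2
  have h4 := key _ _ h2.1 h1.2
  omega

/-- one scale -/
lemma one_scale {g : (Fin d → ℝ) → ℝ} {L η h ρ : ℝ} (hL : 0 < L) (hη : 0 < η) (h0 : 0 < h)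
    (h1 : h ≤ 1) (hρ0 : 0 < ρ) (hρ1 : ρ ≤ 1) (hρ : 8 * L * ρ ≤ η)
    (hg : ∀ x y, |g x - g y| ≤ L * ‖x - y‖) (hg0 : ∀ x, 3 ≤ ‖x‖ → g x = 0) (i j : Fin d)
    (Z : Finset (Fin d → ℤ))
    (hZ : ∀ z ∈ Z, η * h < |mix g h i j (fun a => h * (z a : ℝ))|) :
    (Z.card : ℝ) * (ρ * h) ^ d * (η * h / 2) ^ 2 ≤ ∫ x, (mix g h i j x) ^ 2 := by
  have hc : Continuous g := by
    have : LipschitzWith ⟨L, hL.le⟩ g := by
      apply LipschitzWith.of_dist_le_mul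
      intro x y
      rw [Real.dist_eq, dist_eq_norm]
      exact hg x y
    exact this.continuous
  have hint := integrable hc hg0 h0.le h1 i j
  have hρh : ρ * h ≤ h := by nlinarith
  have hρh0 : 0 ≤ ρ * h := by positivity
  have hU : MeasurableSet (⋃ z ∈ Z, cube h (ρ * h) z) :=
    Finset.measurableSet_biUnion _ fun z _ => cube_meas h (ρ * h) z
  have hvol : volume.real (⋃ z ∈ Z, cube h (ρ * h) z) = (Z.card : ℝ) * (ρ * h) ^ d := by
    rw [measureReal_biUnion_finset (fun z _ z' _ hz => cube_disj h0 hρh hz)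
      (fun z _ => cube_meas h (ρ * h) z) (fun z _ => cube_fin h (ρ * h) z)]
    rw [Finset.sum_congr rfl fun z _ => cube_vol hρh0 z, Finset.sum_const, nsmul_eq_mul]
  have hfin : volume (⋃ z ∈ Z, cube h (ρ * h) z) ≠ ⊤ := by
    apply ne_top_of_le_ne_top _ (measure_biUnion_finset_le Z fun z => cube h (ρ * h) z)
    exact ENNReal.sum_ne_top.2 fun z _ => cube_fin h (ρ * h) z
  have hlow : ∀ x ∈ ⋃ z ∈ Z, cube h (ρ * h) z, (η * h / 2) ^ 2 ≤ (mix g h i j x) ^ 2 := by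
    intro x hx
    simp only [mem_iUnion] at hx
    obtain ⟨z, hz, hx⟩ := hx
    have h2 := hZ z hz
    have h3 := mix_lip hg h i j (fun a => h * (z a : ℝ)) x
    have h4 : ‖(fun a => h * (z a : ℝ)) - x‖ ≤ ρ * h := by
      rw [pi_norm_le_iff_of_nonneg hρh0]
      intro a
      have h5 := hx a (mem_univ a)
      simp only [mem_Ico] at h5
      rw [Pi.sub_apply, Real.norm_eq_abs, abs_le]
      constructor <;> linarith [h5.1, h5.2]
    have h5 : |mix g h i j (fun a => h * (z a : ℝ)) - mix g h i j x| ≤ η * h / 2 := by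
      calc _ ≤ 4 * L * ‖(fun a => h * (z a : ℝ)) - x‖ := h3
        _ ≤ 4 * L * (ρ * h) := mul_le_mul_of_nonneg_left h4 (by positivity)
        _ = (8 * L * ρ) * h / 2 := by ring
        _ ≤ η * h / 2 := by
          have := mul_le_mul_of_nonneg_right hρ h0.le
          linarith
    have h6 : η * h / 2 ≤ |mix g h i j x| := by
      have := abs_sub_abs_le_abs_sub (mix g h i j (fun a => h * (z a : ℝ))) (mix g h i j x)
      linarith
    rw [← sq_abs (mix g h i j x)]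
    exact pow_le_pow_left₀ (by positivity) h6 2
  calc (Z.card : ℝ) * (ρ * h) ^ d * (η * h / 2) ^ 2
      = (η * h / 2) ^ 2 * volume.real (⋃ z ∈ Z, cube h (ρ * h) z) := by rw [hvol]; ring
    _ ≤ ∫ x in ⋃ z ∈ Z, cube h (ρ * h) z, (mix g h i j x) ^ 2 := by
        exact setIntegral_ge_of_const_le_real hU hfin hlow hint.integrableOn
    _ ≤ ∫ x, (mix g h i j x) ^ 2 :=
        setIntegral_le_integral hint (Filter.Eventually.of_forall fun x => sq_nonneg _)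

end Bp

/-- **Few lattice points with a large second difference**, from the energy estimate `hE`. -/
theorem bad_points_of (d : ℕ) (hE : ∃ C : ℝ, 0 < C ∧ ∀ (g : (Fin d → ℝ) → ℝ) (L : ℝ), 0 ≤ L →
    (∀ x y, |g x - g y| ≤ L * ‖x - y‖) → (∀ x, 3 ≤ ‖x‖ → g x = 0) → ∀ (i j : Fin d) (n : ℕ),
    ∑ k ∈ Finset.range n, (4 : ℝ) ^ k * ∫ x, (mix g ((1 / 2) ^ k) i j x) ^ 2 ≤ C * L ^ 2)
    (L η : ℝ) (hL : 0 < L) (hη : 0 < η) :
    ∃ C : ℝ, 0 < C ∧ ∀ (g : (Fin d → ℝ) → ℝ), (∀ x y, |g x - g y| ≤ L * ‖x - y‖) →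
    (∀ x, 3 ≤ ‖x‖ → g x = 0) → ∀ (i j : Fin d) (n : ℕ) (Z : ℕ → Finset (Fin d → ℤ)),
    (∀ k < n, ∀ z ∈ Z k,
      η * (1 / 2) ^ k < |mix g ((1 / 2) ^ k) i j (fun a => (1 / 2) ^ k * (z a : ℝ))|) →
    ∑ k ∈ Finset.range n, ((Z k).card : ℝ) * ((1 / 2) ^ k) ^ d ≤ C := by
  obtain ⟨C, hC, hE⟩ := hE
  obtain ⟨ρ, hρ⟩ : ∃ ρ : ℝ, ρ = min 1 (η / (8 * L)) := ⟨_, rfl⟩
  have hρ0 : 0 < ρ := by rw [hρ]; positivity
  have hρ1 : ρ ≤ 1 := by rw [hρ]; exact min_le_left _ _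
  have hρ2 : 8 * L * ρ ≤ η := by
    have h1 : ρ ≤ η / (8 * L) := by rw [hρ]; exact min_le_right _ _
    rw [le_div_iff₀ (by positivity)] at h1
    linarith
  refine ⟨C * L ^ 2 * 4 / (ρ ^ d * η ^ 2), by positivity, fun g hg hg0 i j n Z hZ => ?_⟩
  rw [le_div_iff₀ (by positivity), Finset.sum_mul]
  have h2 := hE g L hL.le hg hg0 i j n
  have h3 : ∀ k ∈ Finset.range n, ((Z k).card : ℝ) * ((1 / 2) ^ k) ^ d * (ρ ^ d * η ^ 2) ≤
      4 * ((4 : ℝ) ^ k * ∫ x, (mix g ((1 / 2) ^ k) i j x) ^ 2) := by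
    intro k hk
    have hk' := Finset.mem_range.1 hk
    have h4 := Bp.one_scale (g := g) (L := L) (η := η) (h := (1 / 2) ^ k) (ρ := ρ) hL hη
      (by positivity) (pow_le_one₀ (by norm_num) (by norm_num)) hρ0 hρ1 hρ2 hg hg0 i j (Z k)
      (hZ k hk')
    have h5 : (4 : ℝ) ^ k * ((1 / 2) ^ k) ^ 2 = 1 := by
      rw [← pow_mul, mul_comm k 2, pow_mul, ← mul_pow]
      norm_num
    have h6 : (4 : ℝ) ^ k * (((Z k).card : ℝ) * (ρ * (1 / 2) ^ k) ^ d *
        (η * (1 / 2) ^ k / 2) ^ 2) = ((Z k).card : ℝ) * ((1 / 2) ^ k) ^ d * (ρ ^ d * η ^ 2) / 4 := by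
      rw [mul_pow ρ]
      calc (4 : ℝ) ^ k * (((Z k).card : ℝ) * (ρ ^ d * ((1 / 2) ^ k) ^ d) *
            (η * (1 / 2) ^ k / 2) ^ 2)
          = ((4 : ℝ) ^ k * ((1 / 2) ^ k) ^ 2) *
              (((Z k).card : ℝ) * ((1 / 2) ^ k) ^ d * (ρ ^ d * η ^ 2) / 4) := by ring
        _ = _ := by rw [h5, one_mul]
    have h7 := mul_le_mul_of_nonneg_left h4 (by positivity : (0 : ℝ) ≤ (4 : ℝ) ^ k)
    rw [h6] at h7
    linarith
  calc ∑ k ∈ Finset.range n, ((Z k).card : ℝ) * ((1 / 2) ^ k) ^ d * (ρ ^ d * η ^ 2)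
      ≤ ∑ k ∈ Finset.range n, 4 * ((4 : ℝ) ^ k * ∫ x, (mix g ((1 / 2) ^ k) i j x) ^ 2) :=
        Finset.sum_le_sum h3
    _ = 4 * ∑ k ∈ Finset.range n, (4 : ℝ) ^ k * ∫ x, (mix g ((1 / 2) ^ k) i j x) ^ 2 := by
        rw [Finset.mul_sum]
    _ ≤ 4 * (C * L ^ 2) := by linarith
    _ = C * L ^ 2 * 4 := by ring

/-- **Few lattice points with a large second difference.** -/
theorem bad_points (d : ℕ) (L η : ℝ) (hL : 0 < L) (hη : 0 < η) :
    ∃ C : ℝ, 0 < C ∧ ∀ (g : (Fin d → ℝ) → ℝ), (∀ x y, |g x - g y| ≤ L * ‖x - y‖) →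
    (∀ x, 3 ≤ ‖x‖ → g x = 0) → ∀ (i j : Fin d) (n : ℕ) (Z : ℕ → Finset (Fin d → ℤ)),
    (∀ k < n, ∀ z ∈ Z k,
      η * (1 / 2) ^ k < |mix g ((1 / 2) ^ k) i j (fun a => (1 / 2) ^ k * (z a : ℝ))|) →
    ∑ k ∈ Finset.range n, ((Z k).card : ℝ) * ((1 / 2) ^ k) ^ d ≤ C :=
  bad_points_of d (energy d) L η hL hη

end Pool.Agent.J4.H41.KL
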