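import Pool.Agent.J4.H41.KL.Defs

/-!
# Project KL, piece CAR (helper45): a Carleson condition implies that few points have many bad ancestors
-/

set_option autoImplicit false

namespace Pool.Agent.J4.H41.KL

namespace Car

open Finset

lemma choose_ge {t : ℝ} (ht : 1 ≤ t) (m : ℕ) : ∀ n : ℕ, t * m ≤ n → t ^ m ≤ (n.choose m : ℝ) := by
  induction m with
  | zero => intro n _; simp
  | succ m ih =>
    intro n hn
    have hpos : (0 : ℝ) < (m + 1 : ℕ) := by positivity
    have hn1 : 1 ≤ n := by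
      rcases Nat.eq_zero_or_pos n with h | h
      · subst h
        have h1 : 0 < t * ((m + 1 : ℕ) : ℝ) := by positivity
        rw [Nat.cast_zero] at hn
        linarith
      · exact h
    obtain ⟨n', rfl⟩ : ∃ n', n = n' + 1 := ⟨n - 1, by omega⟩
    have h1 : t * m ≤ (n' : ℝ) := by
      push_cast at hn
      linarith
    have h2 := ih n' h1
    have h3 : (((n' + 1 : ℕ) : ℝ)) * (n'.choose m : ℝ) =
        (((n' + 1).choose (m + 1) : ℕ) : ℝ) * ((m + 1 : ℕ) : ℝ) := by
      exact_mod_cast Nat.add_one_mul_choose_eq n' m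
    have h4 : t ^ (m + 1) * ((m + 1 : ℕ) : ℝ) ≤
        (((n' + 1).choose (m + 1) : ℕ) : ℝ) * ((m + 1 : ℕ) : ℝ) := by
      rw [← h3]
      calc t ^ (m + 1) * ((m + 1 : ℕ) : ℝ) = (t * ((m + 1 : ℕ) : ℝ)) * t ^ m := by ring
        _ ≤ ((n' + 1 : ℕ) : ℝ) * (n'.choose m : ℝ) := by
            refine mul_le_mul hn h2 (by positivity) (by positivity)
    exact le_of_mul_le_mul_right h4 hpos

lemma choose_le (p : ℕ → Prop) [DecidablePred p] (K m : ℕ) (j : ℕ) : ∀ k₀ : ℕ, k₀ + j = K →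
    ((Ico k₀ K).filter p).card.choose (m + 1) ≤
      ∑ k ∈ (Ico k₀ K).filter p, (((Ico k K).filter p).card).choose m := by
  induction j with
  | zero =>
    intro k₀ h
    have : k₀ = K := by omega
    subst this
    simp
  | succ j ih =>
    intro k₀ h
    have h1 := ih (k₀ + 1) (by omega)
    have h2 : Ico k₀ K = insert k₀ (Ico (k₀ + 1) K) := by
      ext i
      simp only [mem_Ico, mem_insert]
      omega
    have h3 : k₀ ∉ (Ico (k₀ + 1) K).filter p := by
      simp
    by_cases hp : p k₀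
    · have h4 : (Ico k₀ K).filter p = insert k₀ ((Ico (k₀ + 1) K).filter p) := by
        rw [h2, filter_insert, if_pos hp]
      have h5 : ((Ico k₀ K).filter p).card = ((Ico (k₀ + 1) K).filter p).card + 1 := by
        rw [h4, card_insert_of_notMem h3]
      rw [h5, Nat.choose_succ_succ]
      conv_rhs => rw [h4]
      rw [sum_insert h3]
      refine Nat.add_le_add ?_ h1
      exact Nat.choose_le_choose m (by omega)
    · have h4 : (Ico k₀ K).filter p = (Ico (k₀ + 1) K).filter p := by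
        rw [h2, filter_insert, if_neg hp]
      rw [h4]
      exact h1

variable {α β : Type} [DecidableEq α] [DecidableEq β] (K : ℕ) (c : ℕ → α → β) (P : Finset α)
    (bad : ℕ → β → Prop) [∀ k b, Decidable (bad k b)] (Λ D C₁ : ℝ)

/-- the number of bad ancestors from the level `k` on -/
def nb (k : ℕ) (y : α) : ℕ := ((Ico k K).filter fun i => bad i (c i y)).card

lemma main (hΛ : 1 ≤ Λ) (hD : 0 ≤ D) (hC : 1 ≤ C₁)
    (hcell : ∀ k ≤ K, ∀ x ∈ P, ((P.filter fun y => c k y = c k x).card : ℝ) ≤ D * Λ ^ (K - k))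
    (hcar : ∀ k₀ ≤ K, ∀ x ∈ P, ∑ k ∈ Finset.Ico k₀ K,
      ((((P.filter fun y => c k₀ y = c k₀ x).image (c k)).filter (bad k)).card : ℝ) * Λ ^ (K - k)
        ≤ C₁ * Λ ^ (K - k₀))
    (m : ℕ) : ∀ k₀ ≤ K, ∀ x ∈ P, ∑ y ∈ P.filter (fun y => c k₀ y = c k₀ x),
      (((nb K c bad k₀ y).choose m : ℕ) : ℝ) ≤ C₁ ^ m * D * Λ ^ (K - k₀) := by
  induction m with
  | zero =>
    intro k₀ hk x hx
    have h := hcell k₀ hk x hx
    simpa using h
  | succ m ih =>
    intro k₀ hk x hx
    set cell := P.filter (fun y => c k₀ y = c k₀ x) with hcelldef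
    have hsub : cell ⊆ P := filter_subset _ _
    have h1 : ∀ y ∈ cell, (((nb K c bad k₀ y).choose (m + 1) : ℕ) : ℝ) ≤
        ∑ k ∈ Ico k₀ K, if bad k (c k y) then (((nb K c bad k y).choose m : ℕ) : ℝ) else 0 := by
      intro y _
      have h2 := choose_le (fun i => bad i (c i y)) K m (K - k₀) k₀ (by omega)
      rw [sum_filter] at h2
      have h3 : (((((Ico k₀ K).filter fun i => bad i (c i y)).card.choose (m + 1) : ℕ)) : ℝ) ≤
          ((∑ k ∈ Ico k₀ K, if bad k (c k y) then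
            (((Ico k K).filter fun i => bad i (c i y)).card).choose m else 0 : ℕ) : ℝ) := by
        exact_mod_cast h2
      refine h3.trans (le_of_eq ?_)
      rw [Nat.cast_sum]
      refine sum_congr rfl fun k _ => ?_
      split_ifs
      · rfl
      · simp
    have h4 : ∀ k ∈ Ico k₀ K, ∑ y ∈ cell, (if bad k (c k y) then
        (((nb K c bad k y).choose m : ℕ) : ℝ) else 0) ≤
        (((cell.image (c k)).filter (bad k)).card : ℝ) * (C₁ ^ m * D * Λ ^ (K - k)) := by
      intro k hkk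
      rw [mem_Ico] at hkk
      rw [← sum_filter]
      have h5 : ∀ y ∈ cell.filter (fun y => bad k (c k y)),
          c k y ∈ (cell.image (c k)).filter (bad k) := by
        intro y hy
        rw [mem_filter] at hy ⊢
        exact ⟨mem_image_of_mem _ hy.1, hy.2⟩
      rw [← sum_fiberwise_of_maps_to h5, ← nsmul_eq_mul]
      refine sum_le_card_nsmul _ _ _ fun b hb => ?_
      rw [mem_filter] at hb
      obtain ⟨x', hx', rfl⟩ := mem_image.1 hb.1
      refine le_trans ?_ (ih k (by omega) x' (hsub hx'))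
      refine sum_le_sum_of_subset_of_nonneg ?_ fun _ _ _ => Nat.cast_nonneg _
      intro y hy
      simp only [mem_filter] at hy ⊢
      exact ⟨hsub hy.1.1, hy.2⟩
    calc ∑ y ∈ cell, (((nb K c bad k₀ y).choose (m + 1) : ℕ) : ℝ)
        ≤ ∑ y ∈ cell, ∑ k ∈ Ico k₀ K, (if bad k (c k y) then
            (((nb K c bad k y).choose m : ℕ) : ℝ) else 0) := sum_le_sum h1
      _ = ∑ k ∈ Ico k₀ K, ∑ y ∈ cell, (if bad k (c k y) then
            (((nb K c bad k y).choose m : ℕ) : ℝ) else 0) := sum_comm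
      _ ≤ ∑ k ∈ Ico k₀ K, (((cell.image (c k)).filter (bad k)).card : ℝ) *
            (C₁ ^ m * D * Λ ^ (K - k)) := sum_le_sum h4
      _ = (C₁ ^ m * D) * ∑ k ∈ Ico k₀ K, (((cell.image (c k)).filter (bad k)).card : ℝ) *
            Λ ^ (K - k) := by
          rw [mul_sum]
          refine sum_congr rfl fun k _ => ?_
          ring
      _ ≤ (C₁ ^ m * D) * (C₁ * Λ ^ (K - k₀)) := by
          refine mul_le_mul_of_nonneg_left (hcar k₀ hk x hx) ?_
          positivity
      _ = C₁ ^ (m + 1) * D * Λ ^ (K - k₀) := by ring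

end Car

theorem few_bad {α β : Type} [DecidableEq α] [DecidableEq β] (K : ℕ) (c : ℕ → α → β) (P : Finset α)
    (hc : ∀ k < K, ∀ x y, c (k + 1) x = c (k + 1) y → c k x = c k y)
    (bad : ℕ → β → Prop) [∀ k b, Decidable (bad k b)] (Λ D C₁ : ℝ) (hΛ : 1 ≤ Λ) (hD : 0 ≤ D)
    (hC : 1 ≤ C₁)
    (hcell : ∀ k ≤ K, ∀ x ∈ P, ((P.filter fun y => c k y = c k x).card : ℝ) ≤ D * Λ ^ (K - k))
    (hcar : ∀ k₀ ≤ K, ∀ x ∈ P, ∑ k ∈ Finset.Ico k₀ K,
      ((((P.filter fun y => c k₀ y = c k₀ x).image (c k)).filter (bad k)).card : ℝ) * Λ ^ (K - k)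
        ≤ C₁ * Λ ^ (K - k₀))
    (m m₁ : ℕ) (hm : 4 * C₁ * m ≤ m₁) :
    ((P.filter fun x => m₁ ≤ ((Finset.range K).filter fun k => bad k (c k x)).card).card : ℝ) ≤
      (P.image (c 0)).card * (D * Λ ^ K * (1 / 4) ^ m) := by
  have hmain := Car.main K c P bad Λ D C₁ hΛ hD hC hcell hcar m 0 (Nat.zero_le _)
  have h1 : ∑ y ∈ P, (((Car.nb K c bad 0 y).choose m : ℕ) : ℝ) ≤
      (P.image (c 0)).card * (C₁ ^ m * D * Λ ^ K) := by
    rw [← Finset.sum_fiberwise_of_maps_to (fun y hy => Finset.mem_image_of_mem (c 0) hy),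
      ← nsmul_eq_mul]
    refine Finset.sum_le_card_nsmul _ _ _ fun b hb => ?_
    obtain ⟨x', hx', rfl⟩ := Finset.mem_image.1 hb
    simpa using hmain x' hx'
  set Q := P.filter fun x => m₁ ≤ ((Finset.range K).filter fun k => bad k (c k x)).card with hQ
  have hpos : (0 : ℝ) < (4 * C₁) ^ m := by positivity
  have h2 : (Q.card : ℝ) * (4 * C₁) ^ m ≤ ∑ y ∈ P, (((Car.nb K c bad 0 y).choose m : ℕ) : ℝ) := by
    have h3 : (Q.card : ℝ) * (4 * C₁) ^ m ≤
        ∑ y ∈ Q, (((Car.nb K c bad 0 y).choose m : ℕ) : ℝ) := by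
      rw [← nsmul_eq_mul]
      refine Finset.card_nsmul_le_sum _ _ _ fun y hy => ?_
      have hy2 := (Finset.mem_filter.1 hy).2
      apply Car.choose_ge (by linarith)
      refine hm.trans ?_
      have h4 : m₁ ≤ Car.nb K c bad 0 y := by
        unfold Car.nb
        rw [← Finset.range_eq_Ico]
        exact hy2
      exact_mod_cast h4
    refine h3.trans (Finset.sum_le_sum_of_subset_of_nonneg (Finset.filter_subset _ _)
      fun _ _ _ => Nat.cast_nonneg _)
  have h5 : (Q.card : ℝ) * (4 * C₁) ^ m ≤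
      ((P.image (c 0)).card * (D * Λ ^ K * (1 / 4) ^ m)) * (4 * C₁) ^ m := by
    refine (h2.trans h1).trans (le_of_eq ?_)
    have h6 : ((1 : ℝ) / 4) ^ m * (4 * C₁) ^ m = C₁ ^ m := by
      rw [← mul_pow]
      congr 1
      ring
    linear_combination (-((P.image (c 0)).card : ℝ) * (D * Λ ^ K)) * h6
  exact le_of_mul_le_mul_right h5 hpos

end Pool.Agent.J4.H41.KL
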