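import Pool.Agent.J4.H41.KL.Cells

/-!
# The Carleson condition for the bad cells
-/

set_option autoImplicit false

namespace Pool.Agent.J4.H41.KL

open Set

variable {d : ℕ}

theorem cl_below {n m : ℕ} (y : Fin d → ℝ) (a : Fin d) :
    2 ^ m * cl n y a ≤ cl (n + m) y a ∧ cl (n + m) y a < 2 ^ m * (cl n y a + 1) := by
  have h1 := Int.floor_le ((2 : ℝ) ^ n * y a)
  have h2 := Int.lt_floor_add_one ((2 : ℝ) ^ n * y a)
  have hp : (0 : ℝ) < 2 ^ m := by positivity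
  have e : (2 : ℝ) ^ (n + m) * y a = 2 ^ m * (2 ^ n * y a) := by rw [pow_add]; ring
  constructor
  · show 2 ^ m * ⌊(2 : ℝ) ^ n * y a⌋ ≤ ⌊(2 : ℝ) ^ (n + m) * y a⌋
    rw [Int.le_floor, e]
    push_cast
    exact mul_le_mul_of_nonneg_left h1 hp.le
  · show ⌊(2 : ℝ) ^ (n + m) * y a⌋ < 2 ^ m * (⌊(2 : ℝ) ^ n * y a⌋ + 1)
    rw [Int.floor_lt, e]
    push_cast
    exact mul_lt_mul_of_pos_left h2 hp

theorem carleson (hLoc : LocPoints d) (L η : ℝ) (hL : 0 < L) (hη : 0 < η) (s m₀ : ℕ) (hs : 1 ≤ s)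
    (hm₀ : 1 ≤ m₀) : ∃ C₁ : ℝ, 1 ≤ C₁ ∧ ∀ (f : (Fin d → ℝ) → (Fin d → ℝ)),
      (∀ x y, ‖f x - f y‖ ≤ L * ‖x - y‖) → ∀ (z₀ : Fin d → ℤ) (k₀ K : ℕ), k₀ ≤ K →
      ∀ (S : ℕ → Finset (Fin d → ℤ)), (∀ k ∈ Finset.Ico k₀ K, ∀ z ∈ S k, Bad f η s (m₀ * k) z ∧
        ∀ a, 2 ^ (m₀ * (k - k₀)) * z₀ a ≤ z a ∧ z a < 2 ^ (m₀ * (k - k₀)) * (z₀ a + 1)) →
      ∑ k ∈ Finset.Ico k₀ K, ((S k).card : ℝ) * ((2 : ℝ) ^ (m₀ * d)) ^ (K - k) ≤
        C₁ * ((2 : ℝ) ^ (m₀ * d)) ^ (K - k₀) := by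
  classical
  obtain ⟨C, hC, hmain⟩ := hLoc L η hL hη
  refine ⟨max 1 ((2 : ℝ) ^ (s * d) * (d ^ 3 * C)), le_max_left _ _, ?_⟩
  intro f hf z₀ k₀ K hk S hS
  rcases isEmpty_or_nonempty (Fin d) with hE | hE
  · have h0 : ∑ k ∈ Finset.Ico k₀ K, ((S k).card : ℝ) * ((2 : ℝ) ^ (m₀ * d)) ^ (K - k) = 0 := by
      refine Finset.sum_eq_zero fun k hk => ?_
      have : S k = ∅ := by
        rw [Finset.eq_empty_iff_forall_notMem]
        intro z hz
        obtain ⟨-, -, c, -⟩ := (hS k hk z hz).1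
        exact hE.elim c
      rw [this]
      simp
    rw [h0]
    positivity
  -- the witnesses
  have hw : ∀ k z, k ∈ Finset.Ico k₀ K → z ∈ S k → ∃ (w : Fin d → ℤ) (τ : Fin d × Fin d × Fin d),
      (∀ a, 2 ^ s * z a ≤ w a ∧ w a < 2 ^ s * z a + 2 ^ s) ∧
      η * (1 / 2) ^ (m₀ * k + s) < |mix (fun x => f x τ.1) ((1 / 2) ^ (m₀ * k + s)) τ.2.1 τ.2.2
        (fun a => (1 / 2) ^ (m₀ * k + s) * (w a : ℝ))| := by
    intro k z hk hz
    obtain ⟨w, hw1, c, i, j, hw2⟩ := (hS k hk z hz).1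
    exact ⟨w, (c, i, j), hw1, hw2⟩
  choose! w τ hw1 hw2 using hw
  have hwinj : ∀ k ∈ Finset.Ico k₀ K, ∀ z ∈ S k, z = fun a => w k z a / 2 ^ s := by
    intro k hk z hz
    funext a
    obtain ⟨h1, h2⟩ := hw1 k z hk hz a
    have hp : (0 : ℤ) < 2 ^ s := by positivity
    symm
    rw [Int.ediv_eq_iff_of_pos hp]
    constructor <;> nlinarith
  set F : (Fin d × Fin d × Fin d) → ℕ → Finset (Fin d → ℤ) := fun t k =>
    ((S k).filter fun z => τ k z = t).image (w k) with hF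
  have hFcard : ∀ t, ∀ k ∈ Finset.Ico k₀ K, (F t k).card = ((S k).filter fun z => τ k z = t).card := by
    intro t k hk
    apply Finset.card_image_of_injOn
    intro z hz z' hz' hzz
    rw [Finset.mem_coe, Finset.mem_filter] at hz hz'
    rw [hwinj k hk z hz.1, hwinj k hk z' hz'.1, hzz]
  have hScard : ∀ k ∈ Finset.Ico k₀ K, (S k).card = ∑ t, (F t k).card := by
    intro k hk
    rw [Finset.sum_congr rfl (fun t _ => hFcard t k hk)]
    exact Finset.card_eq_sum_card_fiberwise (fun z _ => Finset.mem_coe.2 (Finset.mem_univ _))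
  -- one triple
  have hone : ∀ t, ∑ k ∈ Finset.Ico k₀ K, ((F t k).card : ℝ) * ((1 / 2 : ℝ) ^ (m₀ * (k - k₀) + s)) ^ d
      ≤ C := by
    intro t
    set e : ℕ → ℕ := fun k => m₀ * (k - k₀) + s with he
    set g : ℕ → ℕ := fun k' => (k' - s) / m₀ + k₀ with hg
    have hge : ∀ k ∈ Finset.Ico k₀ K, g (e k) = k := by
      intro k hk
      rw [Finset.mem_Ico] at hk
      show (m₀ * (k - k₀) + s - s) / m₀ + k₀ = k
      rw [Nat.add_sub_cancel, Nat.mul_div_cancel_left _ hm₀]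
      omega
    set Z : ℕ → Finset (Fin d → ℤ) := fun k' =>
      if g k' ∈ Finset.Ico k₀ K ∧ e (g k') = k' then F t (g k') else ∅ with hZ
    have hZe : ∀ k ∈ Finset.Ico k₀ K, Z (e k) = F t k := by
      intro k hk
      have h1 := hge k hk
      show (if g (e k) ∈ Finset.Ico k₀ K ∧ e (g (e k)) = e k then F t (g (e k)) else ∅) = F t k
      rw [h1, if_pos ⟨hk, rfl⟩]
    have hbd := hmain (fun x => f x t.1) (comp_lip hf t.1) t.2.1 t.2.2 (m₀ * K + s + 1) (m₀ * k₀) z₀ Z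
      (by
        intro k' _ v hv
        have hc : g k' ∈ Finset.Ico k₀ K ∧ e (g k') = k' := by
          by_contra hcon
          have : Z k' = ∅ := if_neg hcon
          rw [this] at hv
          exact absurd hv (Finset.notMem_empty _)
        have hZk : Z k' = F t (g k') := if_pos hc
        rw [hZk] at hv
        obtain ⟨hgk, hek⟩ := hc
        set k := g k' with hkdef
        obtain ⟨z, hz, rfl⟩ := Finset.mem_image.1 hv
        rw [Finset.mem_filter] at hz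
        obtain ⟨hzS, hzt⟩ := hz
        have hkk : k₀ ≤ k := (Finset.mem_Ico.1 hgk).1
        have hk'eq : k' = m₀ * (k - k₀) + s := hek.symm
        have hexp : m₀ * k₀ + k' = m₀ * k + s := by
          rw [hk'eq, ← add_assoc, ← Nat.mul_add]
          congr 2
          omega
        refine ⟨by omega, fun a => ?_, ?_⟩
        · obtain ⟨h1, h2⟩ := hw1 k z hgk hzS a
          obtain ⟨h3, h4⟩ := (hS k hgk z hzS).2 a
          have hp : (0 : ℤ) < 2 ^ s := by positivity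
          have e1 : (2 : ℤ) ^ k' = 2 ^ s * 2 ^ (m₀ * (k - k₀)) := by rw [hk'eq, pow_add]; ring
          constructor
          · calc 2 ^ k' * z₀ a = 2 ^ s * (2 ^ (m₀ * (k - k₀)) * z₀ a) := by rw [e1]; ring
              _ ≤ 2 ^ s * z a := mul_le_mul_of_nonneg_left h3 hp.le
              _ ≤ w k z a := h1
          · calc w k z a < 2 ^ s * z a + 2 ^ s := h2
              _ = 2 ^ s * (z a + 1) := by ring
              _ ≤ 2 ^ s * (2 ^ (m₀ * (k - k₀)) * (z₀ a + 1)) :=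
                  mul_le_mul_of_nonneg_left (by omega) hp.le
              _ = 2 ^ k' * (z₀ a + 1) := by rw [e1]; ring
        · have h5 := hw2 k z hgk hzS
          rw [hzt] at h5
          rw [hexp]
          exact h5)
    have hinj : Set.InjOn e (Finset.Ico k₀ K : Finset ℕ) := by
      intro k hk k' hk' hkk
      rw [← hge k (Finset.mem_coe.1 hk), ← hge k' (Finset.mem_coe.1 hk'), hkk]
    calc ∑ k ∈ Finset.Ico k₀ K, ((F t k).card : ℝ) * ((1 / 2 : ℝ) ^ (m₀ * (k - k₀) + s)) ^ d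
        = ∑ k ∈ Finset.Ico k₀ K, ((Z (e k)).card : ℝ) * ((1 / 2 : ℝ) ^ (e k)) ^ d :=
          Finset.sum_congr rfl fun k hk => by rw [hZe k hk]
      _ = ∑ k' ∈ (Finset.Ico k₀ K).image e, ((Z k').card : ℝ) * ((1 / 2 : ℝ) ^ k') ^ d := by
          rw [Finset.sum_image hinj]
      _ ≤ ∑ k' ∈ Finset.range (m₀ * K + s + 1), ((Z k').card : ℝ) * ((1 / 2 : ℝ) ^ k') ^ d := by
          refine Finset.sum_le_sum_of_subset_of_nonneg ?_ (fun _ _ _ => by positivity)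
          intro k' hk'
          obtain ⟨k, hk, rfl⟩ := Finset.mem_image.1 hk'
          rw [Finset.mem_Ico] at hk
          rw [Finset.mem_range]
          have : m₀ * (k - k₀) ≤ m₀ * K := Nat.mul_le_mul_left _ (by omega)
          show m₀ * (k - k₀) + s < _
          omega
      _ ≤ C := hbd
  have hΛ : ∀ k ∈ Finset.Ico k₀ K, ((2 : ℝ) ^ (m₀ * d)) ^ (K - k) =
      ((2 : ℝ) ^ (m₀ * d)) ^ (K - k₀) * (2 ^ (s * d) * ((1 / 2 : ℝ) ^ (m₀ * (k - k₀) + s)) ^ d) := by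
    intro k hk
    rw [Finset.mem_Ico] at hk
    have e1 : K - k₀ = (K - k) + (k - k₀) := by omega
    rw [e1, pow_add, mul_assoc]
    have e2 : ((2 : ℝ) ^ (m₀ * d)) ^ (k - k₀) * (2 ^ (s * d) * ((1 / 2 : ℝ) ^ (m₀ * (k - k₀) + s)) ^ d)
        = 1 := by
      rw [← pow_mul, ← pow_mul, ← mul_assoc, ← pow_add]
      have e3 : m₀ * d * (k - k₀) + s * d = (m₀ * (k - k₀) + s) * d := by ring
      rw [e3, ← mul_pow]
      norm_num
    rw [e2, mul_one]
  calc ∑ k ∈ Finset.Ico k₀ K, ((S k).card : ℝ) * ((2 : ℝ) ^ (m₀ * d)) ^ (K - k)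
      = ∑ k ∈ Finset.Ico k₀ K, ∑ t, (((2 : ℝ) ^ (m₀ * d)) ^ (K - k₀) * 2 ^ (s * d)) *
          (((F t k).card : ℝ) * ((1 / 2 : ℝ) ^ (m₀ * (k - k₀) + s)) ^ d) := by
        refine Finset.sum_congr rfl fun k hk => ?_
        rw [hΛ k hk, hScard k hk]
        push_cast
        rw [Finset.sum_mul]
        refine Finset.sum_congr rfl fun t _ => ?_
        ring
    _ = (((2 : ℝ) ^ (m₀ * d)) ^ (K - k₀) * 2 ^ (s * d)) * ∑ t : Fin d × Fin d × Fin d,
          ∑ k ∈ Finset.Ico k₀ K, ((F t k).card : ℝ) * ((1 / 2 : ℝ) ^ (m₀ * (k - k₀) + s)) ^ d := by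
        rw [Finset.sum_comm, Finset.mul_sum]
        refine Finset.sum_congr rfl fun t _ => ?_
        rw [Finset.mul_sum]
    _ ≤ (((2 : ℝ) ^ (m₀ * d)) ^ (K - k₀) * 2 ^ (s * d)) * ∑ _t : Fin d × Fin d × Fin d, C := by
        refine mul_le_mul_of_nonneg_left (Finset.sum_le_sum fun t _ => hone t) (by positivity)
    _ = (2 ^ (s * d) * (d ^ 3 * C)) * ((2 : ℝ) ^ (m₀ * d)) ^ (K - k₀) := by
        rw [Finset.sum_const, Finset.card_univ, nsmul_eq_mul]
        simp only [Fintype.card_prod, Fintype.card_fin]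
        push_cast
        ring
    _ ≤ _ := mul_le_mul_of_nonneg_right (le_max_right _ _) (by positivity)

end Pool.Agent.J4.H41.KL
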