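import Pool.Agent.J4.H41.KL.Defs

/-! # Piece LA of project KL: the adjugate bound and the sublevel set of `det (A - 2 t)` -/

set_option autoImplicit false

namespace Pool.Agent.J4.H41.KL

open MeasureTheory Set

theorem lower (d : ℕ) (B : Matrix (Fin d) (Fin d) ℝ) (X : ℝ) (hX : 1 ≤ X) (hB : ∀ i j, |B i j| ≤ X)
    (w : Fin d → ℝ) : |B.det| * ‖w‖ ≤ d * d.factorial * X ^ d * ‖B.mulVec w‖ := by
  have hX0 : 0 ≤ X := by linarith
  have hadj : ∀ i j, |B.adjugate i j| ≤ d.factorial * X ^ d := by
    intro i j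
    rw [Matrix.adjugate_apply]
    have h1 : ∀ a b, (AbsoluteValue.abs : AbsoluteValue ℝ ℝ)
        (B.updateRow j (Pi.single i 1) a b) ≤ X := by
      intro a b
      rw [AbsoluteValue.abs_apply]
      by_cases h : a = j
      · subst h
        rw [Matrix.updateRow_self]
        by_cases hb : b = i
        · subst hb
          simpa using hX
        · rw [Pi.single_eq_of_ne hb, abs_zero]
          exact hX0
      · rw [Matrix.updateRow_ne h]
        exact hB a b
    have h2 := Matrix.det_le h1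
    rw [AbsoluteValue.abs_apply, Fintype.card_fin, nsmul_eq_mul] at h2
    exact h2
  have hC : 0 ≤ (d.factorial : ℝ) * X ^ d := by positivity
  have h3 : |B.det| * ‖w‖ = ‖B.det • w‖ := by rw [norm_smul, Real.norm_eq_abs]
  rw [h3]
  have h4 : 0 ≤ (d : ℝ) * d.factorial * X ^ d * ‖B.mulVec w‖ := by positivity
  rw [pi_norm_le_iff_of_nonneg h4]
  intro i
  have h5 : B.det • w = B.adjugate.mulVec (B.mulVec w) := by
    rw [Matrix.mulVec_mulVec, Matrix.adjugate_mul, Matrix.smul_mulVec, Matrix.one_mulVec]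
  rw [h5, Real.norm_eq_abs]
  unfold Matrix.mulVec dotProduct
  refine (Finset.abs_sum_le_sum_abs _ _).trans ?_
  have h6 : ∀ j ∈ (Finset.univ : Finset (Fin d)), |B.adjugate i j * ∑ k, B j k * w k| ≤
      d.factorial * X ^ d * ‖B.mulVec w‖ := by
    intro j _
    rw [abs_mul]
    refine mul_le_mul (hadj i j) ?_ (abs_nonneg _) hC
    have := norm_le_pi_norm (B.mulVec w) j
    rw [Real.norm_eq_abs] at this
    exact this
  refine (Finset.sum_le_sum h6).trans ?_
  rw [Finset.sum_const, Finset.card_univ, Fintype.card_fin, nsmul_eq_mul]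
  unfold Matrix.mulVec dotProduct
  apply le_of_eq
  ring

theorem sublevel (d : ℕ) (A : Matrix (Fin d) (Fin d) ℝ) (δ : ℝ) (hδ : 0 < δ) :
    volume {t : ℝ | |(A - (2 * t) • (1 : Matrix (Fin d) (Fin d) ℝ)).det| < δ ^ d} ≤
      ENNReal.ofReal (2 * d * δ) := by
  classical
  set p : Polynomial ℂ := (A.map (algebraMap ℝ ℂ)).charpoly with hp
  have hmon : p.Monic := Matrix.charpoly_monic _
  have hsp : p.Splits := IsAlgClosed.splits p
  have hcard : Multiset.card p.roots = d := by
    have h1 : p.roots.card = p.natDegree := hsp.natDegree_eq_card_roots.symm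
    rw [h1, hp, Matrix.charpoly_natDegree_eq_dim, Fintype.card_fin]
  have hev : ∀ t : ℝ, |(A - (2 * t) • (1 : Matrix (Fin d) (Fin d) ℝ)).det| =
      (p.roots.map fun z => ‖((2 * t : ℝ) : ℂ) - z‖).prod := by
    intro t
    have h1 : p.eval ((2 * t : ℝ) : ℂ) =
        (algebraMap ℝ ℂ) (((2 * t) • (1 : Matrix (Fin d) (Fin d) ℝ) - A).det) := by
      rw [hp, Matrix.eval_charpoly, RingHom.map_det]
      congr 1
      ext i j
      simp only [Matrix.scalar_apply, Matrix.diagonal_apply, Matrix.one_apply, Matrix.sub_apply,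
        Matrix.map_apply, RingHom.mapMatrix_apply, Matrix.smul_apply]
      split_ifs <;> simp
    have h2 : p.eval ((2 * t : ℝ) : ℂ) = (p.roots.map fun z => ((2 * t : ℝ) : ℂ) - z).prod := by
      conv_lhs => rw [hsp.eq_prod_roots_of_monic hmon]
      rw [Polynomial.eval_multiset_prod, Multiset.map_map]
      congr 1
      refine Multiset.map_congr rfl fun z _ => ?_
      simp
    have h3 : |(A - (2 * t) • (1 : Matrix (Fin d) (Fin d) ℝ)).det| =
        |((2 * t) • (1 : Matrix (Fin d) (Fin d) ℝ) - A).det| := by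
      rw [← neg_sub, Matrix.det_neg, abs_mul, abs_pow, abs_neg, abs_one, one_pow, one_mul]
    have h4 : |((2 * t) • (1 : Matrix (Fin d) (Fin d) ℝ) - A).det| = ‖p.eval ((2 * t : ℝ) : ℂ)‖ := by
      rw [h1]
      simp
    rw [h3, h4, h2]
    have h5 := map_multiset_prod (normHom : ℂ →*₀ ℝ) (p.roots.map fun z => ((2 * t : ℝ) : ℂ) - z)
    rw [Multiset.map_map] at h5
    exact h5
  have hsub : {t : ℝ | |(A - (2 * t) • (1 : Matrix (Fin d) (Fin d) ℝ)).det| < δ ^ d} ⊆
      ⋃ z ∈ p.roots.toFinset, Metric.ball (z.re / 2) (δ / 2) := by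
    intro t ht
    simp only [mem_ofPred_eq] at ht
    rw [hev] at ht
    by_contra hcon
    have h1 : ∀ z ∈ p.roots, δ ≤ ‖((2 * t : ℝ) : ℂ) - z‖ := by
      intro z hz
      by_contra hlt
      push Not at hlt
      apply hcon
      simp only [mem_iUnion]
      refine ⟨z, Multiset.mem_toFinset.2 hz, ?_⟩
      rw [Metric.mem_ball, Real.dist_eq]
      have h2 : |(((2 * t : ℝ) : ℂ) - z).re| < δ := (Complex.abs_re_le_norm _).trans_lt hlt
      rw [Complex.sub_re, Complex.ofReal_re] at h2
      rw [abs_lt] at h2 ⊢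
      constructor <;> linarith [h2.1, h2.2]
    have h2 : δ ^ d ≤ (p.roots.map fun z => ‖((2 * t : ℝ) : ℂ) - z‖).prod := by
      have : (p.roots.map fun _ => δ).prod ≤ (p.roots.map fun z => ‖((2 * t : ℝ) : ℂ) - z‖).prod := by
        exact Multiset.prod_map_le_prod_map₀ _ _ (fun _ _ => hδ.le) h1
      rw [Multiset.map_const', Multiset.prod_replicate, hcard] at this
      exact this
    linarith
  refine (measure_mono hsub).trans ((measure_biUnion_finset_le _ _).trans ?_)
  have h1 : ∀ z ∈ p.roots.toFinset, volume (Metric.ball (z.re / 2) (δ / 2)) ≤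
      ENNReal.ofReal δ := by
    intro z _
    rw [Real.volume_ball]
    apply le_of_eq
    congr 1
    ring
  refine (Finset.sum_le_sum h1).trans ?_
  rw [Finset.sum_const, nsmul_eq_mul]
  have h2 : (p.roots.toFinset.card : ℝ) ≤ d := by
    have := Multiset.toFinset_card_le p.roots
    rw [hcard] at this
    exact_mod_cast this
  rw [← ENNReal.ofReal_natCast, ← ENNReal.ofReal_mul (by positivity)]
  apply ENNReal.ofReal_le_ofReal
  nlinarith

end Pool.Agent.J4.H41.KL
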