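import Pool.Agent.J4.H41.KL.Af
import Pool.Agent.J4.H41.KL.La

/-!
# Cells: good cells are affine, the Carleson condition for the bad cells, counting points
-/

set_option autoImplicit false

namespace Pool.Agent.J4.H41.KL

open Set

variable {d : ℕ}

/-- the dyadic cell of level `n` of a point -/
noncomputable def cl (n : ℕ) (x : Fin d → ℝ) : Fin d → ℤ := fun a => ⌊(2 : ℝ) ^ n * x a⌋

/-- the statement of piece LOC -/
def LocPoints (d : ℕ) : Prop := ∀ (L η : ℝ) (_ : 0 < L) (_ : 0 < η),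
    ∃ C : ℝ, 0 < C ∧ ∀ (g : (Fin d → ℝ) → ℝ), (∀ x y, |g x - g y| ≤ L * ‖x - y‖) →
    ∀ (i j : Fin d) (n k₀ : ℕ) (z₀ : Fin d → ℤ) (Z : ℕ → Finset (Fin d → ℤ)),
    (∀ k < n, ∀ z ∈ Z k, 1 ≤ k ∧ (∀ a, 2 ^ k * z₀ a ≤ z a ∧ z a < 2 ^ k * (z₀ a + 1)) ∧
      η * (1 / 2) ^ (k₀ + k) <
        |mix g ((1 / 2) ^ (k₀ + k)) i j (fun a => (1 / 2) ^ (k₀ + k) * (z a : ℝ))|) →
    ∑ k ∈ Finset.range n, ((Z k).card : ℝ) * ((1 / 2) ^ k) ^ d ≤ C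

/-- one of the second differences on the grid of step `2^(-n-s)` in the cell `z` of level `n` is large -/
def Bad (f : (Fin d → ℝ) → (Fin d → ℝ)) (η : ℝ) (s n : ℕ) (z : Fin d → ℤ) : Prop :=
  ∃ w : Fin d → ℤ, (∀ a, 2 ^ s * z a ≤ w a ∧ w a < 2 ^ s * z a + 2 ^ s) ∧ ∃ c i j : Fin d,
    η * (1 / 2) ^ (n + s) <
      |mix (fun x => f x c) ((1 / 2) ^ (n + s)) i j (fun a => (1 / 2) ^ (n + s) * (w a : ℝ))|

theorem comp_lip {f : (Fin d → ℝ) → (Fin d → ℝ)} {L : ℝ} (hf : ∀ x y, ‖f x - f y‖ ≤ L * ‖x - y‖)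
    (c : Fin d) (x y : Fin d → ℝ) : |f x c - f y c| ≤ L * ‖x - y‖ := by
  have := norm_le_pi_norm (f x - f y) c
  rw [Pi.sub_apply, Real.norm_eq_abs] at this
  exact this.trans (hf x y)

/-- good cells are nearly affine -/
theorem good_affine {f : (Fin d → ℝ) → (Fin d → ℝ)} {L η η' : ℝ} {s n : ℕ} (hL : 0 ≤ L)
    (hf : ∀ x y, ‖f x - f y‖ ≤ L * ‖x - y‖) (hη' : 0 ≤ η')
    (h : 2 * ((d : ℝ) ^ 2 * (2 ^ s) ^ 2 * η' + (1 + d) * L) * (1 / 2) ^ s ≤ η)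
    {z : Fin d → ℤ} (hz : ¬ Bad f η' s n z) :
    ∃ A : Matrix (Fin d) (Fin d) ℝ, (∀ i j, |A i j| ≤ L) ∧ ∀ x y, cl n x = z → cl n y = z →
      ‖f x - f y - A.mulVec (x - y)‖ ≤ η * (1 / 2) ^ n := by
  have hh : (0 : ℝ) < (1 / 2) ^ (n + s) := by positivity
  obtain ⟨A, hA, hxy⟩ := affine_of_mix d L η' ((1 / 2) ^ (n + s)) (2 ^ s) hL hη' hh
    (Nat.one_le_two_pow) f hf (fun a => 2 ^ s * z a) (by
      intro w hw c i j
      by_contra hcon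
      apply hz
      refine ⟨w, fun a => ?_, c, i, j, lt_of_not_ge hcon⟩
      have := hw a
      push_cast at this
      exact this)
  refine ⟨A, hA, ?_⟩
  have key : ∀ x : Fin d → ℝ, cl n x = z → ∀ a : Fin d,
      (1 / 2 : ℝ) ^ (n + s) * ((2 ^ s * z a : ℤ) : ℝ) ≤ x a ∧
      x a ≤ (1 / 2 : ℝ) ^ (n + s) * (((2 ^ s * z a : ℤ) : ℝ) + ((2 ^ s : ℕ) : ℝ)) := by
    intro x hx a
    have h0 : ⌊(2 : ℝ) ^ n * x a⌋ = z a := congrFun hx a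
    have h1 := Int.floor_le ((2 : ℝ) ^ n * x a)
    have h2 := Int.lt_floor_add_one ((2 : ℝ) ^ n * x a)
    rw [h0] at h1 h2
    have e0 : (1 / 2 : ℝ) ^ n * 2 ^ n = 1 := by
      rw [← mul_pow]; norm_num
    have e1 : (1 / 2 : ℝ) ^ s * 2 ^ s = 1 := by
      rw [← mul_pow]; norm_num
    have hp : (0 : ℝ) < (1 / 2) ^ n := by positivity
    have k1 : (1 / 2 : ℝ) ^ n * (z a : ℝ) ≤ x a := by
      have := mul_le_mul_of_nonneg_left h1 hp.le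
      calc (1 / 2 : ℝ) ^ n * (z a : ℝ) ≤ (1 / 2 : ℝ) ^ n * (2 ^ n * x a) := this
        _ = x a := by rw [← mul_assoc, e0, one_mul]
    have k2 : x a ≤ (1 / 2 : ℝ) ^ n * ((z a : ℝ) + 1) := by
      have := mul_le_mul_of_nonneg_left h2.le hp.le
      calc x a = (1 / 2 : ℝ) ^ n * (2 ^ n * x a) := by rw [← mul_assoc, e0, one_mul]
        _ ≤ _ := this
    push_cast
    rw [pow_add]
    constructor
    · calc (1 / 2 : ℝ) ^ n * (1 / 2) ^ s * (2 ^ s * (z a : ℝ))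
          = (1 / 2 : ℝ) ^ n * ((1 / 2) ^ s * 2 ^ s) * (z a : ℝ) := by ring
        _ ≤ x a := by rw [e1, mul_one]; exact k1
    · calc x a ≤ (1 / 2 : ℝ) ^ n * ((z a : ℝ) + 1) := k2
        _ = (1 / 2 : ℝ) ^ n * ((1 / 2) ^ s * 2 ^ s) * ((z a : ℝ) + 1) := by rw [e1, mul_one]
        _ = _ := by ring
  intro x y hx hy
  refine (hxy x y (key x hx) (key y hy)).trans ?_
  have hp : (0 : ℝ) ≤ (1 / 2) ^ n := by positivity
  calc 2 * ((d : ℝ) ^ 2 * ((2 ^ s : ℕ) : ℝ) ^ 2 * η' + (1 + d) * L) * (1 / 2) ^ (n + s)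
      = (2 * ((d : ℝ) ^ 2 * (2 ^ s) ^ 2 * η' + (1 + d) * L) * (1 / 2) ^ s) * (1 / 2) ^ n := by
        push_cast
        rw [pow_add]; ring
    _ ≤ η * (1 / 2) ^ n := mul_le_mul_of_nonneg_right h hp

/-- the number of the unit cells met by a set of small diameter -/
theorem card_floor {α : Type} [DecidableEq α] (P : Finset α) (φ : α → Fin d → ℝ) (R : ℝ) (hR : 0 ≤ R)
    (h : ∀ x ∈ P, ∀ y ∈ P, ∀ a, |φ x a - φ y a| ≤ R) :
    ((P.image fun x => (fun a => ⌊φ x a⌋ : Fin d → ℤ)).card : ℝ) ≤ (2 * R + 2) ^ d := by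
  classical
  rcases P.eq_empty_or_nonempty with rfl | ⟨x₀, hx₀⟩
  · simp only [Finset.image_empty, Finset.card_empty, Nat.cast_zero]
    positivity
  have hsub : (P.image fun x => (fun a => ⌊φ x a⌋ : Fin d → ℤ)) ⊆
      Fintype.piFinset fun a => Finset.Icc ⌊φ x₀ a - R⌋ ⌊φ x₀ a + R⌋ := by
    intro z hz
    obtain ⟨x, hx, rfl⟩ := Finset.mem_image.1 hz
    rw [Fintype.mem_piFinset]
    intro a
    rw [Finset.mem_Icc]
    have := abs_le.1 (h x hx x₀ hx₀ a)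
    exact ⟨Int.floor_le_floor (by linarith), Int.floor_le_floor (by linarith)⟩
  have h1 := Finset.card_le_card hsub
  rw [Fintype.card_piFinset] at h1
  have h2 : (((P.image fun x => (fun a => ⌊φ x a⌋ : Fin d → ℤ)).card : ℕ) : ℝ) ≤
      ∏ a : Fin d, (((Finset.Icc ⌊φ x₀ a - R⌋ ⌊φ x₀ a + R⌋).card : ℕ) : ℝ) := by
    exact_mod_cast h1
  refine h2.trans ?_
  have h3 : ∀ a : Fin d, (((Finset.Icc ⌊φ x₀ a - R⌋ ⌊φ x₀ a + R⌋).card : ℕ) : ℝ) ≤ 2 * R + 2 := by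
    intro a
    rw [Int.card_Icc]
    have k1 : ⌊φ x₀ a - R⌋ ≤ ⌊φ x₀ a + R⌋ := Int.floor_le_floor (by linarith)
    have k2 : (0 : ℤ) ≤ ⌊φ x₀ a + R⌋ + 1 - ⌊φ x₀ a - R⌋ := by omega
    have k3 : (((⌊φ x₀ a + R⌋ + 1 - ⌊φ x₀ a - R⌋).toNat : ℤ) : ℝ) =
        ((⌊φ x₀ a + R⌋ + 1 - ⌊φ x₀ a - R⌋ : ℤ) : ℝ) := by rw [Int.toNat_of_nonneg k2]
    have k4 := Int.floor_le (φ x₀ a + R)
    have k5 := Int.lt_floor_add_one (φ x₀ a - R)
    rw [Int.cast_natCast] at k3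
    rw [k3]
    push_cast
    linarith
  calc ∏ a : Fin d, (((Finset.Icc ⌊φ x₀ a - R⌋ ⌊φ x₀ a + R⌋).card : ℕ) : ℝ)
      ≤ ∏ _a : Fin d, (2 * R + 2) := Finset.prod_le_prod (fun _ _ => Nat.cast_nonneg _) (fun a _ => h3 a)
    _ = (2 * R + 2) ^ d := by rw [Finset.prod_const, Finset.card_univ, Fintype.card_fin]

/-- cells are nested -/
theorem cl_nested {n m : ℕ} {x y : Fin d → ℝ} (h : cl (n + m) x = cl (n + m) y) : cl n x = cl n y := by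
  have key : ∀ x : Fin d → ℝ, cl n x = fun a => (cl (n + m) x a) / 2 ^ m := by
    intro x
    funext a
    show ⌊(2 : ℝ) ^ n * x a⌋ = ⌊(2 : ℝ) ^ (n + m) * x a⌋ / 2 ^ m
    have e : (2 : ℝ) ^ n * x a = ((2 : ℝ) ^ (n + m) * x a) / ((2 ^ m : ℕ) : ℝ) := by
      push_cast
      rw [pow_add]
      field_simp
    rw [e, Int.floor_div_natCast]
    push_cast
    rfl
  rw [key x, key y, h]

theorem cl_close {n : ℕ} {x y : Fin d → ℝ} (h : cl n x = cl n y) (a : Fin d) :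
    |x a - y a| ≤ (1 / 2) ^ n := by
  have h0 : ⌊(2 : ℝ) ^ n * x a⌋ = ⌊(2 : ℝ) ^ n * y a⌋ := congrFun h a
  have h1 := Int.abs_sub_lt_one_of_floor_eq_floor h0
  rw [← mul_sub, abs_mul, abs_of_pos (by positivity : (0 : ℝ) < 2 ^ n)] at h1
  have e0 : (1 / 2 : ℝ) ^ n * 2 ^ n = 1 := by
    rw [← mul_pow]; norm_num
  have hp : (0 : ℝ) < (1 / 2) ^ n := by positivity
  calc |x a - y a| = (1 / 2 : ℝ) ^ n * (2 ^ n * |x a - y a|) := by rw [← mul_assoc, e0, one_mul]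
    _ ≤ (1 / 2 : ℝ) ^ n * 1 := mul_le_mul_of_nonneg_left h1.le hp.le
    _ = _ := mul_one _

end Pool.Agent.J4.H41.KL
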