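import Mathlib

/-!
# Partially Lipschitz Kakeya families: mixed second differences
-/

set_option autoImplicit false

namespace Pool.Agent.J4.H41.KL

/-- the mixed second difference of `g` at `x` with the step `h` in the coordinate directions `i`, `j` -/
noncomputable def mix {d : ℕ} (g : (Fin d → ℝ) → ℝ) (h : ℝ) (i j : Fin d) (x : Fin d → ℝ) : ℝ :=
  g (x + h • Pi.single i 1 + h • Pi.single j 1) - g (x + h • Pi.single i 1)
    - g (x + h • Pi.single j 1) + g x

end Pool.Agent.J4.H41.KL
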