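import Pool.Agent.J4.H41.KL.Defs

/-!
# Energy of the second differences
-/

set_option autoImplicit false

namespace Pool.Agent.J4.H41.KL

open MeasureTheory Set

namespace En

variable {d : ℕ}

/-- continuous functions with compact support -/
structure Nice (f : (Fin d → ℝ) → ℝ) : Prop where
  cont : Continuous f
  comp : HasCompactSupport f

theorem Nice.shift {f : (Fin d → ℝ) → ℝ} (hf : Nice f) (w : Fin d → ℝ) :
    Nice (fun x => f (x + w)) := by
  refine ⟨hf.cont.comp (continuous_id.add continuous_const), ?_⟩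
  exact hf.comp.comp_homeomorph (Homeomorph.addRight w)

theorem Nice.sub {f g : (Fin d → ℝ) → ℝ} (hf : Nice f) (hg : Nice g) :
    Nice (fun x => f x - g x) :=
  ⟨hf.cont.sub hg.cont, hf.comp.sub hg.comp⟩

theorem Nice.add {f g : (Fin d → ℝ) → ℝ} (hf : Nice f) (hg : Nice g) :
    Nice (fun x => f x + g x) :=
  ⟨hf.cont.add hg.cont, hf.comp.add hg.comp⟩

theorem Nice.sq {f : (Fin d → ℝ) → ℝ} (hf : Nice f) : Integrable (fun x => (f x) ^ 2) := by
  refine Continuous.integrable_of_hasCompactSupport (hf.cont.pow 2) ?_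
  exact hf.comp.comp_left (g := fun y : ℝ => y ^ 2) (by norm_num)

/-- the first difference -/
def D (g : (Fin d → ℝ) → ℝ) (w x : Fin d → ℝ) : ℝ := g (x + w) - g x

/-- the second difference -/
def S (g : (Fin d → ℝ) → ℝ) (w x : Fin d → ℝ) : ℝ := D g w (x + w) - D g w x

theorem Nice.D {g : (Fin d → ℝ) → ℝ} (hg : Nice g) (w : Fin d → ℝ) : Nice (D g w) :=
  (hg.shift w).sub hg

theorem Nice.S {g : (Fin d → ℝ) → ℝ} (hg : Nice g) (w : Fin d → ℝ) : Nice (S g w) :=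
  ((hg.D w).shift w).sub (hg.D w)

theorem par {g : (Fin d → ℝ) → ℝ} (hg : Nice g) (w : Fin d → ℝ) :
    ∫ x, (S g w x) ^ 2 = 4 * (∫ x, (D g w x) ^ 2) - ∫ x, (D g ((2 : ℝ) • w) x) ^ 2 := by
  have h1 : ∀ x, (S g w x) ^ 2 + (D g ((2 : ℝ) • w) x) ^ 2 =
      2 * (D g w x) ^ 2 + 2 * (D g w (x + w)) ^ 2 := by
    intro x
    have h2 : x + (2 : ℝ) • w = x + w + w := by rw [two_smul, add_assoc]
    unfold S D
    rw [h2]
    ring
  have h3 : ∫ x, (D g w (x + w)) ^ 2 = ∫ x, (D g w x) ^ 2 :=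
    integral_add_right_eq_self (fun x => (D g w x) ^ 2) w
  have h4 : (∫ x, (S g w x) ^ 2) + ∫ x, (D g ((2 : ℝ) • w) x) ^ 2 =
      2 * (∫ x, (D g w x) ^ 2) + 2 * ∫ x, (D g w (x + w)) ^ 2 := by
    rw [← integral_add (hg.S w).sq (hg.D _).sq, ← integral_const_mul, ← integral_const_mul,
      ← integral_add ((hg.D w).sq.const_mul 2) (((hg.D w).shift w).sq.const_mul 2)]
    exact integral_congr_ae (Filter.Eventually.of_forall h1)
  rw [h3] at h4
  linarith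

theorem first {g : (Fin d → ℝ) → ℝ} (hg : Nice g) {L : ℝ}
    (hlip : ∀ x y, |g x - g y| ≤ L * ‖x - y‖) (h0 : ∀ x, 3 ≤ ‖x‖ → g x = 0) (w : Fin d → ℝ)
    (hw : ‖w‖ ≤ 2) : ∫ x, (D g w x) ^ 2 ≤
      volume.real (Metric.closedBall (0 : Fin d → ℝ) 5) * (L * ‖w‖) ^ 2 := by
  have h1 : ∫ x, (D g w x) ^ 2 ≤
      ∫ x, (Metric.closedBall (0 : Fin d → ℝ) 5).indicator (fun _ => (L * ‖w‖) ^ 2) x := by
    refine integral_mono (hg.D w).sq ?_ fun x => ?_
    · refine (integrable_indicator_iff measurableSet_closedBall).2 ?_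
      refine integrableOn_const ?_
      exact (isCompact_closedBall (0 : Fin d → ℝ) 5).measure_lt_top.ne
    · by_cases hx : x ∈ Metric.closedBall (0 : Fin d → ℝ) 5
      · rw [Set.indicator_of_mem hx]
        have h2 := hlip (x + w) x
        rw [add_sub_cancel_left] at h2
        unfold D
        rw [← sq_abs]
        exact pow_le_pow_left₀ (abs_nonneg _) h2 2
      · rw [Set.indicator_of_notMem hx]
        rw [Metric.mem_closedBall, dist_zero_right, not_le] at hx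
        have h2 : 3 ≤ ‖x + w‖ := by
          have h3 : ‖x‖ ≤ ‖x + w‖ + ‖w‖ := by
            have h4 := norm_sub_le (x + w) w
            rwa [add_sub_cancel_right] at h4
          linarith
        unfold D
        rw [h0 _ h2, h0 x (by linarith)]
        norm_num
  rw [integral_indicator_const _ measurableSet_closedBall] at h1
  exact h1

theorem second {g : (Fin d → ℝ) → ℝ} (hg : Nice g) {L : ℝ} (hL : 0 ≤ L)
    (hlip : ∀ x y, |g x - g y| ≤ L * ‖x - y‖) (h0 : ∀ x, 3 ≤ ‖x‖ → g x = 0) (v : Fin d → ℝ)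
    (hv : ‖v‖ ≤ 1) (n : ℕ) :
    ∑ k ∈ Finset.range n, (4 : ℝ) ^ k * ∫ x, (S g (((1 / 2 : ℝ) ^ k) • v) x) ^ 2 ≤
      4 * volume.real (Metric.closedBall (0 : Fin d → ℝ) 5) * L ^ 2 := by
  have h1 : ∀ n : ℕ, ∑ k ∈ Finset.range n, (4 : ℝ) ^ k * ∫ x, (S g (((1 / 2 : ℝ) ^ k) • v) x) ^ 2 =
      4 ^ n * (∫ x, (D g (((1 / 2 : ℝ) ^ n) • (2 : ℝ) • v) x) ^ 2) -
        ∫ x, (D g ((2 : ℝ) • v) x) ^ 2 := by
    intro n
    induction n with
    | zero => rw [Finset.sum_range_zero, pow_zero, pow_zero, one_smul, one_mul, sub_self]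
    | succ n ih =>
      rw [Finset.sum_range_succ, ih, par hg]
      have h2 : ((1 / 2 : ℝ) ^ (n + 1)) • (2 : ℝ) • v = ((1 / 2 : ℝ) ^ n) • v := by
        rw [smul_smul]
        congr 1
        rw [pow_succ]
        ring
      have h3 : (2 : ℝ) • ((1 / 2 : ℝ) ^ n) • v = ((1 / 2 : ℝ) ^ n) • (2 : ℝ) • v :=
        smul_comm _ _ _
      rw [h2, h3, pow_succ]
      ring
  rw [h1]
  have h4 : 0 ≤ ∫ x, (D g ((2 : ℝ) • v) x) ^ 2 := integral_nonneg fun x => sq_nonneg _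
  have hn : ‖((1 / 2 : ℝ) ^ n) • (2 : ℝ) • v‖ ≤ (1 / 2 : ℝ) ^ n * 2 := by
    rw [norm_smul, norm_smul, Real.norm_of_nonneg (by positivity), Real.norm_of_nonneg (by norm_num)]
    have h5 : (0 : ℝ) ≤ (1 / 2 : ℝ) ^ n := by positivity
    nlinarith
  have hle : (1 / 2 : ℝ) ^ n ≤ 1 := pow_le_one₀ (by norm_num) (by norm_num)
  have h5 := first hg hlip h0 (((1 / 2 : ℝ) ^ n) • (2 : ℝ) • v) (by linarith)
  have h6 : (L * ‖((1 / 2 : ℝ) ^ n) • (2 : ℝ) • v‖) ^ 2 ≤ (L * ((1 / 2 : ℝ) ^ n * 2)) ^ 2 :=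
    pow_le_pow_left₀ (mul_nonneg hL (norm_nonneg _)) (mul_le_mul_of_nonneg_left hn hL) 2
  have hV : 0 ≤ volume.real (Metric.closedBall (0 : Fin d → ℝ) 5) := measureReal_nonneg
  have h7 : (4 : ℝ) ^ n * ∫ x, (D g (((1 / 2 : ℝ) ^ n) • (2 : ℝ) • v) x) ^ 2 ≤
      4 ^ n * (volume.real (Metric.closedBall (0 : Fin d → ℝ) 5) *
        (L * ((1 / 2 : ℝ) ^ n * 2)) ^ 2) := by
    refine mul_le_mul_of_nonneg_left (h5.trans ?_) (by positivity)
    exact mul_le_mul_of_nonneg_left h6 hV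
  have h8 : (4 : ℝ) ^ n * (volume.real (Metric.closedBall (0 : Fin d → ℝ) 5) *
        (L * ((1 / 2 : ℝ) ^ n * 2)) ^ 2) =
      4 * volume.real (Metric.closedBall (0 : Fin d → ℝ) 5) * L ^ 2 := by
    have h9 : (4 : ℝ) ^ n * ((1 / 2 : ℝ) ^ n) ^ 2 = 1 := by
      rw [← pow_mul, mul_comm n 2, pow_mul, ← mul_pow]
      norm_num
    calc (4 : ℝ) ^ n * (volume.real (Metric.closedBall (0 : Fin d → ℝ) 5) *
          (L * ((1 / 2 : ℝ) ^ n * 2)) ^ 2) = ((4 : ℝ) ^ n * ((1 / 2 : ℝ) ^ n) ^ 2) *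
            (4 * volume.real (Metric.closedBall (0 : Fin d → ℝ) 5) * L ^ 2) := by ring
      _ = _ := by rw [h9, one_mul]
  linarith

theorem mix_eq (g : (Fin d → ℝ) → ℝ) (h : ℝ) (i j : Fin d) (x : Fin d → ℝ) :
    mix g h i j x = S g (h • ((1 / 2 : ℝ) • (Pi.single i 1 + Pi.single j 1))) x -
      S g (h • ((1 / 2 : ℝ) • (Pi.single i 1 - Pi.single j 1))) (x + h • Pi.single j 1) := by
  unfold S D mix
  set e : Fin d → ℝ := Pi.single i 1 with he
  set f : Fin d → ℝ := Pi.single j 1 with hf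
  have h1 : x + h • ((1 / 2 : ℝ) • (e + f)) + h • ((1 / 2 : ℝ) • (e + f)) = x + h • e + h • f := by
    module
  have h2 : x + h • f + h • ((1 / 2 : ℝ) • (e - f)) + h • ((1 / 2 : ℝ) • (e - f)) = x + h • e := by
    module
  have h3 : x + h • f + h • ((1 / 2 : ℝ) • (e - f)) = x + h • ((1 / 2 : ℝ) • (e + f)) := by
    module
  rw [h1, h2, h3]
  ring

end En

open En in
/-- Energy of the second differences. -/
theorem energy (d : ℕ) : ∃ C : ℝ, 0 < C ∧ ∀ (g : (Fin d → ℝ) → ℝ) (L : ℝ), 0 ≤ L →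
    (∀ x y, |g x - g y| ≤ L * ‖x - y‖) → (∀ x, 3 ≤ ‖x‖ → g x = 0) → ∀ (i j : Fin d) (n : ℕ),
    ∑ k ∈ Finset.range n, (4 : ℝ) ^ k * ∫ x, (mix g ((1 / 2) ^ k) i j x) ^ 2 ≤ C * L ^ 2 := by
  have hV : 0 ≤ volume.real (Metric.closedBall (0 : Fin d → ℝ) 5) := measureReal_nonneg
  refine ⟨16 * volume.real (Metric.closedBall (0 : Fin d → ℝ) 5) + 1, by positivity,
    fun g L hL hlip h0 i j n => ?_⟩
  have hcont : Continuous g := by
    refine (LipschitzWith.of_dist_le_mul (K := L.toNNReal) fun x y => ?_).continuous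
    rw [Real.dist_eq, dist_eq_norm, Real.coe_toNNReal _ hL]
    exact hlip x y
  have hg : Nice g := by
    refine ⟨hcont, HasCompactSupport.intro (isCompact_closedBall (0 : Fin d → ℝ) 3) fun x hx => ?_⟩
    rw [Metric.mem_closedBall, dist_zero_right, not_le] at hx
    exact h0 x hx.le
  have hs : ∀ i : Fin d, ‖(Pi.single i 1 : Fin d → ℝ)‖ ≤ 1 := by
    intro i
    rw [pi_norm_le_iff_of_nonneg zero_le_one]
    intro a
    by_cases ha : a = i
    · subst ha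
      simp
    · rw [Pi.single_eq_of_ne ha]
      simp
  have ha : ‖(1 / 2 : ℝ) • ((Pi.single i 1 : Fin d → ℝ) + Pi.single j 1)‖ ≤ 1 := by
    rw [norm_smul, Real.norm_of_nonneg (by norm_num)]
    have h1 := norm_add_le (Pi.single i 1 : Fin d → ℝ) (Pi.single j 1)
    have h2 := hs i
    have h3 := hs j
    linarith
  have hb : ‖(1 / 2 : ℝ) • ((Pi.single i 1 : Fin d → ℝ) - Pi.single j 1)‖ ≤ 1 := by
    rw [norm_smul, Real.norm_of_nonneg (by norm_num)]
    have h1 := norm_sub_le (Pi.single i 1 : Fin d → ℝ) (Pi.single j 1)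
    have h2 := hs i
    have h3 := hs j
    linarith
  have h1 := second hg hL hlip h0 _ ha n
  have h2 := second hg hL hlip h0 _ hb n
  have h3 : ∀ k, ∫ x, (mix g ((1 / 2) ^ k) i j x) ^ 2 ≤
      2 * (∫ x, (S g (((1 / 2 : ℝ) ^ k) • ((1 / 2 : ℝ) • (Pi.single i 1 + Pi.single j 1))) x) ^ 2) +
      2 * ∫ x, (S g (((1 / 2 : ℝ) ^ k) • ((1 / 2 : ℝ) • (Pi.single i 1 - Pi.single j 1))) x) ^ 2 := by
    intro k
    set a : Fin d → ℝ := ((1 / 2 : ℝ) ^ k) • ((1 / 2 : ℝ) • (Pi.single i 1 + Pi.single j 1))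
    set b : Fin d → ℝ := ((1 / 2 : ℝ) ^ k) • ((1 / 2 : ℝ) • (Pi.single i 1 - Pi.single j 1))
    set c : Fin d → ℝ := ((1 / 2 : ℝ) ^ k) • Pi.single j 1
    have h4 : ∫ x, (S g b (x + c)) ^ 2 = ∫ x, (S g b x) ^ 2 :=
      integral_add_right_eq_self (fun x => (S g b x) ^ 2) c
    rw [← h4, ← integral_const_mul, ← integral_const_mul,
      ← integral_add ((hg.S a).sq.const_mul 2) (((hg.S b).shift c).sq.const_mul 2)]
    have h5 : ∀ x, mix g ((1 / 2) ^ k) i j x = S g a x - S g b (x + c) := fun x =>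
      mix_eq g ((1 / 2) ^ k) i j x
    refine integral_mono ?_ ?_ fun x => ?_
    · have h6 : (fun x => (mix g ((1 / 2) ^ k) i j x) ^ 2) =
          fun x => (S g a x - S g b (x + c)) ^ 2 := funext fun x => by rw [h5]
      rw [h6]
      exact ((hg.S a).sub ((hg.S b).shift c)).sq
    · exact ((hg.S a).sq.const_mul 2).add (((hg.S b).shift c).sq.const_mul 2)
    · change (mix g ((1 / 2) ^ k) i j x) ^ 2 ≤ 2 * (S g a x) ^ 2 + 2 * (S g b (x + c)) ^ 2
      rw [h5]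
      nlinarith [sq_nonneg (S g a x + S g b (x + c))]
  have h4 : ∑ k ∈ Finset.range n, (4 : ℝ) ^ k * ∫ x, (mix g ((1 / 2) ^ k) i j x) ^ 2 ≤
      2 * (∑ k ∈ Finset.range n, (4 : ℝ) ^ k * ∫ x, (S g (((1 / 2 : ℝ) ^ k) •
        ((1 / 2 : ℝ) • (Pi.single i 1 + Pi.single j 1))) x) ^ 2) +
      2 * ∑ k ∈ Finset.range n, (4 : ℝ) ^ k * ∫ x, (S g (((1 / 2 : ℝ) ^ k) •
        ((1 / 2 : ℝ) • (Pi.single i 1 - Pi.single j 1))) x) ^ 2 := by
    rw [Finset.mul_sum, Finset.mul_sum, ← Finset.sum_add_distrib]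
    refine Finset.sum_le_sum fun k _ => ?_
    have h5 : (0 : ℝ) < 4 ^ k := by positivity
    have h6 := mul_le_mul_of_nonneg_left (h3 k) h5.le
    linarith
  have h5 : (0 : ℝ) ≤ L ^ 2 := sq_nonneg L
  linarith

end Pool.Agent.J4.H41.KL
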