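import Pool.Agent.J4.H41.KL.La

/-!
# Most heights are good
-/

set_option autoImplicit false

namespace Pool.Agent.J4.H41.KL

open MeasureTheory Set

variable {d : ℕ}

/-- the bad heights of a matrix -/
def badH (A : Matrix (Fin d) (Fin d) ℝ) (δ N s₀ : ℝ) : Set ℝ :=
  {t | |(A - (2 * ((t - s₀) / N ^ 2)) • (1 : Matrix (Fin d) (Fin d) ℝ)).det| < δ ^ d}

theorem badH_open (A : Matrix (Fin d) (Fin d) ℝ) (δ N s₀ : ℝ) : IsOpen (badH A δ N s₀) := by
  unfold badH
  refine isOpen_lt ?_ continuous_const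
  refine Continuous.abs (Continuous.matrix_det ?_)
  fun_prop

theorem badH_vol (A : Matrix (Fin d) (Fin d) ℝ) {δ N : ℝ} (hδ : 0 < δ) (hN : 0 < N) (s₀ : ℝ) :
    volume (badH A δ N s₀) ≤ ENNReal.ofReal (N ^ 2 * (2 * d * δ)) := by
  set S : Set ℝ := {τ | |(A - (2 * τ) • (1 : Matrix (Fin d) (Fin d) ℝ)).det| < δ ^ d} with hS
  have h := sublevel d A δ hδ
  have e : badH A δ N s₀ = (fun t => t + -s₀) ⁻¹' ((fun x => (N ^ 2)⁻¹ * x) ⁻¹' S) := by
    ext t
    simp only [badH, hS, mem_setOf_eq, mem_preimage]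
    have : (N ^ 2)⁻¹ * (t + -s₀) = (t - s₀) / N ^ 2 := by
      rw [← sub_eq_add_neg, div_eq_inv_mul]
    rw [this]
  have hN2 : (N ^ 2)⁻¹ ≠ 0 := by positivity
  rw [e, measure_preimage_add_right, Real.volume_preimage_mul_left hN2, inv_inv,
    abs_of_pos (by positivity : (0 : ℝ) < N ^ 2), ENNReal.ofReal_mul (by positivity)]
  gcongr

open Classical in
/-- the good heights -/
def goodH (A : ℕ → Matrix (Fin d) (Fin d) ℝ) (δ N s₀ s : ℝ) (K m : ℕ) : Set ℝ :=
  {t | |t - s| ≤ N ^ 2 / 10 ∧ ((Finset.range K).filter fun k => t ∈ badH (A k) δ N s₀).card ≤ m}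

theorem goodH_meas (A : ℕ → Matrix (Fin d) (Fin d) ℝ) (δ N s₀ s : ℝ) (K m : ℕ) :
    MeasurableSet (goodH A δ N s₀ s K m) := by
  classical
  have h1 : MeasurableSet {t : ℝ | |t - s| ≤ N ^ 2 / 10} :=
    (isClosed_le (by fun_prop) continuous_const).measurableSet
  have h2 : Measurable (fun t : ℝ => ∑ k ∈ Finset.range K, if t ∈ badH (A k) δ N s₀ then (1 : ℕ) else 0) := by
    refine Finset.measurable_sum _ fun k _ => ?_
    exact Measurable.ite (badH_open _ _ _ _).measurableSet measurable_const measurable_const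
  have h3 : goodH A δ N s₀ s K m = {t : ℝ | |t - s| ≤ N ^ 2 / 10} ∩
      (fun t : ℝ => ∑ k ∈ Finset.range K, if t ∈ badH (A k) δ N s₀ then (1 : ℕ) else 0) ⁻¹' (Iic m) := by
    ext t
    simp only [goodH, mem_setOf_eq, mem_inter_iff, mem_preimage, mem_Iic, Finset.card_filter]
  rw [h3]
  exact h1.inter (h2 measurableSet_Iic)

theorem goodH_vol (A : ℕ → Matrix (Fin d) (Fin d) ℝ) {δ N : ℝ} (hδ : 0 < δ) (hN : 1 ≤ N) (s₀ s : ℝ)
    {K m : ℕ} (hm : 20 * d * δ * K ≤ m + 1) :
    ENNReal.ofReal (N ^ 2 / 10) ≤ volume (goodH A δ N s₀ s K m) := by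
  classical
  have hN0 : 0 < N := by linarith
  set T : Set ℝ := Icc (s - N ^ 2 / 10) (s + N ^ 2 / 10) with hT
  set G := goodH A δ N s₀ s K m with hG
  have hGm : MeasurableSet G := goodH_meas _ _ _ _ _ _ _
  have hTm : MeasurableSet T := measurableSet_Icc
  have hTv : volume T = ENNReal.ofReal (N ^ 2 / 5) := by
    rw [hT, Real.volume_Icc]; congr 1; ring
  have hE : ((m + 1 : ℕ) : ENNReal) * volume (T \ G) ≤ ENNReal.ofReal (K * (N ^ 2 * (2 * d * δ))) := by
    have h1 : ∀ t ∈ T \ G, ((m + 1 : ℕ) : ENNReal) ≤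
        ∑ k ∈ Finset.range K, (badH (A k) δ N s₀).indicator (fun _ => (1 : ENNReal)) t := by
      intro t ht
      have h2 : ∑ k ∈ Finset.range K, (badH (A k) δ N s₀).indicator (fun _ => (1 : ENNReal)) t =
          (((Finset.range K).filter fun k => t ∈ badH (A k) δ N s₀).card : ENNReal) := by
        rw [Finset.card_filter]
        push_cast
        refine Finset.sum_congr rfl fun k _ => ?_
        rw [indicator_apply]
      rw [h2]
      have h3 : ¬ ((Finset.range K).filter fun k => t ∈ badH (A k) δ N s₀).card ≤ m := by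
        intro h4
        apply ht.2
        refine ⟨?_, h4⟩
        have := ht.1
        rw [hT, mem_Icc] at this
        rw [abs_le]
        constructor <;> linarith [this.1, this.2]
      exact_mod_cast (by omega : m + 1 ≤ ((Finset.range K).filter fun k => t ∈ badH (A k) δ N s₀).card)
    calc ((m + 1 : ℕ) : ENNReal) * volume (T \ G) = ∫⁻ _ in T \ G, ((m + 1 : ℕ) : ENNReal) := by
          rw [setLIntegral_const]
      _ ≤ ∫⁻ t in T \ G, ∑ k ∈ Finset.range K, (badH (A k) δ N s₀).indicator (fun _ => (1 : ENNReal)) t :=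
          setLIntegral_mono' (hTm.diff hGm) h1
      _ ≤ ∫⁻ t, ∑ k ∈ Finset.range K, (badH (A k) δ N s₀).indicator (fun _ => (1 : ENNReal)) t :=
          setLIntegral_le_lintegral _ _
      _ = ∑ k ∈ Finset.range K, volume (badH (A k) δ N s₀) := by
          rw [lintegral_finset_sum _ (fun k _ =>
            measurable_const.indicator (badH_open _ _ _ _).measurableSet)]
          refine Finset.sum_congr rfl fun k _ => ?_
          rw [lintegral_indicator (badH_open _ _ _ _).measurableSet, setLIntegral_one]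
      _ ≤ ∑ _k ∈ Finset.range K, ENNReal.ofReal (N ^ 2 * (2 * d * δ)) :=
          Finset.sum_le_sum fun k _ => badH_vol (A k) hδ hN0 s₀
      _ = ENNReal.ofReal (K * (N ^ 2 * (2 * d * δ))) := by
          rw [Finset.sum_const, Finset.card_range, nsmul_eq_mul,
            ENNReal.ofReal_mul (Nat.cast_nonneg _), ENNReal.ofReal_natCast]
  have hE2 : volume (T \ G) ≤ ENNReal.ofReal (N ^ 2 / 10) := by
    have h1 : ENNReal.ofReal (K * (N ^ 2 * (2 * d * δ))) ≤
        ((m + 1 : ℕ) : ENNReal) * ENNReal.ofReal (N ^ 2 / 10) := by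
      rw [← ENNReal.ofReal_natCast, ← ENNReal.ofReal_mul (Nat.cast_nonneg _)]
      apply ENNReal.ofReal_le_ofReal
      push_cast
      have : 20 * d * δ * K * (N ^ 2 / 10) ≤ ((m : ℝ) + 1) * (N ^ 2 / 10) :=
        mul_le_mul_of_nonneg_right hm (by positivity)
      nlinarith
    have h2 := hE.trans h1
    rwa [ENNReal.mul_le_mul_iff_right (by positivity) (ENNReal.natCast_ne_top _)] at h2
  have hsum : ENNReal.ofReal (N ^ 2 / 5) ≤ volume G + volume (T \ G) := by
    rw [← hTv]
    refine (measure_mono ?_).trans (measure_union_le _ _)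
    intro t ht
    by_cases h : t ∈ G
    · exact Or.inl h
    · exact Or.inr ⟨ht, h⟩
  have h5 : ENNReal.ofReal (N ^ 2 / 5) = ENNReal.ofReal (N ^ 2 / 10) + ENNReal.ofReal (N ^ 2 / 10) := by
    rw [← ENNReal.ofReal_add (by positivity) (by positivity)]; congr 1; ring
  rw [h5] at hsum
  have h6 : ENNReal.ofReal (N ^ 2 / 10) + ENNReal.ofReal (N ^ 2 / 10) ≤
      volume G + ENNReal.ofReal (N ^ 2 / 10) := hsum.trans (by gcongr)
  exact (ENNReal.add_le_add_iff_right ENNReal.ofReal_ne_top).1 h6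

end Pool.Agent.J4.H41.KL
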