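import Pool.Agent.J4.H41.KL.Defs

/-!
# Localised (Carleson) form of the bad point count
-/

set_option autoImplicit false

namespace Pool.Agent.J4.H41.KL

open MeasureTheory Set

/-- the statement of piece BP (`bad_points`) -/
def BadPoints (d : ℕ) : Prop := ∀ (L η : ℝ) (_ : 0 < L) (_ : 0 < η),
    ∃ C : ℝ, 0 < C ∧ ∀ (g : (Fin d → ℝ) → ℝ), (∀ x y, |g x - g y| ≤ L * ‖x - y‖) →
    (∀ x, 3 ≤ ‖x‖ → g x = 0) → ∀ (i j : Fin d) (n : ℕ) (Z : ℕ → Finset (Fin d → ℤ)),
    (∀ k < n, ∀ z ∈ Z k,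
      η * (1 / 2) ^ k < |mix g ((1 / 2) ^ k) i j (fun a => (1 / 2) ^ k * (z a : ℝ))|) →
    ∑ k ∈ Finset.range n, ((Z k).card : ℝ) * ((1 / 2) ^ k) ^ d ≤ C

namespace Loc

variable {d : ℕ}

/-- the cut-off -/
noncomputable def chi (x : Fin d → ℝ) : ℝ := max 0 (min 1 (3 - ‖x‖))

lemma chi_nonneg (x : Fin d → ℝ) : 0 ≤ chi x := le_max_left _ _

lemma chi_le_one (x : Fin d → ℝ) : chi x ≤ 1 := max_le zero_le_one (min_le_left _ _)

lemma chi_zero {x : Fin d → ℝ} (hx : 3 ≤ ‖x‖) : chi x = 0 := by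
  unfold chi
  exact max_eq_left (le_trans (min_le_right _ _) (by linarith))

lemma chi_one {x : Fin d → ℝ} (hx : ‖x‖ ≤ 2) : chi x = 1 := by
  unfold chi
  rw [min_eq_left (by linarith), max_eq_right zero_le_one]

lemma chi_lip (x y : Fin d → ℝ) : |chi x - chi y| ≤ ‖x - y‖ := by
  unfold chi
  have h1 : |max 0 (min 1 (3 - ‖x‖)) - max 0 (min 1 (3 - ‖y‖))| ≤
      |min 1 (3 - ‖x‖) - min 1 (3 - ‖y‖)| := by
    have := abs_max_sub_max_le_abs (min 1 (3 - ‖x‖)) (min 1 (3 - ‖y‖)) 0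
    rwa [max_comm 0, max_comm 0]
  have h2 : |min 1 (3 - ‖x‖) - min 1 (3 - ‖y‖)| ≤ |(3 - ‖x‖) - (3 - ‖y‖)| := by
    have := abs_min_sub_min_le_max 1 (3 - ‖x‖) 1 (3 - ‖y‖)
    refine this.trans ?_
    rw [sub_self, abs_zero]
    exact max_le (abs_nonneg _) le_rfl
  have h3 : |(3 - ‖x‖) - (3 - ‖y‖)| ≤ ‖x - y‖ := by
    have : (3 - ‖x‖) - (3 - ‖y‖) = ‖y‖ - ‖x‖ := by ring
    rw [this, norm_sub_rev x y]
    exact abs_norm_sub_norm_le y x
  exact h1.trans (h2.trans h3)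

lemma prod_lip {u : (Fin d → ℝ) → ℝ} {L : ℝ} (hL : 0 < L)
    (hu : ∀ x y, |u x - u y| ≤ L * ‖x - y‖) (hu0 : ∀ x, |u x| ≤ L * ‖x‖) (x y : Fin d → ℝ) :
    |chi x * u x - chi y * u y| ≤ 4 * L * ‖x - y‖ := by
  wlog hxy : ‖x‖ ≤ ‖y‖ generalizing x y
  · rw [abs_sub_comm, norm_sub_rev]
    exact this y x (le_of_not_ge hxy)
  rcases le_or_gt ‖x‖ 3 with h3 | h3
  · have e : chi x * u x - chi y * u y = (chi x - chi y) * u x + chi y * (u x - u y) := by ring
    rw [e]
    have a1 : |(chi x - chi y) * u x| ≤ ‖x - y‖ * (L * 3) := by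
      rw [abs_mul]
      refine mul_le_mul (chi_lip x y) ((hu0 x).trans ?_) (abs_nonneg _) (norm_nonneg _)
      exact mul_le_mul_of_nonneg_left h3 hL.le
    have a2 : |chi y * (u x - u y)| ≤ L * ‖x - y‖ := by
      rw [abs_mul, abs_of_nonneg (chi_nonneg y)]
      calc chi y * |u x - u y| ≤ 1 * (L * ‖x - y‖) :=
            mul_le_mul (chi_le_one y) (hu x y) (abs_nonneg _) zero_le_one
        _ = L * ‖x - y‖ := one_mul _
    calc _ ≤ |(chi x - chi y) * u x| + |chi y * (u x - u y)| := abs_add_le _ _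
      _ ≤ ‖x - y‖ * (L * 3) + L * ‖x - y‖ := add_le_add a1 a2
      _ = 4 * L * ‖x - y‖ := by ring
  · rw [chi_zero h3.le, chi_zero (h3.le.trans hxy)]
    simp only [zero_mul, sub_self, abs_zero]
    positivity

end Loc

open Loc in
/-- The localised (Carleson) form of `bad_points`, no support condition, uniform in the cell `z₀` of
level `k₀`. -/
theorem loc_points (d : ℕ) (hBP : BadPoints d) (L η : ℝ) (hL : 0 < L) (hη : 0 < η) :
    ∃ C : ℝ, 0 < C ∧ ∀ (g : (Fin d → ℝ) → ℝ), (∀ x y, |g x - g y| ≤ L * ‖x - y‖) →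
    ∀ (i j : Fin d) (n k₀ : ℕ) (z₀ : Fin d → ℤ) (Z : ℕ → Finset (Fin d → ℤ)),
    (∀ k < n, ∀ z ∈ Z k, 1 ≤ k ∧ (∀ a, 2 ^ k * z₀ a ≤ z a ∧ z a < 2 ^ k * (z₀ a + 1)) ∧
      η * (1 / 2) ^ (k₀ + k) <
        |mix g ((1 / 2) ^ (k₀ + k)) i j (fun a => (1 / 2) ^ (k₀ + k) * (z a : ℝ))|) →
    ∑ k ∈ Finset.range n, ((Z k).card : ℝ) * ((1 / 2) ^ k) ^ d ≤ C := by
  obtain ⟨C, hC, H⟩ := hBP (4 * L) η (by positivity) hη
  refine ⟨C, hC, ?_⟩
  intro g hg i j n k₀ z₀ Z hZ
  set q : ℝ := (1 / 2) ^ k₀ with hq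
  have hq0 : 0 < q := by positivity
  set w : Fin d → ℝ := fun a => (z₀ a : ℝ) with hw
  set u : (Fin d → ℝ) → ℝ := fun x => (g (q • (w + x)) - g (q • w)) / q with hu
  have hu1 : ∀ x y, |u x - u y| ≤ L * ‖x - y‖ := by
    intro x y
    have e : u x - u y = (g (q • (w + x)) - g (q • (w + y))) / q := by
      simp only [hu]
      ring
    rw [e, abs_div, abs_of_pos hq0, div_le_iff₀ hq0]
    refine (hg _ _).trans (le_of_eq ?_)
    rw [← smul_sub, norm_smul, Real.norm_of_nonneg hq0.le, add_sub_add_left_eq_sub]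
    ring
  have hu0 : ∀ x, |u x| ≤ L * ‖x‖ := by
    intro x
    have h := hu1 x 0
    have e : u 0 = 0 := by simp [hu]
    rwa [e, sub_zero, sub_zero] at h
  have hG := H (fun x => chi x * u x) (fun x y => prod_lip hL hu1 hu0 x y)
    (fun x hx => by simp only [chi_zero hx, zero_mul]) i j n
    (fun k => (Z k).image (fun z a => z a - 2 ^ k * z₀ a)) ?_
  · have hcard : ∀ k, ((Z k).image (fun (z : Fin d → ℤ) a => z a - 2 ^ k * z₀ a)).card =
        (Z k).card := by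
      intro k
      apply Finset.card_image_of_injective
      intro z z' hzz
      funext a
      have := congrFun hzz a
      simp only at this
      linarith
    simpa only [hcard] using hG
  · intro k hk z' hz'
    rw [Finset.mem_image] at hz'
    obtain ⟨z, hz, rfl⟩ := hz'
    obtain ⟨hk1, hcell, hbad⟩ := hZ k hk z hz
    set h : ℝ := (1 / 2) ^ k with hh
    have hh0 : 0 < h := by positivity
    have hh1 : h ≤ 1 / 2 := by
      calc h = (1 / 2) ^ k := rfl
        _ ≤ (1 / 2) ^ 1 := pow_le_pow_of_le_one (by norm_num) (by norm_num) hk1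
        _ = 1 / 2 := pow_one _
    have hqh : (1 / 2 : ℝ) ^ (k₀ + k) = q * h := by rw [pow_add]
    have h2k : h * 2 ^ k = 1 := by
      rw [hh, ← mul_pow]
      norm_num
    set p : Fin d → ℝ := fun a => h * (((z a - 2 ^ k * z₀ a : ℤ)) : ℝ) with hp
    have hpn : ‖p‖ ≤ 1 := by
      rw [pi_norm_le_iff_of_nonneg zero_le_one]
      intro a
      obtain ⟨h1, h2⟩ := hcell a
      have h1' : (0 : ℝ) ≤ ((z a - 2 ^ k * z₀ a : ℤ) : ℝ) := by
        exact_mod_cast sub_nonneg.mpr h1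
      have h2' : ((z a - 2 ^ k * z₀ a : ℤ) : ℝ) ≤ 2 ^ k := by
        have : z a - 2 ^ k * z₀ a ≤ 2 ^ k := by linarith
        exact_mod_cast this
      rw [Real.norm_of_nonneg (mul_nonneg hh0.le h1')]
      calc h * _ ≤ h * 2 ^ k := mul_le_mul_of_nonneg_left h2' hh0.le
        _ = 1 := h2k
    have hs : ∀ i : Fin d, ‖h • (Pi.single i 1 : Fin d → ℝ)‖ ≤ 1 / 2 := by
      intro i
      rw [norm_smul, Real.norm_of_nonneg hh0.le]
      have : ‖(Pi.single i 1 : Fin d → ℝ)‖ ≤ 1 := by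
        rw [pi_norm_le_iff_of_nonneg zero_le_one]
        intro a
        by_cases h : a = i
        · subst h
          simp
        · simp [Pi.single_eq_of_ne h]
      calc h * _ ≤ h * 1 := mul_le_mul_of_nonneg_left this hh0.le
        _ = h := mul_one _
        _ ≤ 1 / 2 := hh1
    have n2 : ‖p + h • (Pi.single i 1 : Fin d → ℝ)‖ ≤ 2 := by
      have := norm_add_le p (h • (Pi.single i 1 : Fin d → ℝ))
      linarith [hs i]
    have n3 : ‖p + h • (Pi.single j 1 : Fin d → ℝ)‖ ≤ 2 := by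
      have := norm_add_le p (h • (Pi.single j 1 : Fin d → ℝ))
      linarith [hs j]
    have n4 : ‖p + h • (Pi.single i 1 : Fin d → ℝ) + h • (Pi.single j 1 : Fin d → ℝ)‖ ≤ 2 := by
      have h1 := norm_add_le p (h • (Pi.single i 1 : Fin d → ℝ))
      have h2 := norm_add_le (p + h • (Pi.single i 1 : Fin d → ℝ))
        (h • (Pi.single j 1 : Fin d → ℝ))
      linarith [hs i, hs j]
    have hpt : (fun a => (1 / 2 : ℝ) ^ (k₀ + k) * (z a : ℝ)) = q • (w + p) := by
      funext a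
      simp only [Pi.smul_apply, Pi.add_apply, smul_eq_mul, hw, hp, hqh]
      push_cast
      have : q * ((z₀ a : ℝ) + h * ((z a : ℝ) - 2 ^ k * (z₀ a : ℝ))) =
        q * ((z₀ a : ℝ) + h * (z a : ℝ) - (h * 2 ^ k) * (z₀ a : ℝ)) := by ring
      rw [this, h2k]
      ring
    have key : mix g ((1 / 2) ^ (k₀ + k)) i j (fun a => (1 / 2) ^ (k₀ + k) * (z a : ℝ)) =
        q * mix (fun x => chi x * u x) h i j p := by
      rw [hpt, hqh]
      unfold mix
      simp only
      rw [chi_one n4, chi_one n3, chi_one n2, chi_one (hpn.trans (by norm_num))]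
      have e1 : q • (w + p) + (q * h) • (Pi.single i 1 : Fin d → ℝ) +
          (q * h) • (Pi.single j 1 : Fin d → ℝ) =
          q • (w + (p + h • (Pi.single i 1 : Fin d → ℝ) + h • (Pi.single j 1 : Fin d → ℝ))) := by
        simp only [smul_add, smul_smul]
        abel
      have e2 : ∀ i : Fin d, q • (w + p) + (q * h) • (Pi.single i 1 : Fin d → ℝ) =
          q • (w + (p + h • (Pi.single i 1 : Fin d → ℝ))) := by
        intro i
        simp only [smul_add, smul_smul]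
        abel
      rw [e1, e2, e2]
      simp only [hu]
      field_simp
      ring
    rw [key, abs_mul, abs_of_pos hq0, hqh] at hbad
    have : q * (η * h) < q * |mix (fun x => chi x * u x) h i j p| := by
      calc q * (η * h) = η * (q * h) := by ring
        _ < _ := hbad
    exact lt_of_mul_lt_mul_left this hq0.le

end Pool.Agent.J4.H41.KL
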