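import Pool.Agent.J4.H41.KL.Vol
import Pool.Agent.J4.H41.KL.Cells

/-!
# Normalisation of the positions, extension, and numerical inequalities
-/

set_option autoImplicit false

namespace Pool.Agent.J4.H41.KL

open MeasureTheory Set Metric
open scoped NNReal
open Pool.Agent.H810R3.Tub

variable {d : ℕ}

theorem coord_le (v : Vec d) (a : Fin d) : |v a| ≤ ‖v‖ := by
  have := PiLp.norm_apply_le v a
  rwa [Real.norm_eq_abs] at this

theorem norm_le_sum (v : Vec d) : ‖v‖ ≤ ∑ a, |v a| := by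
  rw [EuclideanSpace.norm_eq]
  apply Real.sqrt_le_iff.2
  refine ⟨Finset.sum_nonneg fun a _ => abs_nonneg _, ?_⟩
  simp only [Real.norm_eq_abs]
  exact Finset.sum_sq_le_sq_sum_of_nonneg fun a _ => abs_nonneg _

theorem exists_coord (hd : 1 ≤ d) (v : Vec d) : ∃ a, ‖v‖ ≤ d * |v a| := by
  by_contra hcon
  push_neg at hcon
  have hd0 : (0 : ℝ) < d := by exact_mod_cast hd
  have h1 : ∀ a : Fin d, |v a| < ‖v‖ / d := by
    intro a
    rw [lt_div_iff₀ hd0]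
    have := hcon a
    linarith
  have hne : (Finset.univ : Finset (Fin d)).Nonempty := ⟨⟨0, hd⟩, Finset.mem_univ _⟩
  have h2 : ∑ a, |v a| < ∑ _a : Fin d, ‖v‖ / d := Finset.sum_lt_sum_of_nonempty hne fun a _ => h1 a
  rw [Finset.sum_const, Finset.card_univ, Fintype.card_fin, nsmul_eq_mul,
    mul_div_cancel₀ _ hd0.ne'] at h2
  linarith [norm_le_sum v]

theorem ofLp_norm_le (v : Vec d) : ‖(WithLp.ofLp v : Fin d → ℝ)‖ ≤ ‖v‖ := by
  refine (pi_norm_le_iff_of_nonneg (norm_nonneg _)).2 fun a => ?_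
  rw [Real.norm_eq_abs]
  exact coord_le v a

theorem norm_le_ofLp (hd : 1 ≤ d) (v : Vec d) : ‖v‖ ≤ d * ‖(WithLp.ofLp v : Fin d → ℝ)‖ := by
  obtain ⟨a, ha⟩ := exists_coord hd v
  refine ha.trans (mul_le_mul_of_nonneg_left ?_ (Nat.cast_nonneg _))
  have := norm_le_pi_norm (WithLp.ofLp v : Fin d → ℝ) a
  rwa [Real.norm_eq_abs] at this

/-- the normalised position -/
noncomputable def pos (N : ℝ) (a₀ a : Space d) (ω : Vec d) : Vec d :=
  (1 / N ^ 2) • (a.fst - a₀.fst) + (2 * ((a.snd - a₀.snd) / N ^ 2)) • ω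

theorem fst_sub_le (a b : Space d) : ‖a.fst - b.fst‖ ≤ ‖a - b‖ := by
  have h := norm_space_sq (a - b)
  have e1 : (a - b).fst = a.fst - b.fst := rfl
  rw [e1] at h
  have h2 : ‖a.fst - b.fst‖ ^ 2 ≤ ‖a - b‖ ^ 2 := by
    rw [h]; nlinarith [sq_nonneg (a - b).snd]
  exact (sq_le_sq₀ (norm_nonneg _) (norm_nonneg _)).1 h2

theorem snd_sub_le (a b : Space d) : |a.snd - b.snd| ≤ ‖a - b‖ := by
  have h := norm_space_sq (a - b)
  have e1 : (a - b).snd = a.snd - b.snd := rfl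
  rw [e1] at h
  have h2 : |a.snd - b.snd| ^ 2 ≤ ‖a - b‖ ^ 2 := by
    rw [h, sq_abs]; nlinarith [sq_nonneg ‖(a - b).fst‖]
  exact (sq_le_sq₀ (abs_nonneg _) (norm_nonneg _)).1 h2

theorem ax_pos {N : ℝ} (hN : 0 < N) (a₀ a : Space d) (ω : Vec d) (t : ℝ) :
    (1 / N ^ 2) • (ax ω a t - a₀.fst) =
      pos N a₀ a ω - (2 * ((t - a₀.snd) / N ^ 2)) • ω := by
  unfold ax pos
  have e : a.fst - (2 * (t - a.snd)) • ω - a₀.fst = (a.fst - a₀.fst) - (2 * (t - a.snd)) • ω := by abel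
  rw [e, smul_sub, add_sub_assoc, ← sub_smul, smul_smul, sub_eq_add_neg, ← neg_smul]
  congr 2
  field_simp
  ring

theorem pos_lip {ι : Type} {N A σ : ℝ} (hN : 1 ≤ N) (hA : 0 < A) (hσ : 0 < σ) {ω : ι → Vec d}
    (hω : ∀ i, ‖ω i‖ ≤ 1) (hsep : ∀ i j, i ≠ j → σ / N ≤ ‖ω i - ω j‖) {a : ι → Space d}
    (ha : ∀ i j, ‖a i - a j‖ ≤ A * N ^ 2 * (‖ω i - ω j‖ + 1 / N)) (i₀ i j : ι) :
    ‖pos N (a i₀) (a i) (ω i) - pos N (a i₀) (a j) (ω j)‖ ≤ 9 * A * (1 + 1 / σ) * ‖ω i - ω j‖ := by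
  have hN0 : 0 < N := by linarith
  have hN2 : 0 < N ^ 2 := by positivity
  rcases eq_or_ne i j with rfl | hij
  · simp
  set D := ‖ω i - ω j‖ with hD
  have hD0 : 0 ≤ D := norm_nonneg _
  have hDN : 1 / N ≤ D / σ := by
    rw [le_div_iff₀ hσ]
    have := hsep i j hij
    calc 1 / N * σ = σ / N := by ring
      _ ≤ D := this
  have h1 : ‖a i - a j‖ ≤ A * N ^ 2 * (D * (1 + 1 / σ)) := by
    refine (ha i j).trans (mul_le_mul_of_nonneg_left ?_ (by positivity))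
    have : D * (1 + 1 / σ) = D + D / σ := by ring
    rw [this]
    linarith
  have h2 : ‖a i₀ - a j‖ ≤ 3 * A * N ^ 2 := by
    refine (ha i₀ j).trans ?_
    have k1 : ‖ω i₀ - ω j‖ ≤ 2 := (norm_sub_le _ _).trans (by linarith [hω i₀, hω j])
    have k2 : 1 / N ≤ 1 := by rw [div_le_one hN0]; exact hN
    calc A * N ^ 2 * (‖ω i₀ - ω j‖ + 1 / N) ≤ A * N ^ 2 * (2 + 1) := by gcongr
      _ = _ := by ring
  have e : pos N (a i₀) (a i) (ω i) - pos N (a i₀) (a j) (ω j) =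
      (1 / N ^ 2) • ((a i).fst - (a j).fst) + (2 * (((a i).snd - (a j).snd) / N ^ 2)) • ω i +
        (2 * (((a j).snd - (a i₀).snd) / N ^ 2)) • (ω i - ω j) := by
    unfold pos
    have e1 : 2 * (((a i).snd - (a i₀).snd) / N ^ 2) =
        2 * (((a i).snd - (a j).snd) / N ^ 2) + 2 * (((a j).snd - (a i₀).snd) / N ^ 2) := by ring
    rw [e1, add_smul, smul_sub, smul_sub, smul_sub, smul_sub]
    abel
  have k1 : ‖(1 / N ^ 2) • ((a i).fst - (a j).fst)‖ ≤ A * (D * (1 + 1 / σ)) := by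
    rw [norm_smul, Real.norm_of_nonneg (by positivity)]
    have := (fst_sub_le (a i) (a j)).trans h1
    calc 1 / N ^ 2 * ‖(a i).fst - (a j).fst‖ ≤ 1 / N ^ 2 * (A * N ^ 2 * (D * (1 + 1 / σ))) := by gcongr
      _ = _ := by field_simp
  have k2 : ‖(2 * (((a i).snd - (a j).snd) / N ^ 2)) • ω i‖ ≤ 2 * (A * (D * (1 + 1 / σ))) := by
    rw [norm_smul, Real.norm_eq_abs, abs_mul, abs_div, abs_of_pos hN2, abs_of_pos (by norm_num : (0:ℝ) < 2)]
    have := (snd_sub_le (a i) (a j)).trans h1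
    calc 2 * (|(a i).snd - (a j).snd| / N ^ 2) * ‖ω i‖
        ≤ 2 * ((A * N ^ 2 * (D * (1 + 1 / σ))) / N ^ 2) * 1 := by
          gcongr
          exact hω i
      _ = _ := by field_simp
  have k3 : ‖(2 * (((a j).snd - (a i₀).snd) / N ^ 2)) • (ω i - ω j)‖ ≤ 6 * A * D := by
    rw [norm_smul, Real.norm_eq_abs, abs_mul, abs_div, abs_of_pos hN2, abs_of_pos (by norm_num : (0:ℝ) < 2)]
    have := (snd_sub_le (a i₀) (a j)).trans h2
    rw [abs_sub_comm] at this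
    calc 2 * (|(a j).snd - (a i₀).snd| / N ^ 2) * D
        ≤ 2 * ((3 * A * N ^ 2) / N ^ 2) * D := by gcongr
      _ = _ := by field_simp; ring
  rw [e]
  refine (norm_add₃_le).trans ?_
  have h5 : D ≤ D * (1 + 1 / σ) := by
    have : 0 ≤ D * (1 / σ) := by positivity
    nlinarith
  nlinarith

/-- extension of a Lipschitz function of the directions -/
theorem extend {ι : Type} (hd : 1 ≤ d) {L₀ : ℝ} (hL : 0 ≤ L₀) {ω b : ι → Vec d}
    (hinj : Function.Injective ω) (hb : ∀ i j, ‖b i - b j‖ ≤ L₀ * ‖ω i - ω j‖) :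
    ∃ g : (Fin d → ℝ) → (Fin d → ℝ), (∀ x y, ‖g x - g y‖ ≤ d * L₀ * ‖x - y‖) ∧
      ∀ i, g (WithLp.ofLp (ω i)) = WithLp.ofLp (b i) := by
  classical
  set S : Set (Fin d → ℝ) := Set.range fun i => WithLp.ofLp (ω i) with hS
  set g₀ : (Fin d → ℝ) → (Fin d → ℝ) := fun x =>
    if h : ∃ i, WithLp.ofLp (ω i) = x then WithLp.ofLp (b h.choose) else 0 with hg₀
  have hg0 : ∀ i, g₀ (WithLp.ofLp (ω i)) = WithLp.ofLp (b i) := by
    intro i
    have h : ∃ j, WithLp.ofLp (ω j) = WithLp.ofLp (ω i) := ⟨i, rfl⟩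
    have h1 : g₀ (WithLp.ofLp (ω i)) = WithLp.ofLp (b h.choose) := dif_pos h
    have h2 : h.choose = i := hinj (WithLp.ofLp_injective 2 h.choose_spec)
    rw [h1, h2]
  set Kn : ℝ≥0 := ⟨d * L₀, by positivity⟩ with hKn
  have hlip : LipschitzOnWith Kn g₀ S := by
    refine LipschitzOnWith.of_dist_le_mul ?_
    rintro _ ⟨i, rfl⟩ _ ⟨j, rfl⟩
    rw [hg0, hg0, dist_eq_norm, dist_eq_norm]
    show ‖WithLp.ofLp (b i) - WithLp.ofLp (b j)‖ ≤ (d * L₀) * ‖WithLp.ofLp (ω i) - WithLp.ofLp (ω j)‖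
    have h1 := ofLp_norm_le (b i - b j)
    have h2 := norm_le_ofLp hd (ω i - ω j)
    calc ‖WithLp.ofLp (b i) - WithLp.ofLp (b j)‖ ≤ ‖b i - b j‖ := h1
      _ ≤ L₀ * ‖ω i - ω j‖ := hb i j
      _ ≤ L₀ * (d * ‖WithLp.ofLp (ω i) - WithLp.ofLp (ω j)‖) := mul_le_mul_of_nonneg_left h2 hL
      _ = _ := by ring
  obtain ⟨g, hg, hgS⟩ := hlip.extend_pi
  refine ⟨g, fun x y => ?_, fun i => ?_⟩
  · have := hg.dist_le_mul x y
    rwa [dist_eq_norm, dist_eq_norm] at this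
  · rw [← hgS ⟨i, rfl⟩, hg0]

end Pool.Agent.J4.H41.KL
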