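import Pool.Agent.J4.H41.KL.Num
import Pool.Agent.J4.H41.KL.Prep
import Pool.Agent.J4.H41.KL.Heights
import Pool.Agent.J4.H41.KL.Loc
import Pool.Agent.J4.H41.KL.Bp

/-!
# The volume form for Lipschitz families with at least `N^(d-c)` members
-/

set_option autoImplicit false

namespace Pool.Agent.J4.H41.KL

open MeasureTheory Set Metric
open scoped ENNReal
open Pool.Agent.H810R3.Tub

variable {d : ℕ}

theorem locPoints (d : ℕ) : LocPoints d := fun L η hL hη =>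
  loc_points d (fun L η hL hη => bad_points d L η hL hη) L η hL hη

theorem hsep_coord {ι : Type} (hd : 1 ≤ d) {σ N : ℝ} (hσ : 0 < σ) (hN : 0 < N) {ω : ι → Vec d}
    (hsep : ∀ i j, i ≠ j → σ / N ≤ ‖ω i - ω j‖) {i j : ι} (hij : i ≠ j) :
    ∃ a, σ / (2 * N) ≤ d * |(WithLp.ofLp (ω i) : Fin d → ℝ) a - (WithLp.ofLp (ω j) : Fin d → ℝ) a| := by
  obtain ⟨a, ha⟩ := exists_coord hd (ω i - ω j)
  refine ⟨a, ?_⟩
  have h1 := (hsep i j hij).trans ha
  have h2 : σ / (2 * N) ≤ σ / N := by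
    apply div_le_div_of_nonneg_left hσ.le hN
    linarith
  exact h2.trans h1

/-- the number of caps -/
theorem card_total {ι : Type} [Fintype ι] (hd : 1 ≤ d) {σ N : ℝ} (hσ : 0 < σ) (hN : 1 ≤ N)
    {ω : ι → Vec d} (hω : ∀ i, ‖ω i‖ ≤ 1) (hsep : ∀ i j, i ≠ j → σ / N ≤ ‖ω i - ω j‖) :
    (Fintype.card ι : ℝ) ≤ (16 * d / σ + 2) ^ d * N ^ d := by
  classical
  have hN0 : 0 < N := by linarith
  have hd0 : (0 : ℝ) < d := by exact_mod_cast hd
  set l : ℝ := 4 * d * N / σ with hl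
  have hl0 : 0 < l := by positivity
  set φ : ι → Fin d → ℝ := fun i => WithLp.ofLp (ω i) with hφ
  have hinj : Set.InjOn (fun y => (fun a => ⌊(l • φ y) a⌋ : Fin d → ℤ)) (Finset.univ : Finset ι) := by
    intro y _ y' _ h
    by_contra hne
    obtain ⟨a, ha⟩ := hsep_coord hd hσ hN0 hsep hne
    have h1 := Int.abs_sub_lt_one_of_floor_eq_floor (congrFun h a)
    simp only [Pi.smul_apply, smul_eq_mul] at h1
    rw [← mul_sub, abs_mul, abs_of_pos hl0] at h1
    have h2 : l * (d * |φ y a - φ y' a|) < d := by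
      have := mul_lt_mul_of_pos_left h1 hd0
      nlinarith
    have h3 : l * (σ / (2 * N)) = 2 * d := by
      rw [hl]; field_simp; norm_num
    have h4 : l * (σ / (2 * N)) ≤ l * (d * |φ y a - φ y' a|) := mul_le_mul_of_nonneg_left ha hl0.le
    linarith
  have h1 := card_floor (Finset.univ : Finset ι) (fun y => l • φ y) (l * 2) (by positivity) (by
    intro y _ y' _ a
    simp only [Pi.smul_apply, smul_eq_mul]
    rw [← mul_sub, abs_mul, abs_of_pos hl0]
    refine mul_le_mul_of_nonneg_left ?_ hl0.le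
    have k1 := abs_le.1 ((coord_le (ω y) a).trans (hω y))
    have k2 := abs_le.1 ((coord_le (ω y') a).trans (hω y'))
    rw [abs_le]
    constructor
    · show -2 ≤ ω y a - ω y' a
      linarith
    · show ω y a - ω y' a ≤ 2
      linarith)
  rw [Finset.card_image_of_injOn hinj, Finset.card_univ] at h1
  refine h1.trans ?_
  rw [← mul_pow]
  refine pow_le_pow_left₀ (by positivity) ?_ d
  calc 2 * (l * 2) + 2 = 16 * d / σ * N + 2 := by rw [hl]; ring
    _ ≤ 16 * d / σ * N + 2 * N := by linarith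
    _ = _ := by ring

theorem main (d : ℕ) (hd : 1 ≤ d) (σ A ε : ℝ) (hσ : 0 < σ) (hA : 0 < A) (hε : 0 < ε) :
    ∃ C c : ℝ, 0 < C ∧ 0 < c ∧ ∀ N : ℝ, 1 ≤ N → ∀ (ι : Type) [Fintype ι] (ω : ι → Vec d)
      (f : ι → Fin d → Space d) (a : ι → Space d), (∀ i, ‖ω i‖ ≤ 1) →
      (∀ i j, i ≠ j → σ / N ≤ ‖ω i - ω j‖) →
      (∀ i, Orthonormal ℝ (Fin.cons (nor (ω i)) (f i) : Fin (d + 1) → Space d)) →
      (∀ i j, ‖a i - a j‖ ≤ A * N ^ 2 * (‖ω i - ω j‖ + 1 / N)) →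
      N ^ ((d : ℝ) - c) ≤ (Fintype.card ι : ℝ) →
      ∑ i, volume (box N (nor (ω i)) (f i) (a i)) ≤
        ENNReal.ofReal (C * N ^ ε) * volume (⋃ i, box N (nor (ω i)) (f i) (a i)) := by
  classical
  have hd0 : (0 : ℝ) < d := by exact_mod_cast hd
  obtain ⟨L₀, hL₀d⟩ : ∃ L₀ : ℝ, L₀ = 9 * A * (1 + 1 / σ) := ⟨_, rfl⟩
  have hL₀ : 0 < L₀ := by rw [hL₀d]; positivity
  obtain ⟨L, hLd⟩ : ∃ L : ℝ, L = d * L₀ := ⟨_, rfl⟩
  have hL : 0 < L := by rw [hLd]; positivity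
  obtain ⟨X, hXd⟩ : ∃ X : ℝ, X = 2 + L + 6 * A := ⟨_, rfl⟩
  have hX : 1 ≤ X := by rw [hXd]; linarith
  obtain ⟨δ, hδd⟩ : ∃ δ : ℝ, δ = ε / (240 * d ^ 2) := ⟨_, rfl⟩
  have hδ : 0 < δ := by rw [hδd]; positivity
  have hG0 : 0 ≤ Gc d X δ := by
    unfold Gc
    have : 0 < X := by linarith
    positivity
  have h2ε : (1 : ℝ) < 2 ^ (ε / 4) := Real.one_lt_rpow (by norm_num) (by positivity)
  obtain ⟨n₀, hn₀⟩ := pow_unbounded_of_one_lt (Gc d X δ) h2ε
  obtain ⟨m₀, hm₀d⟩ : ∃ m₀ : ℕ, m₀ = n₀ + 1 := ⟨_, rfl⟩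
  have hm₀ : 1 ≤ m₀ := by omega
  have hm0 : (0 : ℝ) < m₀ := by exact_mod_cast hm₀
  have hGm : Gc d X δ ≤ ((2 : ℝ) ^ (ε / 4)) ^ m₀ :=
    hn₀.le.trans (pow_le_pow_right₀ h2ε.le (by omega))
  obtain ⟨n₁, hn₁⟩ := exists_pow_lt_of_lt_one
    (show (0 : ℝ) < (1 / 2) ^ m₀ / (4 * ((1 + d) * L)) by positivity) (by norm_num : (1 / 2 : ℝ) < 1)
  obtain ⟨s, hsd⟩ : ∃ s : ℕ, s = n₁ + 1 := ⟨_, rfl⟩
  have hs : 1 ≤ s := by omega
  have hs2 : (1 / 2 : ℝ) ^ s ≤ (1 / 2) ^ m₀ / (4 * ((1 + d) * L)) :=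
    le_trans (pow_le_pow_of_le_one (by norm_num) (by norm_num) (by omega)) hn₁.le
  obtain ⟨η, hηd⟩ : ∃ η : ℝ, η = (1 / 2) ^ m₀ / (4 * d ^ 2 * 2 ^ s) := ⟨_, rfl⟩
  have hη : 0 < η := by rw [hηd]; positivity
  have hηs : 2 * ((d : ℝ) ^ 2 * (2 ^ s) ^ 2 * η + (1 + d) * L) * (1 / 2) ^ s ≤ (1 / 2) ^ m₀ := by
    have e0 : (2 : ℝ) ^ s * (1 / 2) ^ s = 1 := by rw [← mul_pow]; norm_num
    have e1 : 2 * ((d : ℝ) ^ 2 * (2 ^ s) ^ 2 * η) * (1 / 2) ^ s = (1 / 2) ^ m₀ / 2 := by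
      have : 2 * ((d : ℝ) ^ 2 * (2 ^ s) ^ 2 * η) * (1 / 2) ^ s =
          2 * d ^ 2 * 2 ^ s * η * (2 ^ s * (1 / 2) ^ s) := by ring
      rw [this, e0, hηd]
      field_simp
      norm_num
    have e2 : 2 * ((1 + d) * L) * (1 / 2) ^ s ≤ (1 / 2) ^ m₀ / 2 := by
      have := mul_le_mul_of_nonneg_left hs2 (by positivity : (0 : ℝ) ≤ 2 * ((1 + d) * L))
      refine this.trans (le_of_eq ?_)
      field_simp
      norm_num
    nlinarith
  obtain ⟨C₁, hC₁, hfew⟩ := few (locPoints d) L η hL hη s m₀ hs hm₀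
  have hC₁0 : 0 < C₁ := by linarith
  obtain ⟨θ, hθd⟩ : ∃ θ : ℝ, θ = ε / (12 * d) / (2 * C₁) := ⟨_, rfl⟩
  have hθ : 0 < θ := by rw [hθd]; positivity
  obtain ⟨c, hcd⟩ : ∃ c : ℝ, c = θ / (2 * m₀) := ⟨_, rfl⟩
  have hc : 0 < c := by rw [hcd]; positivity
  obtain ⟨D, hDd⟩ : ∃ D : ℝ, D = (8 * d * 2 ^ m₀ / σ + 2) ^ d := ⟨_, rfl⟩
  have hD : 0 < D := by rw [hDd]; positivity
  obtain ⟨Y, hYd⟩ : ∃ Y : ℝ, Y = 2 * (6 ^ d * D * 4 * 2 ^ θ) := ⟨_, rfl⟩
  have hY : 0 < Y := by rw [hYd]; positivity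
  obtain ⟨v, hvd⟩ : ∃ v : ℝ, v = (volume (closedBall (0 : Vec d) 1)).toReal := ⟨_, rfl⟩
  have hvt : volume (closedBall (0 : Vec d) 1) ≠ ⊤ := measure_closedBall_lt_top.ne
  have hv : 0 < v := by
    rw [hvd]
    exact ENNReal.toReal_pos (measure_closedBall_pos _ _ one_pos).ne' hvt
  obtain ⟨C₃, hC₃d⟩ : ∃ C₃ : ℝ, C₃ = D * (6 ^ d * 2 ^ (3 * m₀ * d)) := ⟨_, rfl⟩
  have hC₃ : 0 < C₃ := by rw [hC₃d]; positivity
  obtain ⟨C₄, hC₄d⟩ : ∃ C₄ : ℝ, C₄ = (16 * d / σ + 2) ^ d * Y ^ ((d : ℝ) / c) := ⟨_, rfl⟩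
  have hC₄ : 0 < C₄ := by rw [hC₄d]; positivity
  refine ⟨max C₄ (20 * 10 ^ d / v * C₃), c, lt_max_of_lt_left hC₄, hc, ?_⟩
  intro N hN ι _ ω f a hω hsep hf ha hcard
  have hN0 : 0 < N := by linarith
  have hNε : 1 ≤ N ^ ε := Real.one_le_rpow hN hε.le
  have hNc0 : (0 : ℝ) < N ^ ((d : ℝ) - c) := Real.rpow_pos_of_pos hN0 _
  have hcard0 : (0 : ℝ) < Fintype.card ι := lt_of_lt_of_le hNc0 hcard
  have hne : Nonempty ι := Fintype.card_pos_iff.1 (by exact_mod_cast hcard0)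
  obtain ⟨i₀⟩ := hne
  set U := ⋃ i, box N (nor (ω i)) (f i) (a i) with hU
  have hsumvol : ∑ i, volume (box N (nor (ω i)) (f i) (a i)) =
      ENNReal.ofReal (Fintype.card ι * N ^ (d + 2)) := by
    rw [Finset.sum_congr rfl fun i _ => vol_box hN (hf i) (a i), Finset.sum_const, Finset.card_univ,
      nsmul_eq_mul, ENNReal.ofReal_mul (Nat.cast_nonneg _), ENNReal.ofReal_natCast]
  rw [hsumvol]
  by_cases hbig : Y ≤ N ^ c
  swap
  · -- small N
    push_neg at hbig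
    have h1 : ENNReal.ofReal (N ^ (d + 2)) ≤ volume U := by
      rw [← vol_box hN (hf i₀) (a i₀)]
      exact measure_mono (subset_iUnion (fun i => box N (nor (ω i)) (f i) (a i)) i₀)
    have h2 : (N : ℝ) ^ d ≤ Y ^ ((d : ℝ) / c) := by
      calc (N : ℝ) ^ d = (N ^ c) ^ ((d : ℝ) / c) := by
            rw [← Real.rpow_mul hN0.le, mul_div_cancel₀ _ hc.ne', Real.rpow_natCast]
        _ ≤ Y ^ ((d : ℝ) / c) := Real.rpow_le_rpow (by positivity) hbig.le (by positivity)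
    have h3 : (Fintype.card ι : ℝ) ≤ C₄ := by
      rw [hC₄d]
      exact (card_total hd hσ hN hω hsep).trans (mul_le_mul_of_nonneg_left h2 (by positivity))
    calc ENNReal.ofReal (Fintype.card ι * N ^ (d + 2))
        ≤ ENNReal.ofReal (max C₄ (20 * 10 ^ d / v * C₃) * N ^ ε * N ^ (d + 2)) := by
          apply ENNReal.ofReal_le_ofReal
          refine mul_le_mul_of_nonneg_right ?_ (by positivity)
          calc (Fintype.card ι : ℝ) ≤ C₄ := h3
            _ ≤ max C₄ (20 * 10 ^ d / v * C₃) := le_max_left _ _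
            _ ≤ max C₄ (20 * 10 ^ d / v * C₃) * N ^ ε := le_mul_of_one_le_right (by positivity) hNε
      _ = ENNReal.ofReal (max C₄ (20 * 10 ^ d / v * C₃) * N ^ ε) * ENNReal.ofReal (N ^ (d + 2)) :=
          ENNReal.ofReal_mul (by positivity)
      _ ≤ _ := by gcongr
  -- the scales
  obtain ⟨K, hK1, hK2⟩ := exists_nat_pow_near (x := N) (y := (2 : ℝ) ^ m₀) hN
    (one_lt_pow₀ (by norm_num) (by omega))
  rw [← pow_mul] at hK1 hK2
  have hinj : Function.Injective ω := by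
    intro i j hij
    by_contra hne
    have := hsep i j hne
    rw [hij, sub_self, norm_zero] at this
    have : 0 < σ / N := by positivity
    linarith
  set φ : ι → Fin d → ℝ := fun i => WithLp.ofLp (ω i) with hφ
  have hφ1 : ∀ i a, |φ i a| ≤ 1 := fun i a => (coord_le (ω i) a).trans (hω i)
  set b : ι → Vec d := fun i => pos N (a i₀) (a i) (ω i) with hb
  have hblip : ∀ i j, ‖b i - b j‖ ≤ L₀ * ‖ω i - ω j‖ := fun i j => by
    rw [hL₀d]; exact pos_lip hN hA hσ hω hsep ha i₀ i j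
  obtain ⟨g, hg, hgb⟩ := extend hd hL₀.le hinj hblip
  rw [← hLd] at hg
  -- the affine approximations
  have hAm : ∀ (k : ℕ) (z : Fin d → ℤ), ∃ M : Matrix (Fin d) (Fin d) ℝ, (∀ i j, |M i j| ≤ L) ∧
      (¬ Bad g η s (m₀ * k) z → ∀ x y, cl (m₀ * k) x = z → cl (m₀ * k) y = z →
        ‖g x - g y - M.mulVec (x - y)‖ ≤ (1 / 2) ^ m₀ * (1 / 2) ^ (m₀ * k)) := by
    intro k z
    by_cases hz : Bad g η s (m₀ * k) z
    · exact ⟨0, fun i j => by simp [hL.le], fun h => absurd hz h⟩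
    · obtain ⟨M, h1, h2⟩ := good_affine hL.le hg hη.le hηs hz
      exact ⟨M, h1, fun _ => h2⟩
  choose Am hAm1 hAm2 using hAm
  -- few points with many bad ancestors
  have hsepφ : ∀ x ∈ (Finset.univ : Finset ι), ∀ y ∈ (Finset.univ : Finset ι), x ≠ y →
      ∃ a, σ / (2 * N) ≤ d * |φ x a - φ y a| := fun x _ y _ hxy => hsep_coord hd hσ hN0 hsep hxy
  have hcell : ∀ k ≤ K, ∀ x ∈ (Finset.univ : Finset ι),
      (((Finset.univ : Finset ι).filter fun y => cl (m₀ * k) (φ y) = cl (m₀ * k) (φ x)).card : ℝ) ≤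
        D * ((2 : ℝ) ^ (m₀ * d)) ^ (K - k) := by
    intro k hk x hx
    rw [hDd]
    exact cell_card hd hσ hN0 hK2.le Finset.univ φ hsepφ hk hx
  obtain ⟨m, hmd⟩ : ∃ m : ℕ, m = ⌊θ * K / 2⌋₊ := ⟨_, rfl⟩
  obtain ⟨m₁, hm₁d⟩ : ∃ m₁ : ℕ, m₁ = ⌈4 * C₁ * m⌉₊ := ⟨_, rfl⟩
  obtain ⟨m₂, hm₂d⟩ : ∃ m₂ : ℕ, m₂ = ⌊20 * d * δ * K⌋₊ := ⟨_, rfl⟩
  have hm₁ : 4 * C₁ * m ≤ m₁ := by rw [hm₁d]; exact Nat.le_ceil _
  obtain ⟨P', -, hP'1, hP'2⟩ := hfew ι g hg Finset.univ φ D K hD.le (fun i _ => hφ1 i) hcell m m₁ hm₁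
  have hmlow : θ * K / 2 - 1 ≤ m := by
    rw [hmd]
    have := Nat.lt_floor_add_one (θ * K / 2)
    linarith
  have hn2 := num2 (d := d) (D := D) hm₀ hN hK1 hK2.le hD.le hθ hcd hmlow (by rw [← hYd]; exact hbig)
  have hP'card : (Fintype.card ι : ℝ) ≤ 2 * P'.card := by
    rw [Finset.card_univ] at hP'2
    linarith
  -- the good heights
  set I : ι → Set ℝ := fun i =>
    goodH (fun k => Am k (cl (m₀ * k) (φ i))) δ N (a i₀).snd (a i).snd K m₂ with hI
  have hIm : ∀ i, MeasurableSet (I i) := fun i => goodH_meas _ _ _ _ _ _ _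
  have hIs : ∀ i ∈ P', ∀ t ∈ I i, |t - (a i).snd| ≤ N ^ 2 / 10 := fun i _ t ht => ht.1
  have hIv : ∀ i, ENNReal.ofReal (N ^ 2 / 10) ≤ volume (I i) := fun i =>
    goodH_vol _ hδ hN _ _ (by
      rw [hm₂d]
      exact (Nat.lt_floor_add_one _).le)
  -- the multiplicity
  have hmm : ((m₁ + m₂ : ℕ) : ℝ) ≤ ε / (6 * d) * K + 1 := by
    push_cast
    have k1 : (m₁ : ℝ) ≤ 4 * C₁ * m + 1 := by
      rw [hm₁d]
      exact (Nat.ceil_lt_add_one (by positivity)).le
    have k2 : (m : ℝ) ≤ θ * K / 2 := by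
      rw [hmd]
      exact Nat.floor_le (by positivity)
    have k3 : (m₂ : ℝ) ≤ 20 * d * δ * K := by
      rw [hm₂d]
      exact Nat.floor_le (by positivity)
    have k4 : 4 * C₁ * (m : ℝ) ≤ ε / (12 * d) * K := by
      calc 4 * C₁ * (m : ℝ) ≤ 4 * C₁ * (θ * K / 2) := mul_le_mul_of_nonneg_left k2 (by positivity)
        _ = ε / (12 * d) * K := by rw [hθd]; field_simp; ring
    have k5 : 20 * d * δ * K = ε / (12 * d) * K := by
      rw [hδd]; field_simp; ring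
    have k6 : ε / (6 * d) * K = ε / (12 * d) * K + ε / (12 * d) * K := by
      field_simp; ring
    linarith
  have hn1 := num1 hd hm₀ hε hG0 hGm hN hK1 hmm
  have hμ : ∀ (t : ℝ) (y : Vec d) (P : Finset ι), (∀ i ∈ P, i ∈ P' ∧ t ∈ I i ∧
      ‖y - ax (ω i) (a i) t‖ ≤ N / 10) → P.card ≤ ⌊C₃ * N ^ ε⌋₊ := by
    intro t y P hP
    apply Nat.le_floor
    rcases P.eq_empty_or_nonempty with rfl | ⟨i₁, hi₁⟩
    · simp only [Finset.card_empty, Nat.cast_zero]; positivity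
    have hax : ∀ i, (1 / N ^ 2) • (ax (ω i) (a i) t - (a i₀).fst) =
        b i - (2 * ((t - (a i₀).snd) / N ^ 2)) • ω i := fun i => ax_pos hN0 _ _ _ _
    have hτ : |2 * ((t - (a i₀).snd) / N ^ 2)| ≤ 2 + 6 * A := by
      have h1 := hIs i₁ (hP i₁ hi₁).1 t (hP i₁ hi₁).2.1
      have h2 : |(a i₁).snd - (a i₀).snd| ≤ 3 * A * N ^ 2 := by
        refine (snd_sub_le _ _).trans ((ha i₁ i₀).trans ?_)
        have k1 : ‖ω i₁ - ω i₀‖ ≤ 2 := (norm_sub_le _ _).trans (by linarith [hω i₁, hω i₀])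
        have k2 : 1 / N ≤ 1 := by rw [div_le_one hN0]; exact hN
        calc A * N ^ 2 * (‖ω i₁ - ω i₀‖ + 1 / N) ≤ A * N ^ 2 * (2 + 1) := by gcongr
          _ = _ := by ring
      have h3 : |t - (a i₀).snd| ≤ (1 + 3 * A) * N ^ 2 := by
        have e : t - (a i₀).snd = (t - (a i₁).snd) + ((a i₁).snd - (a i₀).snd) := by ring
        rw [e]
        refine (abs_add_le _ _).trans ?_
        nlinarith
      rw [abs_mul, abs_div, abs_of_pos (by norm_num : (0 : ℝ) < 2), abs_of_pos (by positivity : (0 : ℝ) < N ^ 2)]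
      have h4 : |t - (a i₀).snd| / N ^ 2 ≤ 1 + 3 * A := by
        rw [div_le_iff₀ (by positivity)]; exact h3
      linarith
    have hcard1 := mult (f := g) (X := X) (δ := δ) (ρ := 1 / N) (τ := (t - (a i₀).snd) / N ^ 2)
      (D := D) (m₀ := m₀) (K := K) (m := m₁ + m₂) hX hδ hD.le P φ (fun i _ => hφ1 i)
      (fun k z => Bad g η s (m₀ * k) z) Am
      (by
        intro k z i j
        rw [hXd]
        have := hAm1 k z i j
        linarith)
      hAm2
      (by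
        have e2 : (1 / 2 : ℝ) ^ (m₀ * K) = 1 / 2 ^ (m₀ * K) := by rw [one_div, inv_pow, one_div]
        rw [e2]
        exact one_div_le_one_div_of_le (by positivity) hK1)
      (by
        intro i hi j hj
        rw [hgb i, hgb j]
        have e1 : (WithLp.ofLp (b i) : Fin d → ℝ) - WithLp.ofLp (b j) -
            (2 * ((t - (a i₀).snd) / N ^ 2)) • (φ i - φ j) =
            WithLp.ofLp ((1 / N ^ 2) • (ax (ω i) (a i) t - ax (ω j) (a j) t)) := by
          have e3 : (1 / N ^ 2) • (ax (ω i) (a i) t - ax (ω j) (a j) t) =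
              (b i - (2 * ((t - (a i₀).snd) / N ^ 2)) • ω i) -
              (b j - (2 * ((t - (a i₀).snd) / N ^ 2)) • ω j) := by
            rw [← hax i, ← hax j, ← smul_sub]
            congr 1
            abel
          rw [e3]
          show WithLp.ofLp (b i) - WithLp.ofLp (b j) -
            (2 * ((t - (a i₀).snd) / N ^ 2)) • (WithLp.ofLp (ω i) - WithLp.ofLp (ω j)) =
            (WithLp.ofLp (b i) - (2 * ((t - (a i₀).snd) / N ^ 2)) • WithLp.ofLp (ω i)) -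
            (WithLp.ofLp (b j) - (2 * ((t - (a i₀).snd) / N ^ 2)) • WithLp.ofLp (ω j))
          rw [smul_sub]
          abel
        rw [e1]
        refine (ofLp_norm_le _).trans ?_
        rw [norm_smul, Real.norm_of_nonneg (by positivity)]
        have h1 := (hP i hi).2.2
        have h2 := (hP j hj).2.2
        have h3 : ‖ax (ω i) (a i) t - ax (ω j) (a j) t‖ ≤ N := by
          have e : ax (ω i) (a i) t - ax (ω j) (a j) t =
              (y - ax (ω j) (a j) t) - (y - ax (ω i) (a i) t) := by abel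
          rw [e]
          refine (norm_sub_le _ _).trans ?_
          linarith
        calc 1 / N ^ 2 * ‖ax (ω i) (a i) t - ax (ω j) (a j) t‖ ≤ 1 / N ^ 2 * N := by gcongr
          _ = 1 / N := by field_simp)
      (by
        intro x _
        have h1 := hcell K le_rfl x (Finset.mem_univ _)
        rw [Nat.sub_self, pow_zero, mul_one] at h1
        refine le_trans ?_ h1
        exact_mod_cast Finset.card_le_card
          (Finset.filter_subset_filter _ (Finset.subset_univ P)))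
      (by
        intro x hx
        obtain ⟨F, hF, hFk⟩ := hP'1 x (hP x hx).1
        have hx2 := (hP x hx).2.1.2
        refine ⟨F ∪ (Finset.range K).filter fun k =>
          t ∈ badH (Am k (cl (m₀ * k) (φ x))) δ N (a i₀).snd, ?_, ?_⟩
        · exact (Finset.card_union_le _ _).trans (Nat.add_le_add hF hx2)
        · intro k hk hor
          rw [Finset.mem_union]
          rcases hor with h | h
          · exact Or.inl (hFk k hk h)
          · right
            rw [Finset.mem_filter, Finset.mem_range]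
            exact ⟨hk, h⟩)
    refine hcard1.trans ?_
    rw [hC₃d]
    calc D * (6 ^ d * (Gc d X δ ^ K * Bc d m₀ ^ (m₁ + m₂)))
        ≤ D * (6 ^ d * (2 ^ (3 * m₀ * d) * N ^ ε)) := by gcongr
      _ = _ := by ring
  have hvol := volume_lower hN a hω hf P' I hIm hIs _ hμ
  have hball : volume (closedBall (0 : Vec d) (N / 10)) = ENNReal.ofReal ((N / 10) ^ d * v) := by
    rw [Measure.addHaar_closedBall' _ _ (by positivity : (0 : ℝ) ≤ N / 10), finrank_euclideanSpace_fin,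
      ENNReal.ofReal_mul (by positivity), hvd, ENNReal.ofReal_toReal hvt]
  have hlow : ENNReal.ofReal (P'.card * (N ^ 2 / 10) * ((N / 10) ^ d * v)) ≤
      ENNReal.ofReal (C₃ * N ^ ε) * volume U := by
    calc ENNReal.ofReal (P'.card * (N ^ 2 / 10) * ((N / 10) ^ d * v))
        = (∑ _i ∈ P', ENNReal.ofReal (N ^ 2 / 10)) * volume (closedBall (0 : Vec d) (N / 10)) := by
          rw [hball, Finset.sum_const, nsmul_eq_mul, ENNReal.ofReal_mul (by positivity),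
            ENNReal.ofReal_mul (Nat.cast_nonneg _), ENNReal.ofReal_natCast]
      _ ≤ (∑ i ∈ P', volume (I i)) * volume (closedBall (0 : Vec d) (N / 10)) := by
          gcongr with i _
          exact hIv i
      _ ≤ (⌊C₃ * N ^ ε⌋₊ : ℝ≥0∞) * volume U := hvol
      _ ≤ ENNReal.ofReal (C₃ * N ^ ε) * volume U := by
          gcongr
          rw [← ENNReal.ofReal_natCast]
          exact ENNReal.ofReal_le_ofReal (Nat.floor_le (by positivity))
  calc ENNReal.ofReal (Fintype.card ι * N ^ (d + 2))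
      ≤ ENNReal.ofReal (20 * 10 ^ d / v * (P'.card * (N ^ 2 / 10) * ((N / 10) ^ d * v))) := by
        apply ENNReal.ofReal_le_ofReal
        have e : 20 * 10 ^ d / v * (P'.card * (N ^ 2 / 10) * ((N / 10) ^ d * v)) =
            2 * P'.card * N ^ (d + 2) := by
          rw [div_pow, pow_add]
          field_simp
          ring
        rw [e]
        exact mul_le_mul_of_nonneg_right hP'card (by positivity)
    _ = ENNReal.ofReal (20 * 10 ^ d / v) *
          ENNReal.ofReal (P'.card * (N ^ 2 / 10) * ((N / 10) ^ d * v)) :=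
        ENNReal.ofReal_mul (by positivity)
    _ ≤ ENNReal.ofReal (20 * 10 ^ d / v) * (ENNReal.ofReal (C₃ * N ^ ε) * volume U) := by gcongr
    _ = ENNReal.ofReal (20 * 10 ^ d / v * C₃ * N ^ ε) * volume U := by
        rw [← mul_assoc, ← ENNReal.ofReal_mul (by positivity), mul_assoc (20 * 10 ^ d / v)]
    _ ≤ _ := by
        gcongr
        exact le_max_right _ _

end Pool.Agent.J4.H41.KL
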