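import Pool.Agent.J4.H41.KL.Defs

/-!
# Project KL, piece TR (helper45): counting the leaves of a tree
-/

set_option autoImplicit false

namespace Pool.Agent.J4.H41.KL

theorem tree_count {α β : Type} [DecidableEq α] [DecidableEq β] (K : ℕ) (c : ℕ → α → β)
    (hc : ∀ k < K, ∀ x y, c (k + 1) x = c (k + 1) y → c k x = c k y) (P : Finset α)
    (bad : ℕ → β → Prop) [∀ k b, Decidable (bad k b)] (G B : ℝ) (hG : 1 ≤ G) (hB : 1 ≤ B)
    (hgood : ∀ k < K, ∀ x ∈ P, ¬ bad k (c k x) →
      (((P.filter fun y => c k y = c k x).image (c (k + 1))).card : ℝ) ≤ G)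
    (hbad : ∀ k < K, ∀ x ∈ P, (((P.filter fun y => c k y = c k x).image (c (k + 1))).card : ℝ) ≤ B)
    (m : ℕ) (hm : ∀ x ∈ P, ((Finset.range K).filter fun k => bad k (c k x)).card ≤ m) :
    ((P.image (c K)).card : ℝ) ≤ (P.image (c 0)).card * (G ^ K * B ^ m) := by
  induction K generalizing c P bad m with
  | zero =>
    have h1 : (1 : ℝ) ≤ G ^ 0 * B ^ m := by
      rw [pow_zero, one_mul]; exact one_le_pow₀ hB
    have h2 : (0 : ℝ) ≤ ((P.image (c 0)).card : ℝ) := Nat.cast_nonneg _
    nlinarith
  | succ K ih =>
    have hG0 : (0 : ℝ) < G := lt_of_lt_of_le one_pos hG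
    have hB0 : (0 : ℝ) < B := lt_of_lt_of_le one_pos hB
    -- each class of the first level
    have key : ∀ b ∈ P.image (c 0),
        (((P.filter fun y => c 0 y = b).image (c (K + 1))).card : ℝ) ≤ G ^ (K + 1) * B ^ m := by
      intro b hb
      obtain ⟨x, hx, rfl⟩ := Finset.mem_image.mp hb
      have hsub : ∀ k : ℕ, ∀ z : α,
          ((((P.filter fun y => c 0 y = c 0 x).filter fun y => c (k + 1) y = c (k + 1) z).image
            (c (k + 1 + 1))).card : ℝ) ≤
          (((P.filter fun y => c (k + 1) y = c (k + 1) z).image (c (k + 1 + 1))).card : ℝ) := by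
        intro k z
        have : (((P.filter fun y => c 0 y = c 0 x).filter fun y => c (k + 1) y = c (k + 1) z).image
            (c (k + 1 + 1))) ⊆ ((P.filter fun y => c (k + 1) y = c (k + 1) z).image
              (c (k + 1 + 1))) := by
          apply Finset.image_subset_image
          intro y hy
          simp only [Finset.mem_filter] at hy ⊢
          exact ⟨hy.1.1, hy.2⟩
        exact_mod_cast Finset.card_le_card this
      have step : ∀ m' : ℕ, (∀ y ∈ P.filter (fun y => c 0 y = c 0 x),
          ((Finset.range K).filter fun k => bad (k + 1) (c (k + 1) y)).card ≤ m') →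
          (((P.filter fun y => c 0 y = c 0 x).image (c (K + 1))).card : ℝ) ≤
            (((P.filter fun y => c 0 y = c 0 x).image (c 1)).card : ℝ) * (G ^ K * B ^ m') := by
        intro m' hm'
        refine ih (fun k => c (k + 1)) (fun k hk u v => hc (k + 1) (by omega) u v)
          (P.filter fun y => c 0 y = c 0 x) (fun k => bad (k + 1)) ?_ ?_ m' hm'
        · intro k hk z hz hnb
          have hzP : z ∈ P := (Finset.mem_filter.mp hz).1
          exact (hsub k z).trans (hgood (k + 1) (by omega) z hzP hnb)
        · intro k hk z hz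
          have hzP : z ∈ P := (Finset.mem_filter.mp hz).1
          exact (hsub k z).trans (hbad (k + 1) (by omega) z hzP)
      have hcount : ∀ y : α, ((Finset.range (K + 1)).filter fun k => bad k (c k y)).card =
          ((Finset.range K).filter fun k => bad (k + 1) (c (k + 1) y)).card +
            (if bad 0 (c 0 y) then 1 else 0) := by
        intro y
        rw [Finset.card_filter, Finset.card_filter, Finset.sum_range_succ']
      by_cases hb0 : bad 0 (c 0 x)
      · have hm1 : 1 ≤ m := by
          have h := hm x hx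
          rw [hcount x, if_pos hb0] at h
          omega
        obtain ⟨m', rfl⟩ : ∃ m', m = m' + 1 := ⟨m - 1, by omega⟩
        have h1 := step m' (by
          intro y hy
          have hy' := Finset.mem_filter.mp hy
          have h := hm y hy'.1
          rw [hcount y, hy'.2, if_pos hb0] at h
          omega)
        have h2 := hbad 0 (by omega) x hx
        have h3 : (0 : ℝ) ≤ G ^ K * B ^ m' := by positivity
        have h4 : (1 : ℝ) * (G ^ K * B ^ (m' + 1)) ≤ G * (G ^ K * B ^ (m' + 1)) :=
          mul_le_mul_of_nonneg_right hG (by positivity)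
        calc (((P.filter fun y => c 0 y = c 0 x).image (c (K + 1))).card : ℝ)
            ≤ (((P.filter fun y => c 0 y = c 0 x).image (c 1)).card : ℝ) * (G ^ K * B ^ m') := h1
          _ ≤ B * (G ^ K * B ^ m') := mul_le_mul_of_nonneg_right h2 h3
          _ = 1 * (G ^ K * B ^ (m' + 1)) := by ring
          _ ≤ G * (G ^ K * B ^ (m' + 1)) := h4
          _ = G ^ (K + 1) * B ^ (m' + 1) := by ring
      · have h1 := step m (by
          intro y hy
          have hy' := Finset.mem_filter.mp hy
          have h := hm y hy'.1
          rw [hcount y] at h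
          omega)
        have h2 := hgood 0 (by omega) x hx hb0
        have h3 : (0 : ℝ) ≤ G ^ K * B ^ m := by positivity
        calc (((P.filter fun y => c 0 y = c 0 x).image (c (K + 1))).card : ℝ)
            ≤ (((P.filter fun y => c 0 y = c 0 x).image (c 1)).card : ℝ) * (G ^ K * B ^ m) := h1
          _ ≤ G * (G ^ K * B ^ m) := mul_le_mul_of_nonneg_right h2 h3
          _ = G ^ (K + 1) * B ^ m := by ring
    have hun : P.image (c (K + 1)) ⊆
        (P.image (c 0)).biUnion fun b => (P.filter fun y => c 0 y = b).image (c (K + 1)) := by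
      intro z hz
      obtain ⟨x, hx, rfl⟩ := Finset.mem_image.mp hz
      refine Finset.mem_biUnion.mpr ⟨c 0 x, Finset.mem_image_of_mem _ hx, ?_⟩
      exact Finset.mem_image_of_mem _ (Finset.mem_filter.mpr ⟨hx, rfl⟩)
    have hcard : ((P.image (c (K + 1))).card : ℝ) ≤
        ∑ b ∈ P.image (c 0), (((P.filter fun y => c 0 y = b).image (c (K + 1))).card : ℝ) := by
      have := (Finset.card_le_card hun).trans Finset.card_biUnion_le
      exact_mod_cast this
    calc ((P.image (c (K + 1))).card : ℝ)
        ≤ ∑ b ∈ P.image (c 0), (((P.filter fun y => c 0 y = b).image (c (K + 1))).card : ℝ) := hcard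
      _ ≤ ∑ b ∈ P.image (c 0), G ^ (K + 1) * B ^ m := Finset.sum_le_sum key
      _ = (P.image (c 0)).card * (G ^ (K + 1) * B ^ m) := by
          rw [Finset.sum_const, nsmul_eq_mul]

end Pool.Agent.J4.H41.KL
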