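import Pool.Agent.J4.H41.KL.Carl
import Pool.Agent.J4.H41.KL.Tr
import Pool.Agent.J4.H41.KL.Car

/-!
# The multiplicity of the good pairs, and the few points with many bad ancestors
-/

set_option autoImplicit false

namespace Pool.Agent.J4.H41.KL

open Set

variable {d : ℕ}

/-- the bound for the number of the children of a good node which are met -/
noncomputable def Gc (d : ℕ) (X δ : ℝ) : ℝ := (2 * (2 * d * d.factorial * X ^ d / δ ^ d) + 2) ^ d

/-- the bound for the number of children -/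
noncomputable def Bc (d m₀ : ℕ) : ℝ := (2 * 2 ^ m₀ + 2) ^ d

theorem scale_floor (n : ℕ) (x : Fin d → ℝ) : cl n x = fun a => ⌊((2 : ℝ) ^ n • x) a⌋ := rfl

/-- **Multiplicity.** -/
theorem mult {α : Type} [DecidableEq α] {f : (Fin d → ℝ) → (Fin d → ℝ)} {X δ ρ τ D : ℝ}
    {m₀ K m : ℕ} (hX : 1 ≤ X) (hδ : 0 < δ) (hD : 0 ≤ D) (P : Finset α) (φ : α → Fin d → ℝ)
    (hφ : ∀ x ∈ P, ∀ a, |φ x a| ≤ 1) (bd : ℕ → (Fin d → ℤ) → Prop)
    (A : ℕ → (Fin d → ℤ) → Matrix (Fin d) (Fin d) ℝ) (hAX : ∀ k z i j, |A k z i j| + |2 * τ| ≤ X)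
    (hA : ∀ k z, ¬ bd k z → ∀ x y, cl (m₀ * k) x = z → cl (m₀ * k) y = z →
      ‖f x - f y - (A k z).mulVec (x - y)‖ ≤ (1 / 2) ^ m₀ * (1 / 2) ^ (m₀ * k))
    (hρ : ρ ≤ (1 / 2) ^ (m₀ * K))
    (hP : ∀ x ∈ P, ∀ y ∈ P, ‖f (φ x) - f (φ y) - (2 * τ) • (φ x - φ y)‖ ≤ ρ)
    (hcell : ∀ x ∈ P, ((P.filter fun y => cl (m₀ * K) (φ y) = cl (m₀ * K) (φ x)).card : ℝ) ≤ D)
    (hm : ∀ x ∈ P, ∃ F : Finset ℕ, F.card ≤ m ∧ ∀ k < K, (bd k (cl (m₀ * k) (φ x)) ∨
      |(A k (cl (m₀ * k) (φ x)) - (2 * τ) • (1 : Matrix (Fin d) (Fin d) ℝ)).det| < δ ^ d) → k ∈ F) :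
    (P.card : ℝ) ≤ D * (6 ^ d * (Gc d X δ ^ K * Bc d m₀ ^ m)) := by
  classical
  set bad : ℕ → (Fin d → ℤ) → Prop := fun k z => bd k z ∨
    |(A k z - (2 * τ) • (1 : Matrix (Fin d) (Fin d) ℝ)).det| < δ ^ d with hbad
  have hX0 : 0 < X := by linarith
  have hCp : 0 ≤ 2 * d * d.factorial * X ^ d / δ ^ d := by positivity
  have hG1 : 1 ≤ Gc d X δ := by
    unfold Gc
    exact one_le_pow₀ (by linarith)
  have hB1 : 1 ≤ Bc d m₀ := by
    unfold Bc
    have : (0 : ℝ) < 2 ^ m₀ := by positivity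
    exact one_le_pow₀ (by linarith)
  have hscale : ∀ (n : ℕ) (Q : Finset α) (R : ℝ), 0 ≤ R →
      (∀ x ∈ Q, ∀ y ∈ Q, ∀ a, (2 : ℝ) ^ n * |φ x a - φ y a| ≤ R) →
      ((Q.image fun x => cl n (φ x)).card : ℝ) ≤ (2 * R + 2) ^ d := by
    intro n Q R hR hQ
    refine card_floor Q (fun x => (2 : ℝ) ^ n • φ x) R hR ?_
    intro x hx y hy a
    have e : ((2 : ℝ) ^ n • φ x) a - ((2 : ℝ) ^ n • φ y) a = 2 ^ n * (φ x a - φ y a) := by
      simp only [Pi.smul_apply, smul_eq_mul]; ring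
    rw [e, abs_mul, abs_of_pos (by positivity : (0 : ℝ) < 2 ^ n)]
    exact hQ x hx y hy a
  have htree := tree_count K (fun k x => cl (m₀ * k) (φ x)) (by
      intro k _ x y h
      have h' : cl (m₀ * k + m₀) (φ x) = cl (m₀ * k + m₀) (φ y) := by
        rw [← Nat.mul_succ]; exact h
      exact cl_nested h') P bad (Gc d X δ) (Bc d m₀) hG1 hB1
    (by
      intro k hk x hx hgood
      rw [hbad] at hgood
      push_neg at hgood
      obtain ⟨hg1, hg2⟩ := hgood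
      refine hscale (m₀ * (k + 1)) _ _ hCp ?_
      intro y hy y' hy' a
      rw [Finset.mem_filter] at hy hy'
      set B := A k (cl (m₀ * k) (φ x)) - (2 * τ) • (1 : Matrix (Fin d) (Fin d) ℝ) with hB
      set w := φ y - φ y' with hw
      have h1 := hA k _ hg1 (φ y) (φ y') hy.2 hy'.2
      have h2 := hP y hy.1 y' hy'.1
      have e1 : B.mulVec w = (f (φ y) - f (φ y') - (2 * τ) • w) -
          (f (φ y) - f (φ y') - (A k (cl (m₀ * k) (φ x))).mulVec w) := by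
        rw [hB, Matrix.sub_mulVec, Matrix.smul_mulVec, Matrix.one_mulVec]
        abel
      have hmk : (1 / 2 : ℝ) ^ (m₀ * (k + 1)) = (1 / 2) ^ m₀ * (1 / 2) ^ (m₀ * k) := by
        rw [← pow_add]; congr 1; ring
      have h3 : ‖B.mulVec w‖ ≤ 2 * (1 / 2) ^ (m₀ * (k + 1)) := by
        rw [e1]
        refine (norm_sub_le _ _).trans ?_
        have h4 : ρ ≤ (1 / 2) ^ (m₀ * (k + 1)) :=
          hρ.trans (pow_le_pow_of_le_one (by norm_num) (by norm_num) (Nat.mul_le_mul_left _ hk))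
        rw [hmk] at h4 ⊢
        linarith
      have hBX : ∀ i j, |B i j| ≤ X := by
        intro i j
        refine le_trans ?_ (hAX k (cl (m₀ * k) (φ x)) i j)
        rw [hB, Matrix.sub_apply, Matrix.smul_apply, smul_eq_mul, Matrix.one_apply]
        have h8 : |2 * τ * (if i = j then (1 : ℝ) else 0)| ≤ |2 * τ| := by
          split_ifs
          · rw [mul_one]
          · rw [mul_zero, abs_zero]; exact abs_nonneg _
        have h9 := abs_sub (A k (cl (m₀ * k) (φ x)) i j) (2 * τ * (if i = j then (1 : ℝ) else 0))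
        linarith
      have h5 := lower d B X hX hBX w
      have h6 : δ ^ d * ‖w‖ ≤ d * d.factorial * X ^ d * (2 * (1 / 2) ^ (m₀ * (k + 1))) := by
        calc δ ^ d * ‖w‖ ≤ |B.det| * ‖w‖ := mul_le_mul_of_nonneg_right hg2 (norm_nonneg _)
          _ ≤ d * d.factorial * X ^ d * ‖B.mulVec w‖ := h5
          _ ≤ _ := mul_le_mul_of_nonneg_left h3 (by positivity)
      have h7 : |φ y a - φ y' a| ≤ ‖w‖ := by
        have := norm_le_pi_norm w a
        rwa [Real.norm_eq_abs] at this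
      have hδd : 0 < δ ^ d := by positivity
      rw [le_div_iff₀ hδd]
      have e2 : (2 : ℝ) ^ (m₀ * (k + 1)) * (1 / 2) ^ (m₀ * (k + 1)) = 1 := by
        rw [← mul_pow]; norm_num
      calc (2 : ℝ) ^ (m₀ * (k + 1)) * |φ y a - φ y' a| * δ ^ d
          ≤ (2 : ℝ) ^ (m₀ * (k + 1)) * ‖w‖ * δ ^ d := by gcongr
        _ = (2 : ℝ) ^ (m₀ * (k + 1)) * (δ ^ d * ‖w‖) := by ring
        _ ≤ (2 : ℝ) ^ (m₀ * (k + 1)) * (d * d.factorial * X ^ d * (2 * (1 / 2) ^ (m₀ * (k + 1)))) := by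
            gcongr
        _ = 2 * d * d.factorial * X ^ d * ((2 : ℝ) ^ (m₀ * (k + 1)) * (1 / 2) ^ (m₀ * (k + 1))) := by ring
        _ = 2 * d * d.factorial * X ^ d := by rw [e2, mul_one])
    (by
      intro k hk x hx
      refine hscale (m₀ * (k + 1)) _ _ (by positivity) ?_
      intro y hy y' hy' a
      rw [Finset.mem_filter] at hy hy'
      have h1 := cl_close (hy.2.trans hy'.2.symm) a
      have e2 : (2 : ℝ) ^ (m₀ * (k + 1)) * (1 / 2) ^ (m₀ * k) = 2 ^ m₀ := by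
        rw [Nat.mul_succ, pow_add, mul_comm ((2 : ℝ) ^ (m₀ * k)), mul_assoc, ← mul_pow]
        norm_num
      calc (2 : ℝ) ^ (m₀ * (k + 1)) * |φ y a - φ y' a|
          ≤ (2 : ℝ) ^ (m₀ * (k + 1)) * (1 / 2) ^ (m₀ * k) := by gcongr
        _ = 2 ^ m₀ := e2) m
    (by
      intro x hx
      obtain ⟨F, hF, hFk⟩ := hm x hx
      refine le_trans (Finset.card_le_card ?_) hF
      intro k hk
      rw [Finset.mem_filter, Finset.mem_range] at hk
      exact hFk k hk.1 hk.2)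
  have h0 : ((P.image fun x => cl (m₀ * 0) (φ x)).card : ℝ) ≤ 6 ^ d := by
    have := hscale (m₀ * 0) P 2 (by norm_num) (by
      intro x hx y hy a
      rw [Nat.mul_zero, pow_zero, one_mul]
      have h1 := abs_le.1 (hφ x hx a)
      have h2 := abs_le.1 (hφ y hy a)
      rw [abs_le]
      constructor <;> linarith)
    refine this.trans (le_of_eq ?_)
    norm_num
  have h1 : P.card ≤ ⌊D⌋₊ * (P.image fun x => cl (m₀ * K) (φ x)).card := by
    refine Finset.card_le_mul_card_image P _ ?_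
    intro z hz
    obtain ⟨x, hx, rfl⟩ := Finset.mem_image.1 hz
    exact Nat.le_floor (hcell x hx)
  have h2 : (P.card : ℝ) ≤ D * ((P.image fun x => cl (m₀ * K) (φ x)).card : ℝ) := by
    calc (P.card : ℝ) ≤ ((⌊D⌋₊ * (P.image fun x => cl (m₀ * K) (φ x)).card : ℕ) : ℝ) := by
          exact_mod_cast h1
      _ = (⌊D⌋₊ : ℝ) * ((P.image fun x => cl (m₀ * K) (φ x)).card : ℝ) := by push_cast; ring
      _ ≤ _ := mul_le_mul_of_nonneg_right (Nat.floor_le hD) (Nat.cast_nonneg _)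
  refine h2.trans (mul_le_mul_of_nonneg_left ?_ hD)
  refine htree.trans ?_
  exact mul_le_mul_of_nonneg_right h0 (by positivity)

/-- points in a cell -/
theorem cell_card {α : Type} [DecidableEq α] {σ N : ℝ} {m₀ K : ℕ} (hd : 1 ≤ d) (hσ : 0 < σ)
    (hN : 0 < N) (hNK : N ≤ 2 ^ (m₀ * (K + 1))) (P : Finset α) (φ : α → Fin d → ℝ)
    (hsep : ∀ x ∈ P, ∀ y ∈ P, x ≠ y → ∃ a, σ / (2 * N) ≤ d * |φ x a - φ y a|) {k : ℕ} (hk : k ≤ K)
    {x : α} (hx : x ∈ P) :
    ((P.filter fun y => cl (m₀ * k) (φ y) = cl (m₀ * k) (φ x)).card : ℝ) ≤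
      (8 * d * 2 ^ m₀ / σ + 2) ^ d * ((2 : ℝ) ^ (m₀ * d)) ^ (K - k) := by
  classical
  have hd0 : (0 : ℝ) < d := by exact_mod_cast hd
  set Q := P.filter fun y => cl (m₀ * k) (φ y) = cl (m₀ * k) (φ x) with hQ
  set l : ℝ := 4 * d * N / σ with hl
  have hl0 : 0 < l := by positivity
  have hinj : Set.InjOn (fun y => (fun a => ⌊(l • φ y) a⌋ : Fin d → ℤ)) (Q : Set α) := by
    intro y hy y' hy' h
    by_contra hne
    rw [Finset.mem_coe, hQ, Finset.mem_filter] at hy hy'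
    obtain ⟨a, ha⟩ := hsep y hy.1 y' hy'.1 hne
    have h1 := Int.abs_sub_lt_one_of_floor_eq_floor (congrFun h a)
    simp only [Pi.smul_apply, smul_eq_mul] at h1
    rw [← mul_sub, abs_mul, abs_of_pos hl0] at h1
    have h2 : l * (d * |φ y a - φ y' a|) < d := by
      have := mul_lt_mul_of_pos_left h1 hd0
      nlinarith
    have h3 : l * (σ / (2 * N)) = 2 * d := by
      rw [hl]; field_simp; norm_num
    have h4 : l * (σ / (2 * N)) ≤ l * (d * |φ y a - φ y' a|) := mul_le_mul_of_nonneg_left ha hl0.le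
    linarith
  set R : ℝ := l * (1 / 2) ^ (m₀ * k) with hR
  have h1 := card_floor Q (fun y => l • φ y) R (by positivity) (by
    intro y hy y' hy' a
    rw [hQ, Finset.mem_filter] at hy hy'
    have := cl_close (hy.2.trans hy'.2.symm) a
    simp only [Pi.smul_apply, smul_eq_mul]
    rw [← mul_sub, abs_mul, abs_of_pos hl0]
    exact mul_le_mul_of_nonneg_left this hl0.le)
  rw [Finset.card_image_of_injOn hinj] at h1
  refine h1.trans ?_
  have e0 : ((2 : ℝ) ^ (m₀ * d)) ^ (K - k) = (2 ^ (m₀ * (K - k))) ^ d := by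
    rw [← pow_mul, ← pow_mul]; congr 1; ring
  rw [e0, ← mul_pow]
  refine pow_le_pow_left₀ (by positivity) ?_ d
  have h2 : N * (1 / 2) ^ (m₀ * k) ≤ 2 ^ m₀ * 2 ^ (m₀ * (K - k)) := by
    calc N * (1 / 2) ^ (m₀ * k) ≤ 2 ^ (m₀ * (K + 1)) * (1 / 2) ^ (m₀ * k) := by gcongr
      _ = 2 ^ m₀ * 2 ^ (m₀ * (K - k)) * (2 ^ (m₀ * k) * (1 / 2) ^ (m₀ * k)) := by
          have : m₀ * (K + 1) = m₀ + m₀ * (K - k) + m₀ * k := by
            have e : K + 1 = 1 + (K - k) + k := by omega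
            rw [e]; ring
          rw [this, pow_add, pow_add]; ring
      _ = _ := by
          rw [← mul_pow]; norm_num
  have h3 : (1 : ℝ) ≤ 2 ^ (m₀ * (K - k)) := one_le_pow₀ (by norm_num)
  calc 2 * R + 2 = 8 * d / σ * (N * (1 / 2) ^ (m₀ * k)) + 2 := by rw [hR, hl]; ring
    _ ≤ 8 * d / σ * (2 ^ m₀ * 2 ^ (m₀ * (K - k))) + 2 * 2 ^ (m₀ * (K - k)) := by
        have : 8 * d / σ * (N * (1 / 2) ^ (m₀ * k)) ≤ 8 * d / σ * (2 ^ m₀ * 2 ^ (m₀ * (K - k))) :=
          mul_le_mul_of_nonneg_left h2 (by positivity)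
        linarith
    _ = (8 * d * 2 ^ m₀ / σ + 2) * 2 ^ (m₀ * (K - k)) := by ring

/-- **Few points have many bad ancestors.** -/
theorem few (hLoc : LocPoints d) (L η : ℝ) (hL : 0 < L) (hη : 0 < η)
    (s m₀ : ℕ) (hs : 1 ≤ s) (hm₀ : 1 ≤ m₀) : ∃ C₁ : ℝ, 1 ≤ C₁ ∧
      ∀ (α : Type) [DecidableEq α] (f : (Fin d → ℝ) → (Fin d → ℝ)),
      (∀ x y, ‖f x - f y‖ ≤ L * ‖x - y‖) → ∀ (P : Finset α) (φ : α → Fin d → ℝ) (D : ℝ) (K : ℕ), 0 ≤ D → (∀ x ∈ P, ∀ a, |φ x a| ≤ 1) →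
      (∀ k ≤ K, ∀ x ∈ P, ((P.filter fun y => cl (m₀ * k) (φ y) = cl (m₀ * k) (φ x)).card : ℝ) ≤
        D * ((2 : ℝ) ^ (m₀ * d)) ^ (K - k)) →
      ∀ m m₁ : ℕ, 4 * C₁ * m ≤ m₁ → ∃ P' ⊆ P, (∀ x ∈ P', ∃ F : Finset ℕ, F.card ≤ m₁ ∧
        ∀ k < K, Bad f η s (m₀ * k) (cl (m₀ * k) (φ x)) → k ∈ F) ∧
        (P.card : ℝ) ≤ P'.card + 6 ^ d * (D * ((2 : ℝ) ^ (m₀ * d)) ^ K * (1 / 4) ^ m) := by
  classical
  obtain ⟨C₁, hC₁, hcar⟩ := carleson hLoc L η hL hη s m₀ hs hm₀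
  refine ⟨C₁, hC₁, ?_⟩
  intro α _ f hf P φ D K hD hφ hcell m m₁ hm
  set bad : ℕ → (Fin d → ℤ) → Prop := fun k z => Bad f η s (m₀ * k) z with hbad
  have h := few_bad K (fun k x => cl (m₀ * k) (φ x)) P (by
      intro k _ x y h
      have h' : cl (m₀ * k + m₀) (φ x) = cl (m₀ * k + m₀) (φ y) := by
        rw [← Nat.mul_succ]; exact h
      exact cl_nested h') bad ((2 : ℝ) ^ (m₀ * d)) D C₁ (one_le_pow₀ (by norm_num)) hD hC₁ hcell
    (by
      intro k₀ hk₀ x hx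
      refine hcar f hf (cl (m₀ * k₀) (φ x)) k₀ K hk₀ (fun k =>
        (((P.filter fun y => cl (m₀ * k₀) (φ y) = cl (m₀ * k₀) (φ x)).image
          fun y => cl (m₀ * k) (φ y)).filter (bad k))) ?_
      intro k hk z hz
      rw [Finset.mem_filter] at hz
      refine ⟨hz.2, ?_⟩
      obtain ⟨y, hy, rfl⟩ := Finset.mem_image.1 hz.1
      rw [Finset.mem_filter] at hy
      rw [Finset.mem_Ico] at hk
      intro a
      have e : m₀ * k = m₀ * k₀ + m₀ * (k - k₀) := by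
        rw [← Nat.mul_add]; congr 1; omega
      rw [e, ← hy.2]
      exact cl_below (φ y) a) m m₁ hm
  refine ⟨P.filter fun x => ¬ m₁ ≤ ((Finset.range K).filter fun k => bad k (cl (m₀ * k) (φ x))).card,
    Finset.filter_subset _ _, ?_, ?_⟩
  · intro x hx
    rw [Finset.mem_filter] at hx
    refine ⟨(Finset.range K).filter fun k => bad k (cl (m₀ * k) (φ x)), by omega, ?_⟩
    intro k hk hb
    rw [Finset.mem_filter, Finset.mem_range]
    exact ⟨hk, hb⟩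
  · have h0 : ((P.image fun x => cl (m₀ * 0) (φ x)).card : ℝ) ≤ 6 ^ d := by
      have := card_floor P (fun x => (2 : ℝ) ^ (m₀ * 0) • φ x) 2 (by norm_num) (by
        intro x hx y hy a
        rw [Nat.mul_zero, pow_zero, one_smul, one_smul]
        have h1 := abs_le.1 (hφ x hx a)
        have h2 := abs_le.1 (hφ y hy a)
        rw [abs_le]
        constructor <;> linarith)
      refine this.trans (le_of_eq ?_)
      norm_num
    have h1 := Finset.card_filter_add_card_filter_not (s := P)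
      (fun x => m₁ ≤ ((Finset.range K).filter fun k => bad k (cl (m₀ * k) (φ x))).card)
    have h2 : (P.card : ℝ) =
        ((P.filter fun x => m₁ ≤ ((Finset.range K).filter fun k => bad k (cl (m₀ * k) (φ x))).card).card : ℝ) +
        ((P.filter fun x => ¬ m₁ ≤ ((Finset.range K).filter fun k => bad k (cl (m₀ * k) (φ x))).card).card : ℝ) := by
      rw [← h1]; push_cast; ring
    rw [h2]
    have h3 := h.trans (mul_le_mul_of_nonneg_right h0 (by positivity))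
    linarith

end Pool.Agent.J4.H41.KL
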