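import Pool.Agent.J4.H41.KL.Mult

/-!
# Numerical inequalities
-/

set_option autoImplicit false

namespace Pool.Agent.J4.H41.KL

open Set

theorem num1 {d m₀ K mm : ℕ} {ε G N : ℝ} (hd : 1 ≤ d) (hm₀ : 1 ≤ m₀) (hε : 0 < ε) (hG0 : 0 ≤ G)
    (hG : G ≤ ((2 : ℝ) ^ (ε / 4)) ^ m₀) (hN : 1 ≤ N) (hKN : (2 : ℝ) ^ (m₀ * K) ≤ N)
    (hmm : (mm : ℝ) ≤ ε / (6 * d) * K + 1) :
    G ^ K * Bc d m₀ ^ mm ≤ 2 ^ (3 * m₀ * d) * N ^ ε := by
  have hd0 : (0 : ℝ) < d := by exact_mod_cast hd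
  have h2 : (0 : ℝ) < 2 := by norm_num
  have hN0 : 0 < N := by linarith
  have e1 : (((2 : ℝ) ^ (ε / 4)) ^ m₀) ^ K = ((2 : ℝ) ^ (m₀ * K)) ^ (ε / 4) := by
    rw [← Real.rpow_natCast, ← Real.rpow_natCast, ← Real.rpow_natCast, ← Real.rpow_mul h2.le,
      ← Real.rpow_mul h2.le, ← Real.rpow_mul h2.le]
    congr 1
    push_cast; ring
  have g1 : G ^ K ≤ N ^ (ε / 4) := by
    calc G ^ K ≤ (((2 : ℝ) ^ (ε / 4)) ^ m₀) ^ K := pow_le_pow_left₀ hG0 hG K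
      _ = ((2 : ℝ) ^ (m₀ * K)) ^ (ε / 4) := e1
      _ ≤ N ^ (ε / 4) := Real.rpow_le_rpow (by positivity) hKN (by positivity)
  have b0 : Bc d m₀ ≤ (2 : ℝ) ^ (3 * m₀ * d) := by
    unfold Bc
    rw [pow_mul]
    refine pow_le_pow_left₀ (by positivity) ?_ d
    have k1 : (1 : ℝ) ≤ 2 ^ m₀ := one_le_pow₀ (by norm_num)
    have k2 : (2 : ℝ) ^ (m₀ + 2) ≤ 2 ^ (3 * m₀) := pow_le_pow_right₀ (by norm_num) (by omega)
    rw [pow_add] at k2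
    linarith
  have hB0 : 0 ≤ Bc d m₀ := by unfold Bc; positivity
  have b1 : Bc d m₀ ^ mm ≤ 2 ^ (3 * m₀ * d) * N ^ (ε / 2) := by
    calc Bc d m₀ ^ mm ≤ ((2 : ℝ) ^ (3 * m₀ * d)) ^ mm := pow_le_pow_left₀ hB0 b0 mm
      _ = (2 : ℝ) ^ ((3 * m₀ * d : ℝ) * mm) := by
          rw [← Real.rpow_natCast, ← Real.rpow_natCast, ← Real.rpow_mul h2.le]
          push_cast; rfl
      _ ≤ (2 : ℝ) ^ ((3 * m₀ * d : ℝ) * (ε / (6 * d) * K + 1)) := by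
          apply Real.rpow_le_rpow_of_exponent_le (by norm_num)
          exact mul_le_mul_of_nonneg_left hmm (by positivity)
      _ = (2 : ℝ) ^ ((m₀ * K : ℝ) * (ε / 2) + (3 * m₀ * d : ℝ)) := by
          congr 1
          field_simp
          ring
      _ = ((2 : ℝ) ^ (m₀ * K)) ^ (ε / 2) * 2 ^ (3 * m₀ * d) := by
          rw [Real.rpow_add h2, Real.rpow_mul h2.le]
          congr 1
          · congr 1
            rw [← Real.rpow_natCast]; push_cast; rfl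
          · rw [← Real.rpow_natCast]; push_cast; rfl
      _ ≤ N ^ (ε / 2) * 2 ^ (3 * m₀ * d) := by
          gcongr
      _ = _ := mul_comm _ _
  calc G ^ K * Bc d m₀ ^ mm ≤ N ^ (ε / 4) * (2 ^ (3 * m₀ * d) * N ^ (ε / 2)) :=
        mul_le_mul g1 b1 (by positivity) (by positivity)
    _ = 2 ^ (3 * m₀ * d) * N ^ (ε / 4 + ε / 2) := by
        rw [Real.rpow_add hN0]; ring
    _ ≤ 2 ^ (3 * m₀ * d) * N ^ ε := by
        refine mul_le_mul_of_nonneg_left (Real.rpow_le_rpow_of_exponent_le hN (by linarith)) (by positivity)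

theorem num2 {d m₀ K m : ℕ} {N D θ c : ℝ} (hm₀ : 1 ≤ m₀) (hN : 1 ≤ N)
    (hKN : (2 : ℝ) ^ (m₀ * K) ≤ N) (hNK : N ≤ 2 ^ (m₀ * (K + 1))) (hD : 0 ≤ D) (hθ : 0 < θ)
    (hc : c = θ / (2 * m₀)) (hm : θ * K / 2 - 1 ≤ m)
    (hbig : 2 * (6 ^ d * D * 4 * 2 ^ θ) ≤ N ^ c) :
    (6 : ℝ) ^ d * (D * ((2 : ℝ) ^ (m₀ * d)) ^ K * (1 / 4) ^ m) ≤ N ^ (d - c) / 2 := by
  have h2 : (0 : ℝ) < 2 := by norm_num
  have hN0 : 0 < N := by linarith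
  have hm0 : (0 : ℝ) < m₀ := by exact_mod_cast hm₀
  have h1 : ((2 : ℝ) ^ (m₀ * d)) ^ K ≤ N ^ d := by
    have : ((2 : ℝ) ^ (m₀ * d)) ^ K = (2 ^ (m₀ * K)) ^ d := by
      rw [← pow_mul, ← pow_mul]; congr 1; ring
    rw [this]
    exact pow_le_pow_left₀ (by positivity) hKN d
  have h3 : (1 / 4 : ℝ) ^ m ≤ 4 * (2 : ℝ) ^ (-(θ * K)) := by
    calc (1 / 4 : ℝ) ^ m = (2 : ℝ) ^ (-(2 * (m : ℝ))) := by
          rw [Real.rpow_neg h2.le, Real.rpow_mul h2.le, Real.rpow_natCast, one_div, inv_pow]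
          norm_num
      _ ≤ (2 : ℝ) ^ (-(θ * K) + 2) := by
          apply Real.rpow_le_rpow_of_exponent_le (by norm_num)
          linarith
      _ = 4 * (2 : ℝ) ^ (-(θ * K)) := by
          rw [Real.rpow_add h2]; norm_num; ring
  have h4 : (2 : ℝ) ^ (-(θ * K)) ≤ 2 ^ θ * N ^ (-(2 * c)) := by
    have k1 : N ^ (2 * c) ≤ (2 : ℝ) ^ (θ * (K + 1)) := by
      calc N ^ (2 * c) ≤ ((2 : ℝ) ^ (m₀ * (K + 1))) ^ (2 * c) :=
            Real.rpow_le_rpow hN0.le hNK (by rw [hc]; positivity)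
        _ = (2 : ℝ) ^ (θ * (K + 1)) := by
            rw [← Real.rpow_natCast, ← Real.rpow_mul h2.le]
            congr 1
            rw [hc]
            push_cast
            field_simp
    rw [Real.rpow_neg hN0.le, ← div_eq_mul_inv, le_div_iff₀ (by positivity)]
    calc (2 : ℝ) ^ (-(θ * K)) * N ^ (2 * c) ≤ (2 : ℝ) ^ (-(θ * K)) * (2 : ℝ) ^ (θ * (K + 1)) := by gcongr
      _ = 2 ^ θ := by
          rw [← Real.rpow_add h2]; congr 1; ring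
  have h5 : (1 / 4 : ℝ) ^ m ≤ 4 * (2 ^ θ * N ^ (-(2 * c))) :=
    h3.trans (by gcongr)
  have e2 : N ^ d * N ^ (-(2 * c)) * N ^ c = N ^ (d - c) := by
    rw [← Real.rpow_natCast, ← Real.rpow_add hN0, ← Real.rpow_add hN0]
    congr 1; ring
  calc (6 : ℝ) ^ d * (D * ((2 : ℝ) ^ (m₀ * d)) ^ K * (1 / 4) ^ m)
      ≤ (6 : ℝ) ^ d * (D * N ^ d * (4 * (2 ^ θ * N ^ (-(2 * c))))) := by gcongr
    _ = (2 * (6 ^ d * D * 4 * 2 ^ θ)) * (N ^ d * N ^ (-(2 * c))) / 2 := by ring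
    _ ≤ N ^ c * (N ^ d * N ^ (-(2 * c))) / 2 := by gcongr
    _ = N ^ (d - c) / 2 := by rw [← e2]; ring

end Pool.Agent.J4.H41.KL
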