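import Pool.Agent.H810R3.Tub.Box

/-!
# The volume of a union of boxes, bounded below by sections of bounded multiplicity
-/

set_option autoImplicit false

namespace Pool.Agent.J4.H41.KL

open MeasureTheory Set Metric
open scoped ENNReal
open Pool.Agent.H810R3.Tub

variable {d : ℕ}

/-- Fubini on the space -/
theorem fub (f : Space d → ℝ≥0∞) (hf : Measurable f) :
    ∫⁻ y, f y = ∫⁻ t : ℝ, ∫⁻ x : Vec d, f (WithLp.toLp 2 (x, t)) := by
  have h1 := (WithLp.volume_preserving_toLp (Vec d) ℝ)
  rw [← h1.lintegral_comp hf, Measure.volume_eq_prod]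
  exact lintegral_prod_symm (fun p : Vec d × ℝ => f (WithLp.toLp 2 p))
    (hf.comp h1.measurable).aemeasurable

/-- the point of the axis of the box with centre `a` at the height `t` -/
noncomputable def ax (ω : Vec d) (a : Space d) (t : ℝ) : Vec d :=
  a.fst - (2 * (t - a.snd)) • ω

/-- the part of a tube over a set of heights -/
def part (N : ℝ) (ω : Vec d) (a : Space d) (I : Set ℝ) : Set (Space d) :=
  {y | y.snd ∈ I ∧ ‖y.fst - ax ω a y.snd‖ ≤ N / 10}

theorem part_sub {N : ℝ} (hN : 1 ≤ N) {ω : Vec d} (hω : ‖ω‖ ≤ 1) {f : Fin d → Space d}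
    (hf : Orthonormal ℝ (Fin.cons (nor ω) f : Fin (d + 1) → Space d)) {a : Space d} {I : Set ℝ}
    (hI : ∀ t ∈ I, |t - a.snd| ≤ N ^ 2 / 10) : part N ω a I ⊆ box N (nor ω) f a := by
  rintro y ⟨hyI, hy⟩
  have hts := hI _ hyI
  set u : Vec d := y.fst - ax ω a y.snd with hu
  set p : Space d := WithLp.toLp 2 (-(2 : ℝ) • ω, (1:ℝ)) with hp
  set q : Space d := WithLp.toLp 2 (u, (0:ℝ)) with hq
  have hdec : y - a = (y.snd - a.snd) • p + q := by
    have e1 : y - a = WithLp.toLp 2 (y.fst - a.fst, y.snd - a.snd) := rfl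
    have e2 : (y.snd - a.snd) • p + q = WithLp.toLp 2 ((y.snd - a.snd) • (-(2 : ℝ) • ω) + u,
      (y.snd - a.snd) * 1 + 0) := rfl
    rw [e1, e2]
    congr 1
    refine Prod.ext ?_ ?_
    · show y.fst - a.fst = (y.snd - a.snd) • (-(2 : ℝ) • ω) + u
      rw [hu, ax, smul_smul]
      have : (y.snd - a.snd) * -2 = -(2 * (y.snd - a.snd)) := by ring
      rw [this, neg_smul]
      abel
    · show y.snd - a.snd = (y.snd - a.snd) * 1 + 0
      ring
  set r : ℝ := √(1 + ‖-(2 : ℝ) • ω‖ ^ 2) with hr
  have hr0 : 0 < r := by positivity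
  have hpr : p = r • nor ω := by
    unfold nor dir
    rw [smul_smul, ← hr, mul_inv_cancel₀ hr0.ne', one_smul]
  have hn1 : ‖nor ω‖ = 1 := by
    have := hf.1 0
    simpa using this
  have hr3 : r ≤ 3 := by
    rw [hr]
    apply Real.sqrt_le_iff.2
    constructor
    · norm_num
    · rw [norm_smul, norm_neg, Real.norm_eq_abs, abs_of_pos (by norm_num : (0:ℝ) < 2)]
      nlinarith [norm_nonneg ω]
  have hpn : ‖p‖ ≤ 3 := by
    rw [hpr, norm_smul, hn1, mul_one, Real.norm_of_nonneg hr0.le]
    exact hr3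
  have hqn : ‖q‖ = ‖u‖ := by
    have h1 := norm_space_sq q
    have e1 : q.fst = u := rfl
    have e2 : q.snd = 0 := rfl
    rw [e1, e2] at h1
    have h2 : ‖q‖ ^ 2 = ‖u‖ ^ 2 := by rw [h1]; ring
    exact (sq_eq_sq₀ (norm_nonneg _) (norm_nonneg _)).1 h2
  refine ⟨?_, fun j => ?_⟩
  · have h1 := abs_real_inner_le_norm (nor ω) (y - a)
    rw [hn1, one_mul] at h1
    refine h1.trans ?_
    rw [hdec]
    refine (norm_add_le _ _).trans ?_
    rw [norm_smul, Real.norm_eq_abs, hqn]
    have h2 : |y.snd - a.snd| * ‖p‖ ≤ N ^ 2 / 10 * 3 :=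
      mul_le_mul hts hpn (norm_nonneg _) (by positivity)
    nlinarith
  · have hfn : ‖f j‖ = 1 := by
      have := hf.1 j.succ
      simpa using this
    have horth : inner ℝ (f j) (nor ω) = 0 := by
      have := hf.2 (Fin.succ_ne_zero j)
      simpa using this
    rw [hdec, inner_add_right, inner_smul_right, hpr, inner_smul_right, horth, mul_zero, mul_zero,
      zero_add]
    have h1 := abs_real_inner_le_norm (f j) q
    rw [hfn, one_mul, hqn] at h1
    linarith

theorem fst_cont : Continuous (fun y : Space d => y.fst) := by fun_prop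

theorem snd_cont : Continuous (fun y : Space d => y.snd) := by fun_prop

theorem part_meas (N : ℝ) (ω : Vec d) (a : Space d) {I : Set ℝ} (hI : MeasurableSet I) :
    MeasurableSet (part N ω a I) := by
  have h1 : MeasurableSet {y : Space d | y.snd ∈ I} := snd_cont.measurable hI
  have h2 : IsClosed {y : Space d | ‖y.fst - ax ω a y.snd‖ ≤ N / 10} := by
    refine isClosed_le ?_ continuous_const
    unfold ax
    fun_prop
  exact h1.inter h2.measurableSet

theorem part_vol (N : ℝ) (ω : Vec d) (a : Space d) {I : Set ℝ} (hI : MeasurableSet I) :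
    volume (part N ω a I) = volume I * volume (closedBall (0 : Vec d) (N / 10)) := by
  have h := fub (d := d) ((part N ω a I).indicator (fun _ => (1 : ℝ≥0∞)))
    (measurable_const.indicator (part_meas N ω a hI))
  rw [lintegral_indicator (part_meas N ω a hI), setLIntegral_one] at h
  rw [h]
  have h2 : ∀ t : ℝ, ∫⁻ x : Vec d, (part N ω a I).indicator (fun _ => (1 : ℝ≥0∞)) (WithLp.toLp 2 (x, t))
      = I.indicator (fun _ => volume (closedBall (0 : Vec d) (N / 10))) t := by
    intro t
    by_cases ht : t ∈ I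
    · rw [indicator_of_mem ht]
      have e : (fun x : Vec d => (part N ω a I).indicator (fun _ => (1 : ℝ≥0∞)) (WithLp.toLp 2 (x, t)))
          = (closedBall (ax ω a t) (N / 10)).indicator (fun _ => (1 : ℝ≥0∞)) := by
        ext x
        by_cases hx : x ∈ closedBall (ax ω a t) (N / 10)
        · rw [indicator_of_mem hx, indicator_of_mem]
          rw [mem_closedBall, dist_eq_norm] at hx
          exact ⟨ht, hx⟩
        · rw [indicator_of_notMem hx, indicator_of_notMem]
          rintro ⟨-, h3⟩
          apply hx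
          rw [mem_closedBall, dist_eq_norm]
          exact h3
      rw [e, lintegral_indicator measurableSet_closedBall, setLIntegral_one,
        Measure.addHaar_closedBall_center]
    · rw [indicator_of_notMem ht]
      have e : (fun x : Vec d => (part N ω a I).indicator (fun _ => (1 : ℝ≥0∞)) (WithLp.toLp 2 (x, t)))
          = fun _ => 0 := by
        ext x
        rw [indicator_of_notMem]
        rintro ⟨h3, -⟩
        exact ht h3
      rw [e, lintegral_zero]
  simp_rw [h2]
  rw [lintegral_indicator hI, setLIntegral_const, mul_comm]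

/-- **Lower bound for the volume of the union by sections of bounded multiplicity.** -/
theorem volume_lower {ι : Type} [Fintype ι] {N : ℝ} (hN : 1 ≤ N)
    {ω : ι → Vec d} {f : ι → Fin d → Space d} (a : ι → Space d) (hω : ∀ i, ‖ω i‖ ≤ 1)
    (hf : ∀ i, Orthonormal ℝ (Fin.cons (nor (ω i)) (f i) : Fin (d + 1) → Space d))
    (J : Finset ι) (I : ι → Set ℝ) (hI : ∀ i, MeasurableSet (I i))
    (hIs : ∀ i ∈ J, ∀ t ∈ I i, |t - (a i).snd| ≤ N ^ 2 / 10) (μ : ℕ)
    (hμ : ∀ (t : ℝ) (y : Vec d) (P : Finset ι), (∀ i ∈ P, i ∈ J ∧ t ∈ I i ∧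
      ‖y - ax (ω i) (a i) t‖ ≤ N / 10) → P.card ≤ μ) :
    (∑ i ∈ J, volume (I i)) * volume (closedBall (0 : Vec d) (N / 10)) ≤
      μ * volume (⋃ i, box N (nor (ω i)) (f i) (a i)) := by
  classical
  set U := ⋃ i, box N (nor (ω i)) (f i) (a i) with hU
  have hUm : MeasurableSet U := MeasurableSet.iUnion fun i => (box_closed _ _ _ _).measurableSet
  have h1 : ∀ y : Space d, (∑ i ∈ J, (part N (ω i) (a i) (I i)).indicator (fun _ => (1 : ℝ≥0∞)) y) ≤
      U.indicator (fun _ => (μ : ℝ≥0∞)) y := by
    intro y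
    have e : ∀ i ∈ J, (part N (ω i) (a i) (I i)).indicator (fun _ => (1 : ℝ≥0∞)) y =
        if y ∈ part N (ω i) (a i) (I i) then 1 else 0 := by
      intro i _
      rw [indicator_apply]
    rw [Finset.sum_congr rfl e, ← Finset.sum_filter, Finset.sum_const, nsmul_eq_mul, mul_one]
    set P := J.filter fun i => y ∈ part N (ω i) (a i) (I i) with hP
    by_cases hne : P.Nonempty
    · obtain ⟨i, hi⟩ := hne
      rw [hP, Finset.mem_filter] at hi
      have hyU : y ∈ U := mem_iUnion.2 ⟨i, part_sub hN (hω i) (hf i) (hIs i hi.1) hi.2⟩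
      rw [indicator_of_mem hyU]
      have := hμ y.snd y.fst P (fun i hi => by
        rw [hP, Finset.mem_filter] at hi
        exact ⟨hi.1, hi.2.1, hi.2.2⟩)
      exact_mod_cast this
    · rw [Finset.not_nonempty_iff_eq_empty] at hne
      rw [hne]
      simp
  have h2 := lintegral_mono (μ := volume) h1
  rw [lintegral_finset_sum _ (fun i _ => measurable_const.indicator (part_meas _ _ _ (hI i))),
    lintegral_indicator hUm, setLIntegral_const] at h2
  refine le_trans (le_of_eq ?_) h2
  rw [Finset.sum_mul]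
  refine Finset.sum_congr rfl fun i _ => ?_
  rw [lintegral_indicator (part_meas _ _ _ (hI i)), setLIntegral_one, part_vol _ _ _ (hI i)]

end Pool.Agent.J4.H41.KL
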